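import Pool.Agent.Lib.P4a177h.Defs

/-!
# MODULE RegMul: the regulator integral is multiplicative in every entry
-/

set_option autoImplicit false

namespace P4a177h

open Function MeasureTheory
open scoped Real

variable {d : ℕ} {R : Type*} [CommRing R]

theorem emb_ne_zero (γ : Torus d R) (a : Rˣ) (θ : Fin d → ℝ) : γ.emb θ (a : R) ≠ 0 :=
  (a.isUnit.map (γ.emb θ)).ne_zero

theorem dlogRow_continuous (γ : Torus d R) (a : Rˣ) (l : Fin d) :
    Continuous fun θ => dlogRow γ a θ l := by
  unfold dlogRow
  have h1 : Continuous (fderiv ℝ (fun θ => γ.emb θ (a : R))) :=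
    (γ.contDiff (a : R)).continuous_fderiv (by norm_num)
  have h2 : Continuous fun θ => fderiv ℝ (fun θ => γ.emb θ (a : R)) θ (Pi.single l 1) :=
    h1.clm_apply continuous_const
  have h3 : Continuous fun θ => γ.emb θ (a : R) := (γ.contDiff (a : R)).continuous
  exact continuous_const.mul (h2.div h3 (emb_ne_zero γ a))

theorem dlogRow_mul (γ : Torus d R) (b c : Rˣ) (θ : Fin d → ℝ) :
    dlogRow γ (b * c) θ = dlogRow γ b θ + dlogRow γ c θ := by
  funext l
  have hb := emb_ne_zero γ b θ
  have hc := emb_ne_zero γ c θ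
  have h1 : (fun θ => γ.emb θ ((b * c : Rˣ) : R)) =
      fun θ => γ.emb θ (b : R) * γ.emb θ (c : R) := by
    funext θ
    rw [Units.val_mul, map_mul]
  have db : DifferentiableAt ℝ (fun θ => γ.emb θ (b : R)) θ :=
    ((γ.contDiff (b : R)).differentiable (by norm_num)) θ
  have dc : DifferentiableAt ℝ (fun θ => γ.emb θ (c : R)) θ :=
    ((γ.contDiff (c : R)).differentiable (by norm_num)) θ
  have h2 : fderiv ℝ (fun θ => γ.emb θ ((b * c : Rˣ) : R)) θ (Pi.single l 1) =
      γ.emb θ (b : R) * fderiv ℝ (fun θ => γ.emb θ (c : R)) θ (Pi.single l 1) +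
      γ.emb θ (c : R) * fderiv ℝ (fun θ => γ.emb θ (b : R)) θ (Pi.single l 1) := by
    rw [h1, fderiv_fun_mul db dc]
    simp only [_root_.add_apply, _root_.smul_apply, smul_eq_mul]
  simp only [dlogRow, Pi.add_apply]
  rw [h2, Units.val_mul, map_mul]
  field_simp
  ring

theorem logNorm_continuous (γ : Torus d R) (a : Rˣ) :
    Continuous fun θ => Real.log ‖γ.emb θ (a : R)‖ :=
  ((γ.contDiff (a : R)).continuous.norm).log fun θ => norm_ne_zero_iff.2 (emb_ne_zero γ a θ)

theorem regForm_continuous (γ : Torus d R) (a : Fin (d + 1) → Rˣ) :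
    Continuous fun θ => regForm γ a θ := by
  unfold regForm
  refine continuous_finsetSum _ fun k _ => ?_
  refine (continuous_const.mul (logNorm_continuous γ (a k))).mul
    (Complex.continuous_re.comp (Continuous.matrix_det ?_))
  refine continuous_pi fun i => continuous_pi fun l => ?_
  simp only [regMatrix, Matrix.of_apply]
  split_ifs
  · exact Complex.continuous_ofReal.comp (Complex.continuous_re.comp (dlogRow_continuous γ _ l))
  · exact dlogRow_continuous γ _ l

theorem regMatrix_update_self (γ : Torus d R) (a : Fin (d + 1) → Rˣ) (i : Fin (d + 1)) (x : Rˣ)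
    (θ : Fin d → ℝ) : regMatrix γ (update a i x) i θ = regMatrix γ a i θ := by
  unfold regMatrix
  ext j l
  simp only [Matrix.of_apply, update_of_ne (Fin.succAbove_ne i j)]

theorem regMatrix_update_ne (γ : Torus d R) (a : Fin (d + 1) → Rˣ) (k : Fin (d + 1)) (j : Fin d)
    (x : Rˣ) (θ : Fin d → ℝ) :
    regMatrix γ (update a (k.succAbove j) x) k θ = (regMatrix γ a k θ).updateRow j
      (fun l => if (j : ℕ) < k then ((dlogRow γ x θ l).re : ℂ) else dlogRow γ x θ l) := by
  ext i l
  by_cases hi : i = j
  · subst hi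
    simp only [regMatrix, Matrix.of_apply, update_self, Matrix.updateRow_self]
  · have h : k.succAbove i ≠ k.succAbove j := fun h => hi (Fin.succAbove_right_injective h)
    simp only [regMatrix, Matrix.of_apply, update_of_ne h, Matrix.updateRow_ne hi]

theorem regForm_mul (γ : Torus d R) (a : Fin (d + 1) → Rˣ) (i : Fin (d + 1)) (b c : Rˣ)
    (θ : Fin d → ℝ) :
    regForm γ (update a i (b * c)) θ = regForm γ (update a i b) θ + regForm γ (update a i c) θ := by
  unfold regForm
  rw [← Finset.sum_add_distrib]
  refine Finset.sum_congr rfl fun k _ => ?_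
  by_cases hk : k = i
  · subst hk
    simp only [regMatrix_update_self, update_self]
    rw [Units.val_mul, map_mul, norm_mul,
      Real.log_mul (norm_ne_zero_iff.2 (emb_ne_zero γ b θ)) (norm_ne_zero_iff.2 (emb_ne_zero γ c θ))]
    ring
  · obtain ⟨j, hj⟩ := Fin.exists_succAbove_eq (x := i) (y := k) (fun h => hk h.symm)
    subst hj
    simp only [regMatrix_update_ne, update_of_ne hk]
    have h : (fun l => if (j : ℕ) < k then ((dlogRow γ (b * c) θ l).re : ℂ)
          else dlogRow γ (b * c) θ l) =
        (fun l => if (j : ℕ) < k then ((dlogRow γ b θ l).re : ℂ) else dlogRow γ b θ l) +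
        (fun l => if (j : ℕ) < k then ((dlogRow γ c θ l).re : ℂ) else dlogRow γ c θ l) := by
      funext l
      simp only [Pi.add_apply, dlogRow_mul]
      split_ifs
      · rw [Complex.add_re, Complex.ofReal_add]
      · rfl
    rw [h, Matrix.det_updateRow_add, Complex.add_re]
    ring

theorem regFun_mul (γ : Torus d R) (a : Fin (d + 1) → Rˣ) (i : Fin (d + 1)) (b c : Rˣ) :
    regFun γ (update a i (b * c)) = regFun γ (update a i b) + regFun γ (update a i c) := by
  unfold regFun
  have hint : ∀ x : Rˣ, Integrable (fun θ => regForm γ (update a i x) θ) (volume.restrict (box d)) :=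
    fun x => ((regForm_continuous γ (update a i x)).continuousOn).integrableOn_compact isCompact_Icc
  rw [← integral_add (hint b) (hint c)]
  refine integral_congr_ae (Filter.Eventually.of_forall fun θ => ?_)
  exact regForm_mul γ a i b c θ

end P4a177h
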