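import Pool.Agent.Lib.P4a177h.SteinL
import Pool.Agent.Lib.P4a177h.RegMul
import Pool.Agent.Lib.P4a177b.BW

/-!
# The entry of a unit
-/

set_option autoImplicit false

namespace P4a177h

open Function MeasureTheory ExteriorAlgebra
open scoped Real

noncomputable section

variable {d : ℕ} {R : Type*} [CommRing R]

theorem contDiff_fderiv_apply (f : (Fin d → ℝ) → ℂ) (hf : ContDiff ℝ 2 f) (v : Fin d → ℝ) :
    ContDiff ℝ 1 fun θ => fderiv ℝ f θ v :=
  (hf.fderiv_right (by norm_num)).clm_apply contDiff_const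

theorem dlogRow_contDiff (γ : Torus d R) (a : Rˣ) (l : Fin d) :
    ContDiff ℝ 1 fun θ => dlogRow γ a θ l := by
  unfold dlogRow
  simp only [div_eq_mul_inv]
  refine contDiff_const.mul (ContDiff.mul ?_ (ContDiff.inv ?_ fun θ => emb_ne_zero γ a θ))
  · exact contDiff_fderiv_apply _ (γ.contDiff _) _
  · exact (γ.contDiff _).of_le (by norm_num)

theorem fderiv_update_periodic (f : (Fin d → ℝ) → ℂ)
    (hf : ∀ (θ : Fin d → ℝ) (l : Fin d), f (update θ l (θ l + 2 * π)) = f θ)
    (θ : Fin d → ℝ) (l : Fin d) : fderiv ℝ f (update θ l (θ l + 2 * π)) = fderiv ℝ f θ := by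
  have h1 : ∀ η : Fin d → ℝ, update η l (η l + 2 * π) = η + Pi.single l (2 * π) := by
    intro η
    funext i
    by_cases hi : i = l
    · subst hi; simp
    · simp [update_of_ne hi, Pi.single_eq_of_ne hi]
  have h2 : (fun η => f (η + Pi.single l (2 * π))) = f := by
    funext η
    rw [← h1, hf]
  have h3 := fderiv_comp_add_right (𝕜 := ℝ) (f := f) (x := θ) (Pi.single l (2 * π))
  rw [h2] at h3
  rw [h1, ← h3]

theorem fderiv_single_symm (f : (Fin d → ℝ) → ℂ) (hf : ContDiff ℝ 2 f) (θ : Fin d → ℝ)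
    (v w : Fin d → ℝ) :
    fderiv ℝ (fun θ => fderiv ℝ f θ v) θ w = fderiv ℝ (fun θ => fderiv ℝ f θ w) θ v := by
  have hs : IsSymmSndFDerivAt ℝ f θ :=
    hf.contDiffAt.isSymmSndFDerivAt (by simp)
  have hd : DifferentiableAt ℝ (fderiv ℝ f) θ :=
    (hf.fderiv_right (m := 1) (by norm_num)).differentiable (by norm_num) θ
  have h1 : ∀ v, fderiv ℝ (fun θ => fderiv ℝ f θ v) θ w = fderiv ℝ (fderiv ℝ f) θ w v := by
    intro v
    have := (hd.hasFDerivAt.clm_apply (hasFDerivAt_const v θ)).fderiv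
    rw [this]
    simp
  have h2 : ∀ w, fderiv ℝ (fun θ => fderiv ℝ f θ w) θ v = fderiv ℝ (fderiv ℝ f) θ v w := by
    intro w
    have := (hd.hasFDerivAt.clm_apply (hasFDerivAt_const w θ)).fderiv
    rw [this]
    simp
  rw [h1, h2]
  exact hs.eq w v

/-- the closed form `- i dlog a` -/
def dlogForm (γ : Torus d R) (a : Rˣ) : CForm d where
  toFun := dlogRow γ a
  smooth := dlogRow_contDiff γ a
  periodic := fun θ l i => by
    unfold dlogRow
    rw [γ.periodic, fderiv_update_periodic _ (γ.periodic _)]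
  closed := fun θ i j => by
    have hf := γ.contDiff (a : R)
    have hne := emb_ne_zero γ a
    set f := fun θ => γ.emb θ (a : R) with hfdef
    have hd : DifferentiableAt ℝ f θ := hf.differentiable (by norm_num) θ
    have key : ∀ v w : Fin d → ℝ,
        fderiv ℝ (fun θ => -Complex.I * (fderiv ℝ f θ v / f θ)) θ w =
          -Complex.I * ((fderiv ℝ (fun θ => fderiv ℝ f θ v) θ w * f θ -
            fderiv ℝ f θ v * fderiv ℝ f θ w) / f θ ^ 2) := by
      intro v w
      have h1 : HasFDerivAt (fun θ => fderiv ℝ f θ v) (fderiv ℝ (fun θ => fderiv ℝ f θ v) θ) θ :=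
        ((contDiff_fderiv_apply f hf v).differentiable (by norm_num) θ).hasFDerivAt
      have hG : DifferentiableAt ℝ (fun θ => -Complex.I * (fderiv ℝ f θ v / f θ)) θ := by
        simp only [div_eq_mul_inv]
        exact (h1.differentiableAt.mul (hd.inv (hne θ))).const_mul _
      have h2 : HasDerivAt (fun t : ℝ => fderiv ℝ f (θ + t • w) v)
          (fderiv ℝ (fun θ => fderiv ℝ f θ v) θ w) 0 := h1.hasLineDerivAt w
      have h3 : HasDerivAt (fun t : ℝ => f (θ + t • w)) (fderiv ℝ f θ w) 0 :=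
        hd.hasFDerivAt.hasLineDerivAt w
      have h4 : HasDerivAt (fun t : ℝ => -Complex.I * (fderiv ℝ f (θ + t • w) v / f (θ + t • w)))
          (fderiv ℝ (fun θ => -Complex.I * (fderiv ℝ f θ v / f θ)) θ w) 0 :=
        hG.hasFDerivAt.hasLineDerivAt w
      have h5 := (h2.div h3 (by rw [zero_smul, add_zero]; exact hne θ)).const_mul (-Complex.I)
      have h6 := h4.unique h5
      rw [h6, zero_smul, add_zero]
    unfold dlogRow
    rw [key, key, fderiv_single_symm f hf]
    ring

theorem hasDerivAt_emb (γ : Torus d R) (f : R) (θ : Fin d → ℝ) (l : Fin d) :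
    HasDerivAt (fun s => γ.emb (update θ l s) f)
      (fderiv ℝ (fun θ => γ.emb θ f) θ (Pi.single l 1)) (θ l) := by
  have hd : DifferentiableAt ℝ (fun θ => γ.emb θ f) (update θ l (θ l)) :=
    (γ.contDiff f).differentiable (by norm_num) _
  have h := hd.hasFDerivAt.comp_hasDerivAt (θ l) (hasDerivAt_update θ l (θ l))
  rw [update_eq_self] at h
  exact h

theorem hasDerivAt_logNorm {z : ℝ → ℂ} {t : ℝ} {z' : ℂ} (hz : HasDerivAt z z' t) (h0 : z t ≠ 0) :
    HasDerivAt (fun s => Real.log ‖z s‖) (z' / z t).re t := by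
  have h1 : HasDerivAt (fun s => Complex.normSq (z s)) (2 * ((z t).re * z'.re + (z t).im * z'.im))
      t := by
    have hre : HasDerivAt (fun s => (z s).re) z'.re t :=
      Complex.reCLM.hasFDerivAt.comp_hasDerivAt t hz
    have him : HasDerivAt (fun s => (z s).im) z'.im t :=
      Complex.imCLM.hasFDerivAt.comp_hasDerivAt t hz
    have h := (hre.mul hre).add (him.mul him)
    refine h.congr_deriv ?_
    ring
  have hpos : Complex.normSq (z t) ≠ 0 := Complex.normSq_eq_zero.not.2 h0
  have h2 := (h1.log hpos).div_const 2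
  have h3 : (fun s => Real.log ‖z s‖) = fun s => Real.log (Complex.normSq (z s)) / 2 := by
    funext s
    rw [Complex.normSq_eq_norm_sq, Real.log_pow]
    push_cast
    ring
  rw [h3]
  refine h2.congr_deriv ?_
  rw [Complex.div_re]
  field_simp

/-- a function with the derivative of the Bloch-Wigner function along curves is continuous -/
theorem continuous_comp_bw {D : ℂ → ℝ} (hD : ∀ (z : ℝ → ℂ) (t : ℝ) (z' : ℂ),
    HasDerivAt z z' t → z t ≠ 0 → z t ≠ 1 →
    HasDerivAt (fun s => D (z s))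
      (Real.log ‖z t‖ * (-z' / (1 - z t)).im - Real.log ‖1 - z t‖ * (z' / z t).im) t)
    (f : (Fin d → ℝ) → ℂ) (hf : ContDiff ℝ 2 f) (h0 : ∀ θ, f θ ≠ 0) (h1 : ∀ θ, f θ ≠ 1) :
    Continuous fun θ => D (f θ) := by
  have h1' : ∀ θ, 1 - f θ ≠ 0 := fun θ h => h1 θ (sub_eq_zero.1 h).symm
  have hfc : Continuous f := hf.continuous
  have hfd : Continuous fun θ => ‖fderiv ℝ f θ‖ := (hf.continuous_fderiv (by norm_num)).norm
  have hK : Continuous fun θ => |Real.log ‖f θ‖| * (‖fderiv ℝ f θ‖ / ‖1 - f θ‖) +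
      |Real.log ‖1 - f θ‖| * (‖fderiv ℝ f θ‖ / ‖f θ‖) := by
    have a1 : Continuous fun θ => Real.log ‖f θ‖ :=
      Continuous.log hfc.norm fun θ => norm_ne_zero_iff.2 (h0 θ)
    have a2 : Continuous fun θ => Real.log ‖1 - f θ‖ :=
      Continuous.log (continuous_const.sub hfc).norm fun θ => norm_ne_zero_iff.2 (h1' θ)
    exact (a1.abs.mul (hfd.div (continuous_const.sub hfc).norm
      fun θ => norm_ne_zero_iff.2 (h1' θ))).add (a2.abs.mul (hfd.div hfc.norm
      fun θ => norm_ne_zero_iff.2 (h0 θ)))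
  rw [continuous_iff_continuousAt]
  intro θ
  obtain ⟨C, hC⟩ := (isCompact_closedBall θ 1).exists_bound_of_continuousOn hK.continuousOn
  have hlip : ∀ η ∈ Metric.closedBall θ 1, ‖D (f η) - D (f θ)‖ ≤ C * ‖η - θ‖ := by
    intro η hη
    have hseg : ∀ t ∈ Set.Icc (0 : ℝ) 1, θ + t • (η - θ) ∈ Metric.closedBall θ 1 := by
      intro t ht
      rw [Metric.mem_closedBall, dist_eq_norm] at hη ⊢
      rw [add_sub_cancel_left, norm_smul, Real.norm_of_nonneg ht.1]
      exact (mul_le_mul ht.2 hη (norm_nonneg _) zero_le_one).trans_eq (one_mul 1)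
    have hder : ∀ t : ℝ, HasDerivAt (fun t : ℝ => f (θ + t • (η - θ)))
        (fderiv ℝ f (θ + t • (η - θ)) (η - θ)) t := by
      intro t
      have hd : DifferentiableAt ℝ f (θ + t • (η - θ)) := hf.differentiable (by norm_num) _
      have hline : HasDerivAt (fun t : ℝ => θ + t • (η - θ)) (η - θ) t := by
        have := ((hasDerivAt_id t).smul_const (η - θ)).const_add θ
        rwa [one_smul] at this
      exact hd.hasFDerivAt.comp_hasDerivAt t hline
    have key := norm_image_sub_le_of_norm_deriv_le_segment_01'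
      (f := fun t : ℝ => D (f (θ + t • (η - θ)))) (C := C * ‖η - θ‖)
      (fun t ht => (hD _ t _ (hder t) (h0 _) (h1 _)).hasDerivWithinAt) (fun t ht => by
        have hb := hC _ (hseg t ⟨ht.1, ht.2.le⟩)
        set x := θ + t • (η - θ) with hx
        rw [Real.norm_of_nonneg (by positivity)] at hb
        have hn : ‖fderiv ℝ f x (η - θ)‖ ≤ ‖fderiv ℝ f x‖ * ‖η - θ‖ :=
          ContinuousLinearMap.le_opNorm _ _
        have g1 : |(-fderiv ℝ f x (η - θ) / (1 - f x)).im| ≤
            ‖fderiv ℝ f x‖ / ‖1 - f x‖ * ‖η - θ‖ := by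
          refine (Complex.abs_im_le_norm _).trans ?_
          rw [norm_div, norm_neg, div_mul_eq_mul_div]
          exact div_le_div_of_nonneg_right hn (norm_nonneg _)
        have g2 : |(fderiv ℝ f x (η - θ) / f x).im| ≤ ‖fderiv ℝ f x‖ / ‖f x‖ * ‖η - θ‖ := by
          refine (Complex.abs_im_le_norm _).trans ?_
          rw [norm_div, div_mul_eq_mul_div]
          exact div_le_div_of_nonneg_right hn (norm_nonneg _)
        calc ‖Real.log ‖f x‖ * (-fderiv ℝ f x (η - θ) / (1 - f x)).im -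
              Real.log ‖1 - f x‖ * (fderiv ℝ f x (η - θ) / f x).im‖
            ≤ |Real.log ‖f x‖| * |(-fderiv ℝ f x (η - θ) / (1 - f x)).im| +
              |Real.log ‖1 - f x‖| * |(fderiv ℝ f x (η - θ) / f x).im| := by
              rw [← abs_mul, ← abs_mul]
              exact norm_sub_le _ _
          _ ≤ |Real.log ‖f x‖| * (‖fderiv ℝ f x‖ / ‖1 - f x‖ * ‖η - θ‖) +
              |Real.log ‖1 - f x‖| * (‖fderiv ℝ f x‖ / ‖f x‖ * ‖η - θ‖) :=
              add_le_add (mul_le_mul_of_nonneg_left g1 (abs_nonneg _))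
                (mul_le_mul_of_nonneg_left g2 (abs_nonneg _))
          _ = (|Real.log ‖f x‖| * (‖fderiv ℝ f x‖ / ‖1 - f x‖) +
              |Real.log ‖1 - f x‖| * (‖fderiv ℝ f x‖ / ‖f x‖)) * ‖η - θ‖ := by ring
          _ ≤ C * ‖η - θ‖ := mul_le_mul_of_nonneg_right hb (norm_nonneg _))
    simpa using key
  rw [ContinuousAt, tendsto_iff_norm_sub_tendsto_zero]
  have hlim : Filter.Tendsto (fun η => C * ‖η - θ‖) (nhds θ) (nhds 0) := by
    have : Continuous fun η : Fin d → ℝ => C * ‖η - θ‖ := by fun_prop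
    have h := this.tendsto θ
    simpa using h
  refine squeeze_zero' (Filter.Eventually.of_forall fun η => norm_nonneg _) ?_ hlim
  filter_upwards [Metric.closedBall_mem_nhds θ one_pos] with η hη
  exact hlip η hη

/-- the entry of a unit -/
def entry (γ : Torus d R) (a : Rˣ) : Entry d where
  u := fun θ => Real.log ‖γ.emb θ (a : R)‖
  c := dlogForm γ a
  cont := logNorm_continuous γ a
  der := fun θ l => by
    have h := hasDerivAt_logNorm (hasDerivAt_emb γ (a : R) θ l) (by
      rw [update_eq_self]; exact emb_ne_zero γ a θ)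
    refine h.congr_deriv ?_
    rw [update_eq_self]
    show _ = -(dlogRow γ a θ l).im
    unfold dlogRow
    rw [neg_mul, Complex.neg_im, Complex.I_mul_im, neg_neg]
  per := fun θ l => by rw [γ.periodic]

theorem stPair (γ : Torus d R) (a b : Rˣ) (hab : (a : R) + (b : R) = 1) :
    StPair (entry γ a) (entry γ b) := by
  have hb : ∀ θ, γ.emb θ (b : R) = 1 - γ.emb θ (a : R) := by
    intro θ
    have h : (b : R) = 1 - a := by rw [← hab]; ring
    rw [h, map_sub, map_one]
  have hfd : ∀ θ l, fderiv ℝ (fun θ => γ.emb θ (b : R)) θ (Pi.single l 1) =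
      -fderiv ℝ (fun θ => γ.emb θ (a : R)) θ (Pi.single l 1) := by
    intro θ l
    have h1 : (fun θ => γ.emb θ (b : R)) = fun θ => 1 - γ.emb θ (a : R) := by
      funext θ; exact hb θ
    rw [h1, fderiv_const_sub]
    rfl
  have hne1 : ∀ θ, γ.emb θ (a : R) ≠ 1 := by
    intro θ h
    apply emb_ne_zero γ b θ
    rw [hb, h, sub_self]
  refine ⟨fun θ => ⟨-(γ.emb θ (a : R) / γ.emb θ (b : R)), ?_⟩, ?_⟩
  · funext l
    show dlogRow γ b θ l = -(γ.emb θ (a : R) / γ.emb θ (b : R)) * dlogRow γ a θ l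
    unfold dlogRow
    rw [hfd]
    have ha := emb_ne_zero γ a θ
    have hb' := emb_ne_zero γ b θ
    field_simp
  · obtain ⟨D, hD⟩ := P4a177b.exists_blochWigner
    have hder : ∀ θ l, HasDerivAt (fun s => D (γ.emb (update θ l s) (a : R)))
        ((entry γ a).u θ * ((entry γ b).c.toFun θ l).re -
          (entry γ b).u θ * ((entry γ a).c.toFun θ l).re) (θ l) := by
      intro θ l
      have h := hD _ _ _ (hasDerivAt_emb γ (a : R) θ l) (emb_ne_zero γ a _) (hne1 _)
      refine h.congr_deriv ?_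
      rw [update_eq_self]
      show _ = Real.log ‖γ.emb θ (a : R)‖ * (dlogRow γ b θ l).re -
        Real.log ‖γ.emb θ (b : R)‖ * (dlogRow γ a θ l).re
      unfold dlogRow
      have hI : ∀ z : ℂ, (-Complex.I * z).re = z.im := by
        intro z
        rw [neg_mul, Complex.neg_re, Complex.I_mul_re, neg_neg]
      rw [hI, hI, hfd, hb]
    refine ⟨fun θ => D (γ.emb θ (a : R)), ?_, hder, fun θ l => by
      show D (γ.emb _ (a : R)) = D (γ.emb _ (a : R))
      rw [γ.periodic]⟩
    exact continuous_comp_bw hD (fun θ => γ.emb θ (a : R)) (γ.contDiff _) (emb_ne_zero γ a) hne1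

end

end P4a177h
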