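import Pool.Agent.Lib.P4a177h.Forms

/-!
# MODULE BLcore: the integral of `dξ ∧ (closed forms)` over the torus vanishes

PROOF SKETCH. (1) `integral_partial`: for a continuous function `G` which is the partial derivative
in the coordinate `l` of a function `F` of period `2π` in this coordinate, `∫_{box} G = 0`: then
`d = d' + 1`; Fubini with `MeasureTheory.volume_preserving_piFinSuccAbove` (see
`Mathlib/MeasureTheory/Integral/TorusIntegral.lean`, where the same splitting is used) and
`intervalIntegral.integral_eq_sub_of_hasDerivAt` in the coordinate `l`. (The set `box d` is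
`Set.pi univ (fun _ => Icc 0 (2π))`, `Set.pi_univ_Icc`.)
(2) `det_exact`. Expand the determinant (`Matrix.det_apply`, or its transpose):
`det = ∑_σ sgn σ ξ'_{σ p} ∏_{i ≠ p} ω_{i, σ i}`. For fixed `σ` apply (1) to
`F = ξ * ∏_{i ≠ p} ω_{i, σ i}` in the coordinate `σ p`:
`∫ ξ'_{σ p} ∏_{i ≠ p} ω_{i, σ i} = - ∑_{q ≠ p} ∫ ξ * ∂_{σ p} ω_{q, σ q} * ∏_{i ≠ p, q} ω_{i, σ i}`.
Multiply by `sgn σ` and sum over `σ`: for fixed `q ≠ p` the terms of `σ` and `σ * swap p q` cancel
because `∂_{σ p} ω_{q, σ q} = ∂_{σ q} ω_{q, σ p}` (`CForm.closed`): use `Finset.sum_involution` or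
`Equiv.sum_comp` with `Equiv.mulRight (swap p q)` (sum = - sum). All the integrands are continuous
(`CForm.smooth`), hence integrable on the compact box.
-/

set_option autoImplicit false

namespace P4a177h

open Function MeasureTheory
open scoped Real

variable {d : ℕ}

theorem integral_partial (F G : (Fin d → ℝ) → ℂ) (l : Fin d) (hG : Continuous G)
    (hF : ∀ θ, HasDerivAt (fun s => F (update θ l s)) (G θ) (θ l))
    (hper : ∀ θ, F (update θ l (θ l + 2 * π)) = F θ) : ∫ θ in box d, G θ = 0 := by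
  obtain _ | n := d
  · exact l.elim0
  set e : ℝ × (Fin n → ℝ) ≃ᵐ (Fin (n + 1) → ℝ) :=
    (MeasurableEquiv.piFinSuccAbove (fun _ => ℝ) l).symm with he
  have hem : MeasurePreserving e :=
    (volume_preserving_piFinSuccAbove (fun _ : Fin (n + 1) => ℝ) l).symm _
  have heπ : (e ⁻¹' Set.Icc 0 fun _ => 2 * π) = Set.Icc 0 (2 * π) ×ˢ Set.Icc (0 : Fin n → ℝ) fun _ => 2 * π :=
    ((Fin.insertNthOrderIso (fun _ => ℝ) l).preimage_Icc _ _).trans (Set.Icc_prod_eq _ _)
  have hecont : Continuous fun z : ℝ × (Fin n → ℝ) =>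
      (l.insertNth z.1 z.2 : Fin (n + 1) → ℝ) := by
    refine continuous_pi fun i => ?_
    refine l.succAboveCases ?_ (fun j => ?_) i
    · simpa using continuous_fst
    · have h1 : Continuous fun a : ℝ × (Fin n → ℝ) => a.2 j :=
        (continuous_apply j).comp continuous_snd
      simpa using h1
  have hea : ∀ z, e z = (l.insertNth z.1 z.2 : Fin (n + 1) → ℝ) := fun z => rfl
  have hcont : Continuous fun z => G (e z) := by
    simp only [hea]
    exact hG.comp hecont
  have hint : IntegrableOn (fun z => G (e z))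
      (Set.Icc 0 (2 * π) ×ˢ Set.Icc (0 : Fin n → ℝ) fun _ => 2 * π) (volume.prod volume) := by
    rw [← Measure.volume_eq_prod]
    exact hcont.continuousOn.integrableOn_compact (isCompact_Icc.prod isCompact_Icc)
  rw [IntegrableOn, ← Measure.prod_restrict] at hint
  rw [box, ← hem.map_eq, setIntegral_map_equiv, heπ, Measure.volume_eq_prod,
    ← Measure.prod_restrict, integral_prod_symm _ hint]
  have hinner : ∀ y : Fin n → ℝ, ∫ x in Set.Icc 0 (2 * π), G (e (x, y)) = 0 := by
    intro y
    rw [integral_Icc_eq_integral_Ioc, ← intervalIntegral.integral_of_le Real.two_pi_pos.le]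
    have hd : ∀ x ∈ Set.uIcc (0 : ℝ) (2 * π),
        HasDerivAt (fun s => F (l.insertNth s y)) (G (e (x, y))) x := by
      intro x _
      have h := hF (l.insertNth x y)
      simp only [Fin.update_insertNth, Fin.insertNth_apply_same] at h
      exact h
    have hc : Continuous fun x : ℝ => G (e (x, y)) :=
      hcont.comp (continuous_id.prodMk continuous_const)
    rw [intervalIntegral.integral_eq_sub_of_hasDerivAt hd (hc.intervalIntegrable _ _)]
    have h := hper (l.insertNth 0 y)
    simp only [Fin.update_insertNth, Fin.insertNth_apply_same, zero_add] at h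
    rw [h, sub_self]
  simp only [hinner, integral_zero]

theorem blcore_cform_deriv (ω : CForm d) (θ : Fin d → ℝ) (l j : Fin d) :
    HasDerivAt (fun s => ω.toFun (update θ l s) j)
      (fderiv ℝ (fun θ => ω.toFun θ j) θ (Pi.single l 1)) (θ l) := by
  have h1 : HasFDerivAt (fun θ => ω.toFun θ j) (fderiv ℝ (fun θ => ω.toFun θ j) θ)
      (update θ l (θ l)) := by
    rw [update_eq_self]
    exact ((ω.smooth j).differentiable one_ne_zero θ).hasFDerivAt
  exact h1.comp_hasDerivAt (θ l) (hasDerivAt_update θ l (θ l))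

theorem det_exact (p : Fin d) (ω : Fin d → CForm d) (ξ : (Fin d → ℝ) → ℝ)
    (ξ' : (Fin d → ℝ) → Fin d → ℝ) (hξ : Continuous ξ) (hξ' : ∀ l, Continuous fun θ => ξ' θ l)
    (hder : ∀ θ l, HasDerivAt (fun s => ξ (update θ l s)) (ξ' θ l) (θ l))
    (hper : ∀ θ l, ξ (update θ l (θ l + 2 * π)) = ξ θ) :
    ∫ θ in box d, (Matrix.of fun i l => if i = p then (ξ' θ l : ℂ) else
      (ω i).toFun θ l : Matrix (Fin d) (Fin d) ℂ).det = 0 := by
  classical
  set D : Fin d → Fin d → Fin d → (Fin d → ℝ) → ℂ := fun q j l θ =>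
    fderiv ℝ (fun θ => (ω q).toFun θ j) θ (Pi.single l 1) with hD
  set G : Equiv.Perm (Fin d) → (Fin d → ℝ) → ℂ := fun σ θ =>
    (ξ' θ (σ p) : ℂ) * (∏ i ∈ Finset.univ.erase p, (ω i).toFun θ (σ i)) +
      (ξ θ : ℂ) * ∑ q ∈ Finset.univ.erase p,
        (∏ i ∈ (Finset.univ.erase p).erase q, (ω i).toFun θ (σ i)) * D q (σ q) (σ p) θ with hG
  have hωc : ∀ i j, Continuous fun θ => (ω i).toFun θ j := fun i j => ((ω i).smooth j).continuous
  have hDc : ∀ q j l, Continuous (D q j l) := by
    intro q j l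
    exact (((ω q).smooth j).continuous_fderiv one_ne_zero).clm_apply continuous_const
  have hGc : ∀ σ, Continuous (G σ) := by
    intro σ
    refine Continuous.add ?_ ?_
    · exact (Complex.continuous_ofReal.comp (hξ' (σ p))).mul
        (continuous_finsetProd _ fun i _ => hωc i (σ i))
    · exact (Complex.continuous_ofReal.comp hξ).mul (continuous_finsetSum _ fun q _ =>
        (continuous_finsetProd _ fun i _ => hωc i (σ i)).mul (hDc q (σ q) (σ p)))
  have hGint : ∀ σ, ∫ θ in box d, G σ θ = 0 := by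
    intro σ
    refine integral_partial (fun θ => (ξ θ : ℂ) *
      ∏ i ∈ Finset.univ.erase p, (ω i).toFun θ (σ i)) (G σ) (σ p) (hGc σ) ?_ ?_
    · intro θ
      have h1 : HasDerivAt (fun s => (ξ (update θ (σ p) s) : ℂ)) (ξ' θ (σ p) : ℂ) (θ (σ p)) :=
        (hder θ (σ p)).ofReal_comp
      have h2 : HasDerivAt (fun s => ∏ i ∈ Finset.univ.erase p,
          (ω i).toFun (update θ (σ p) s) (σ i))
          (∑ q ∈ Finset.univ.erase p, (∏ i ∈ (Finset.univ.erase p).erase q,
            (ω i).toFun (update θ (σ p) (θ (σ p))) (σ i)) • D q (σ q) (σ p) θ) (θ (σ p)) :=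
        HasDerivAt.fun_finsetProd fun q _ => blcore_cform_deriv (ω q) θ (σ p) (σ q)
      have h3 := h1.mul h2
      simp only [update_eq_self, smul_eq_mul] at h3
      exact h3
    · intro θ
      simp only [hper, (ω _).periodic]
  have hpt : ∀ θ, (Matrix.of fun i l => if i = p then (ξ' θ l : ℂ) else
      (ω i).toFun θ l : Matrix (Fin d) (Fin d) ℂ).det =
      ∑ σ : Equiv.Perm (Fin d), ((Equiv.Perm.sign σ : ℤ) : ℂ) * G σ θ := by
    intro θ
    rw [← Matrix.det_transpose, Matrix.det_apply']
    have hz : ∀ q ∈ Finset.univ.erase p, ∑ σ : Equiv.Perm (Fin d),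
        ((Equiv.Perm.sign σ : ℤ) : ℂ) *
          ((∏ i ∈ (Finset.univ.erase p).erase q, (ω i).toFun θ (σ i)) *
            D q (σ q) (σ p) θ) = 0 := by
      intro q hq
      have hqp : q ≠ p := Finset.ne_of_mem_erase hq
      set S := ∑ σ : Equiv.Perm (Fin d), ((Equiv.Perm.sign σ : ℤ) : ℂ) *
          ((∏ i ∈ (Finset.univ.erase p).erase q, (ω i).toFun θ (σ i)) *
            D q (σ q) (σ p) θ) with hS
      have h1 : S = -S := by
        conv_lhs => rw [hS, ← Equiv.sum_comp (Equiv.mulRight (Equiv.swap p q))]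
        rw [hS, ← Finset.sum_neg_distrib]
        refine Finset.sum_congr rfl fun σ _ => ?_
        have hprod : ∏ i ∈ (Finset.univ.erase p).erase q,
            (ω i).toFun θ ((σ * Equiv.swap p q) i) =
            ∏ i ∈ (Finset.univ.erase p).erase q, (ω i).toFun θ (σ i) := by
          refine Finset.prod_congr rfl fun i hi => ?_
          have hi1 : i ≠ q := Finset.ne_of_mem_erase hi
          have hi2 : i ≠ p := Finset.ne_of_mem_erase (Finset.mem_of_mem_erase hi)
          rw [Equiv.Perm.mul_apply, Equiv.swap_apply_of_ne_of_ne hi2 hi1]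
        have hcl : D q (σ p) (σ q) θ = D q (σ q) (σ p) θ := (ω q).closed θ (σ q) (σ p)
        simp only [Equiv.coe_mulRight]
        rw [hprod, Equiv.Perm.sign_mul, Equiv.Perm.sign_swap hqp.symm, Equiv.Perm.mul_apply,
          Equiv.Perm.mul_apply, Equiv.swap_apply_right, Equiv.swap_apply_left, hcl]
        push_cast
        ring
      have h2 : S + S = 0 := by
        nth_rewrite 1 [h1]
        ring
      exact add_self_eq_zero.mp h2
    have hsum : ∑ σ : Equiv.Perm (Fin d), ((Equiv.Perm.sign σ : ℤ) : ℂ) *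
        ((ξ θ : ℂ) * ∑ q ∈ Finset.univ.erase p,
          (∏ i ∈ (Finset.univ.erase p).erase q, (ω i).toFun θ (σ i)) *
            D q (σ q) (σ p) θ) = 0 := by
      have : ∀ σ : Equiv.Perm (Fin d), ((Equiv.Perm.sign σ : ℤ) : ℂ) *
        ((ξ θ : ℂ) * ∑ q ∈ Finset.univ.erase p,
          (∏ i ∈ (Finset.univ.erase p).erase q, (ω i).toFun θ (σ i)) *
            D q (σ q) (σ p) θ) = ∑ q ∈ Finset.univ.erase p, (ξ θ : ℂ) *
          (((Equiv.Perm.sign σ : ℤ) : ℂ) *
          ((∏ i ∈ (Finset.univ.erase p).erase q, (ω i).toFun θ (σ i)) *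
            D q (σ q) (σ p) θ)) := by
        intro σ
        rw [Finset.mul_sum, Finset.mul_sum]
        refine Finset.sum_congr rfl fun q _ => ?_
        ring
      rw [Finset.sum_congr rfl fun σ _ => this σ, Finset.sum_comm]
      refine Finset.sum_eq_zero fun q hq => ?_
      rw [← Finset.mul_sum, hz q hq, mul_zero]
    have hsplit : ∑ σ : Equiv.Perm (Fin d), ((Equiv.Perm.sign σ : ℤ) : ℂ) * G σ θ =
        ∑ σ : Equiv.Perm (Fin d), ((Equiv.Perm.sign σ : ℤ) : ℂ) *
          ((ξ' θ (σ p) : ℂ) * (∏ i ∈ Finset.univ.erase p, (ω i).toFun θ (σ i))) := by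
      simp only [hG, mul_add, Finset.sum_add_distrib]
      rw [hsum, add_zero]
    rw [hsplit]
    refine Finset.sum_congr rfl fun σ _ => ?_
    congr 1
    rw [← Finset.mul_prod_erase Finset.univ _ (Finset.mem_univ p)]
    congr 1
    · simp
    · refine Finset.prod_congr rfl fun i hi => ?_
      simp [Finset.ne_of_mem_erase hi]
  simp only [hpt]
  have hintg : ∀ σ, IntegrableOn (fun θ => ((Equiv.Perm.sign σ : ℤ) : ℂ) * G σ θ) (box d) :=
    fun σ => (continuous_const.mul (hGc σ)).continuousOn.integrableOn_compact isCompact_Icc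
  rw [integral_finsetSum _ fun σ _ => hintg σ]
  refine Finset.sum_eq_zero fun σ _ => ?_
  rw [integral_const_mul, hGint, mul_zero]

end P4a177h
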