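import Pool.Agent.Lib.P4a177h.UnitEntry

/-!
# The regulator homomorphism on Milnor K-theory
-/

set_option autoImplicit false

namespace P4a177h

open Function MeasureTheory ExteriorAlgebra
open scoped Real

noncomputable section

variable {d : ℕ} {R : Type*} [CommRing R]

theorem WW_eq_sum (L : List (Entry d)) (θ : Fin d → ℝ) :
    WW L θ = ∑ k : Fin L.length, ((-1 : ℂ) ^ (k : ℕ) * (L.get k).u θ) •
      (wf ((L.take k).map fun e => e.c.re) θ * CC (L.drop (k + 1)) θ) := by
  induction L with
  | nil => simp [WW]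
  | cons e L ih =>
    rw [WW_cons, ih]
    have h := Fin.sum_univ_succ (n := L.length) (fun k : Fin (L.length + 1) =>
      ((-1 : ℂ) ^ (k : ℕ) * ((e :: L).get k).u θ) •
      (wf (((e :: L).take k).map fun e => e.c.re) θ * CC ((e :: L).drop (k + 1)) θ))
    refine Eq.trans ?_ h.symm
    rw [Finset.mul_sum, sub_eq_add_neg, ← Finset.sum_neg_distrib]
    congr 1
    · simp [wf_nil]
    · refine Finset.sum_congr rfl fun k _ => ?_
      rw [Fin.val_succ, List.take_succ_cons, List.map_cons, wf_cons, List.drop_succ_cons,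
        pow_succ, List.get_cons_succ', mul_smul_comm, mul_assoc (ι ℂ _), mul_neg_one, neg_mul,
        neg_smul]

/-- the exterior algebra form of the regulator form -/
theorem regForm_eq (γ : Torus d R) (a : Fin (d + 1) → Rˣ) (θ : Fin d → ℝ) :
    regForm γ a θ = (top d (WW (List.ofFn fun i => entry γ (a i)) θ)).re := by
  set L := List.ofFn fun i => entry γ (a i) with hL
  have hlen : L.length = d + 1 := by simp [hL]
  rw [WW_eq_sum, map_sum, Complex.re_sum]
  unfold regForm
  have hbij : ∀ F : ℕ → ℝ, ∑ k : Fin L.length, F k = ∑ k : Fin (d + 1), F k := by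
    intro F
    rw [Fin.sum_univ_eq_sum_range, Fin.sum_univ_eq_sum_range, hlen]
  have key : ∀ (k : ℕ) (hk : k < d + 1) (hk' : k < L.length),
      (top d (((-1 : ℂ) ^ k * (L.get ⟨k, hk'⟩).u θ) •
      (wf ((L.take k).map fun e => e.c.re) θ * CC (L.drop (k + 1)) θ))).re =
      (-1) ^ k * Real.log ‖γ.emb θ (a ⟨k, hk⟩ : R)‖ * (regMatrix γ a ⟨k, hk⟩ θ).det.re := by
    intro k hk hk'
    have h1 : (L.get ⟨k, hk'⟩).u θ = Real.log ‖γ.emb θ (a ⟨k, hk⟩ : R)‖ := by
      simp only [hL, List.get_eq_getElem, List.getElem_ofFn]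
      rfl
    have h2 : wf ((L.take k).map fun e => e.c.re) θ * CC (L.drop (k + 1)) θ =
        wdg (List.ofFn fun i : Fin d => (regMatrix γ a ⟨k, hk⟩ θ) i) := by
      unfold wf CC wf
      rw [← wdg_append]
      congr 1
      apply List.ext_getElem
      · simp [hlen]
        omega
      · intro i hi1 hi2
        have hid : i < d := by simpa using hi2
        rw [List.getElem_ofFn]
        funext l
        show _ = (if i < k then ((dlogRow γ (a (Fin.succAbove ⟨k, hk⟩ ⟨i, hid⟩)) θ l).re : ℂ)
          else dlogRow γ (a (Fin.succAbove ⟨k, hk⟩ ⟨i, hid⟩)) θ l)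
        by_cases hik : i < k
        · rw [if_pos hik, List.getElem_append_left (by simp [hlen]; omega)]
          simp only [List.getElem_map, List.getElem_take, hL, List.getElem_ofFn]
          have : Fin.succAbove (⟨k, hk⟩ : Fin (d + 1)) ⟨i, hid⟩ = ⟨i, by omega⟩ := by
            rw [Fin.succAbove_of_castSucc_lt _ _ (by simpa [Fin.lt_def] using hik)]
            rfl
          rw [this]
          rfl
        · rw [if_neg hik, List.getElem_append_right (by simp [hlen]; omega)]
          simp only [List.getElem_map, List.getElem_drop, hL, List.getElem_ofFn, List.length_map,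
            List.length_take, List.length_ofFn]
          have : Fin.succAbove (⟨k, hk⟩ : Fin (d + 1)) ⟨i, hid⟩ = ⟨i + 1, by omega⟩ := by
            rw [Fin.succAbove_of_le_castSucc _ _ (by simpa [Fin.le_def] using hik)]
            rfl
          rw [this]
          have h3 : k + 1 + (i - min k (d + 1)) = i + 1 := by omega
          simp only [h3]
          rfl
    rw [h1, h2, map_smul, top_ofFn, smul_eq_mul]
    have : ((-1 : ℂ) ^ k * (Real.log ‖γ.emb θ (a ⟨k, hk⟩ : R)‖ : ℂ)) =
        (((-1) ^ k * Real.log ‖γ.emb θ (a ⟨k, hk⟩ : R)‖ : ℝ) : ℂ) := by push_cast; ring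
    rw [this, Complex.re_ofReal_mul]
    rfl
  have e := hbij fun k => if hk : k < d + 1 then
    (-1) ^ k * Real.log ‖γ.emb θ (a ⟨k, hk⟩ : R)‖ * (regMatrix γ a ⟨k, hk⟩ θ).det.re else 0
  refine (Eq.trans ?_ (e.symm.trans ?_))
  · refine Finset.sum_congr rfl fun k _ => ?_
    rw [dif_pos k.2]
  · refine Finset.sum_congr rfl fun k _ => ?_
    have hk : (k : ℕ) < d + 1 := by rw [← hlen]; exact k.2
    rw [dif_pos hk, ← key k hk k.2]

theorem regFun_eq (γ : Torus d R) (a : Fin (d + 1) → Rˣ) :
    regFun γ a = (∫ θ in box d, top d (WW (List.ofFn fun i => entry γ (a i)) θ)).re := by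
  have hc : Continuous fun θ => top d (WW (List.ofFn fun i => entry γ (a i)) θ) := by
    have := top_WW_continuous (List.ofFn fun i => entry γ (a i)) []
    simpa [wf_nil] using this
  rw [re_integral_eq _ hc]
  unfold regFun
  congr 1
  funext θ
  exact regForm_eq γ a θ

/-- **The Steinberg relation for the regulator integral.** -/
theorem regFun_steinberg (γ : Torus d R) (a : Fin (d + 1) → Rˣ) (i j : Fin (d + 1))
    (hij : (i : ℕ) + 1 = j) (h : (a i : R) + (a j : R) = 1) : regFun γ a = 0 := by
  rw [regFun_eq]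
  set L := List.ofFn fun i => entry γ (a i) with hL
  have hlen : L.length = d + 1 := by simp [hL]
  have hi : (i : ℕ) < L.length := by rw [hlen]; exact i.2
  have hj : (i : ℕ) + 1 < L.length := by rw [hlen, hij]; exact j.2
  have hsplit : L = L.take i ++ entry γ (a i) :: entry γ (a j) :: L.drop (i + 2) := by
    conv_lhs => rw [← List.take_append_drop i L]
    congr 1
    rw [List.drop_eq_getElem_cons hi, List.drop_eq_getElem_cons hj]
    congr 1
    · simp only [hL, List.getElem_ofFn]
    · congr 1
      simp only [hL, List.getElem_ofFn]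
      congr 2
      exact Fin.ext hij
  rw [hsplit]
  have := integral_steinberg (stPair γ (a i) (a j) h) (L.drop (i + 2)) (L.take i) []
    (by simp)
  simpa [wf_nil] using this

/-- **The regulator of a torus**: a homomorphism on the Milnor K-group. -/
def reg (γ : Torus d R) : MilnorK (d + 1) R →+ ℝ :=
  lift (regFun γ) (regFun_mul γ) (regFun_steinberg γ)

theorem reg_symb (γ : Torus d R) (a : Fin (d + 1) → Rˣ) : reg γ (symb a) = regFun γ a :=
  lift_symb _ _ _ a

end

end P4a177h
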