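import Pool.Agent.Lib.P4a177h.Milnor

/-!
# Tori in the complex points of a ring, the regulator integral, and the family of hypersurfaces
-/

set_option autoImplicit false

namespace P4a177h

open Function MeasureTheory
open scoped Real

noncomputable section

/-- A `d`-dimensional torus in the complex points of the ring `R`: a family of ring homomorphisms
`R → ℂ`, depending on `θ ∈ ℝ^d`, twice continuously differentiable and periodic of period `2π` in
every coordinate of `θ`. -/
structure Torus (d : ℕ) (R : Type*) [CommRing R] where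
  /-- the point of the torus with parameter `θ` -/
  emb : (Fin d → ℝ) → R →+* ℂ
  /-- every function of `R` is `C²` on the torus -/
  contDiff : ∀ f : R, ContDiff ℝ 2 fun θ => emb θ f
  /-- periodicity -/
  periodic : ∀ (f : R) (θ : Fin d → ℝ) (l : Fin d),
    emb (update θ l (θ l + 2 * π)) f = emb θ f

variable {d : ℕ} {R : Type*} [CommRing R]

/-- The differential form `-i dlog a = d arg a - i dlog |a|` on the torus, for a unit `a`. -/
def dlogRow (γ : Torus d R) (a : Rˣ) (θ : Fin d → ℝ) : Fin d → ℂ := fun l =>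
  -Complex.I * (fderiv ℝ (fun θ => γ.emb θ (a : R)) θ (Pi.single l 1) / γ.emb θ (a : R))

/-- The rows `d arg a_j` for `j < k` and `-i dlog a_j` for `j > k`. -/
def regMatrix (γ : Torus d R) (a : Fin (d + 1) → Rˣ) (k : Fin (d + 1)) (θ : Fin d → ℝ) :
    Matrix (Fin d) (Fin d) ℂ :=
  Matrix.of fun i l => if (i : ℕ) < k then ((dlogRow γ (a (k.succAbove i)) θ l).re : ℂ)
    else dlogRow γ (a (k.succAbove i)) θ l

/-- The regulator form
`∑_k (-1)^k log|a_k| Re (d arg a_0 ∧ … ∧ d arg a_{k-1} ∧ (-i dlog a_{k+1}) ∧ … ∧ (-i dlog a_d))`. -/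
def regForm (γ : Torus d R) (a : Fin (d + 1) → Rˣ) (θ : Fin d → ℝ) : ℝ :=
  ∑ k : Fin (d + 1), (-1) ^ (k : ℕ) * Real.log ‖γ.emb θ (a k : R)‖ * (regMatrix γ a k θ).det.re

/-- The fundamental box. -/
def box (d : ℕ) : Set (Fin d → ℝ) := Set.Icc 0 fun _ => 2 * π

/-- The integral of the regulator form over the torus. -/
def regFun (γ : Torus d R) (a : Fin (d + 1) → Rˣ) : ℝ := ∫ θ in box d, regForm γ a θ

/-- `d + 2` lists of distinct integers `a_{s,0}, …, a_{s,m_s}`. -/
structure Fam (d : ℕ) where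
  /-- the degree in the variable `x_s` is `m s + 1` -/
  m : Fin (d + 2) → ℕ
  /-- the roots -/
  a : (s : Fin (d + 2)) → Fin (m s + 1) → ℤ
  inj : ∀ s, Injective (a s)

variable (A : Fam d)

/-- The equation `N * ∏_s ∏_i (x_s - a_{s,i}) - 1`. -/
def Fam.eqn (N : ℕ) : MvPolynomial (Fin (d + 2)) ℚ :=
  (N : MvPolynomial (Fin (d + 2)) ℚ) *
    ∏ s, ∏ i, (MvPolynomial.X s - MvPolynomial.C (A.a s i : ℚ)) - 1

/-- The coordinate ring of the affine hypersurface `N * ∏_s ∏_i (x_s - a_{s,i}) = 1` over `ℚ`. -/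
abbrev Fam.CoordRing (N : ℕ) : Type := MvPolynomial (Fin (d + 2)) ℚ ⧸ Ideal.span {A.eqn N}

/-- The function `x_s - a_{s,i}`. -/
def Fam.lin (N : ℕ) (s : Fin (d + 2)) (i : Fin (A.m s + 1)) : A.CoordRing N :=
  Ideal.Quotient.mk _ (MvPolynomial.X s - MvPolynomial.C (A.a s i : ℚ))

end

end P4a177h
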