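import Pool.Agent.Lib.P4a177h.Exact

/-!
# The regulator form of a list of functions, in the exterior algebra
-/

set_option autoImplicit false

namespace P4a177h

open Function MeasureTheory ExteriorAlgebra
open scoped Real

noncomputable section

variable {d : ℕ}

theorem fderiv_re {E : Type*} [NormedAddCommGroup E] [NormedSpace ℝ E] (f : E → ℂ) (x v : E)
    (hf : DifferentiableAt ℝ f x) :
    fderiv ℝ (fun y => ((f y).re : ℂ)) x v = ((fderiv ℝ f x v).re : ℂ) := by
  have h := (Complex.ofRealCLM.comp Complex.reCLM).hasFDerivAt.comp x hf.hasFDerivAt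
  have h2 : HasFDerivAt (fun y => ((f y).re : ℂ))
    ((Complex.ofRealCLM.comp Complex.reCLM).comp (fderiv ℝ f x)) x := h
  rw [h2.fderiv]
  rfl

theorem fderiv_im {E : Type*} [NormedAddCommGroup E] [NormedSpace ℝ E] (f : E → ℂ) (x v : E)
    (hf : DifferentiableAt ℝ f x) :
    fderiv ℝ (fun y => ((f y).im : ℂ)) x v = ((fderiv ℝ f x v).im : ℂ) := by
  have h := (Complex.ofRealCLM.comp Complex.imCLM).hasFDerivAt.comp x hf.hasFDerivAt
  have h2 : HasFDerivAt (fun y => ((f y).im : ℂ))
    ((Complex.ofRealCLM.comp Complex.imCLM).comp (fderiv ℝ f x)) x := h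
  rw [h2.fderiv]
  rfl

/-- the real part of a closed form -/
def CForm.re (ω : CForm d) : CForm d where
  toFun := fun θ l => ((ω.toFun θ l).re : ℂ)
  smooth := fun i =>
    (Complex.ofRealCLM.contDiff.comp Complex.reCLM.contDiff).comp (ω.smooth i)
  periodic := fun θ l i => by rw [ω.periodic]
  closed := fun θ i j => by
    have hd : ∀ k, DifferentiableAt ℝ (fun θ => ω.toFun θ k) θ := fun k =>
      (ω.smooth k).differentiable (by norm_num) θ
    rw [fderiv_re _ _ _ (hd j), fderiv_re _ _ _ (hd i), ω.closed]

/-- the imaginary part of a closed form -/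
def CForm.im (ω : CForm d) : CForm d where
  toFun := fun θ l => ((ω.toFun θ l).im : ℂ)
  smooth := fun i =>
    (Complex.ofRealCLM.contDiff.comp Complex.imCLM.contDiff).comp (ω.smooth i)
  periodic := fun θ l i => by rw [ω.periodic]
  closed := fun θ i j => by
    have hd : ∀ k, DifferentiableAt ℝ (fun θ => ω.toFun θ k) θ := fun k =>
      (ω.smooth k).differentiable (by norm_num) θ
    rw [fderiv_im _ _ _ (hd j), fderiv_im _ _ _ (hd i), ω.closed]

theorem CForm.re_add_im (ω : CForm d) (θ : Fin d → ℝ) :
    ω.toFun θ = ω.re.toFun θ + Complex.I • ω.im.toFun θ := by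
  funext l
  simp only [Pi.add_apply, Pi.smul_apply, smul_eq_mul, CForm.re, CForm.im]
  rw [mul_comm]
  exact (Complex.re_add_im _).symm

/-- a form is real -/
def CForm.IsReal (ω : CForm d) : Prop := ∀ θ l, (ω.toFun θ l).im = 0

theorem CForm.isReal_re (ω : CForm d) : ω.re.IsReal := fun _ _ => Complex.ofReal_im _

theorem CForm.isReal_im (ω : CForm d) : ω.im.IsReal := fun _ _ => Complex.ofReal_im _

theorem top_wf_real (G : List (CForm d)) (hG : ∀ ω ∈ G, ω.IsReal) (θ : Fin d → ℝ) :
    (top d (wf G θ)).im = 0 := by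
  have h : wf G θ = wdg ((G.map fun ω => fun l => (ω.toFun θ l).re).map rv) := by
    unfold wf
    congr 1
    rw [List.map_map]
    refine List.map_congr_left fun ω hω => ?_
    funext l
    simp only [comp_apply, rv]
    exact (Complex.ext (by simp) (by simp [hG ω hω θ l]))
  rw [h]
  exact top_real _

/-- A function `u` (the logarithm of an absolute value) and a closed form `c` with
`du = - Im c`. -/
structure Entry (d : ℕ) where
  /-- the logarithm of the absolute value -/
  u : (Fin d → ℝ) → ℝ
  /-- the form `- i dlog` -/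
  c : CForm d
  cont : Continuous u
  der : ∀ θ l, HasDerivAt (fun s => u (update θ l s)) (-(c.toFun θ l).im) (θ l)
  per : ∀ θ l, u (update θ l (θ l + 2 * π)) = u θ

/-- the product of the forms `- i dlog` -/
def CC (L : List (Entry d)) (θ : Fin d → ℝ) : Lam d := wf (L.map Entry.c) θ

/-- the (complex) regulator form -/
def WW : List (Entry d) → (Fin d → ℝ) → Lam d
  | [], _ => 0
  | e :: L, θ => (e.u θ : ℂ) • CC L θ - ι ℂ (e.c.re.toFun θ) * WW L θ

theorem CC_cons (e : Entry d) (L : List (Entry d)) (θ : Fin d → ℝ) :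
    CC (e :: L) θ = ι ℂ (e.c.toFun θ) * CC L θ := by
  unfold CC
  rw [List.map_cons, wf_cons]

theorem WW_cons (e : Entry d) (L : List (Entry d)) (θ : Fin d → ℝ) :
    WW (e :: L) θ = (e.u θ : ℂ) • CC L θ - ι ℂ (e.c.re.toFun θ) * WW L θ := rfl

/-- continuity of all the integrands -/
theorem top_WW_continuous (L : List (Entry d)) : ∀ G : List (CForm d),
    Continuous fun θ => top d (wf G θ * WW L θ) := by
  induction L with
  | nil =>
    intro G
    simp only [WW, mul_zero, map_zero]
    exact continuous_const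
  | cons e L ih =>
    intro G
    have h : (fun θ => top d (wf G θ * WW (e :: L) θ)) = fun θ =>
        (e.u θ : ℂ) * top d (wf (G ++ L.map Entry.c) θ) - top d (wf (G ++ [e.c.re]) θ * WW L θ) := by
      funext θ
      rw [WW_cons, mul_sub, mul_smul_comm, map_sub, map_smul, smul_eq_mul, wf_append, wf_append,
        wf_cons, wf_nil, mul_one, mul_assoc]
      rfl
    rw [h]
    exact ((Complex.continuous_ofReal.comp e.cont).mul (top_wf_continuous _)).sub (ih _)

theorem integrableOn_box (F : (Fin d → ℝ) → ℂ) (hF : Continuous F) :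
    IntegrableOn F (box d) volume := hF.continuousOn.integrableOn_compact (isCompact_box d)

theorem re_integral_eq (F : (Fin d → ℝ) → ℂ) (hF : Continuous F) :
    (∫ θ in box d, F θ).re = ∫ θ in box d, (F θ).re := by
  have h := (Complex.reCLM.integral_comp_comm (integrableOn_box F hF)).symm
  exact h

theorem im_integral_eq (F : (Fin d → ℝ) → ℂ) (hF : Continuous F) :
    (∫ θ in box d, F θ).im = ∫ θ in box d, (F θ).im := by
  have h := (Complex.imCLM.integral_comp_comm (integrableOn_box F hF)).symm
  exact h

/-- moving a vector through a product of forms -/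
theorem ι_mul_wf (v : Fin d → ℂ) (G : List (CForm d)) (θ : Fin d → ℝ) :
    ι ℂ v * wf G θ = (-1 : ℂ) ^ G.length • (wf G θ * ι ℂ v) := by
  unfold wf
  rw [ι_mul_wdg, List.length_map]

theorem im_vec (e : Entry d) (θ : Fin d → ℝ) :
    e.c.im.toFun θ = rv fun l => (e.c.toFun θ l).im := rfl

theorem Entry.cont_im (e : Entry d) (l : Fin d) : Continuous fun θ => (e.c.toFun θ l).im :=
  Complex.continuous_im.comp (e.c.continuous l)

/-- Stokes for the product of the functions of two entries -/
theorem integral_entry_mul (e f : Entry d) (L : List (CForm d)) :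
    ∫ θ in box d, ((f.u θ : ℂ) * top d (ι ℂ (e.c.im.toFun θ) * wf L θ) +
      (e.u θ : ℂ) * top d (ι ℂ (f.c.im.toFun θ) * wf L θ)) = 0 := by
  have h := integral_top_exact (fun θ => e.u θ * f.u θ)
    (fun θ l => -(f.u θ * (e.c.toFun θ l).im + e.u θ * (f.c.toFun θ l).im))
    (e.cont.mul f.cont)
    (fun l => ((f.cont.mul (e.cont_im l)).add (e.cont.mul (f.cont_im l))).neg)
    (fun θ l => by
      have h1 := (e.der θ l).mul (f.der θ l)
      refine h1.congr_deriv ?_
      simp only [update_eq_self]
      ring)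
    (fun θ l => by rw [e.per, f.per]) L
  rw [← neg_eq_zero, ← integral_neg, ← h]
  congr 1
  funext θ
  rw [im_vec, im_vec]
  have h2 : (rv fun l => -(f.u θ * (e.c.toFun θ l).im + e.u θ * (f.c.toFun θ l).im)) =
      -((f.u θ : ℂ) • (rv fun l => (e.c.toFun θ l).im) +
        (e.u θ : ℂ) • (rv fun l => (f.c.toFun θ l).im)) := by
    funext l
    simp [rv]
  rw [h2, map_neg, map_add, map_smul, map_smul, neg_mul, add_mul, map_neg, map_add,
    smul_mul_assoc, smul_mul_assoc, map_smul, map_smul, smul_eq_mul]
  rfl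

/-- **The key integration by parts.** -/
theorem integral_im_WW (e : Entry d) (L : List (Entry d)) : ∀ G : List (CForm d),
    (∀ ω ∈ G, ω.IsReal) →
    (∫ θ in box d, top d (ι ℂ (e.c.im.toFun θ) * (wf G θ * WW L θ))).re =
      (-1) ^ (G.length + 1) * (∫ θ in box d, (e.u θ : ℂ) * top d (wf G θ * CC L θ)).im := by
  induction L with
  | nil =>
    intro G hG
    have h1 : ∀ θ, top d (ι ℂ (e.c.im.toFun θ) * (wf G θ * WW [] θ)) = 0 := by
      intro θ
      simp [WW]
    have h3 : ∀ θ, wf G θ * CC [] θ = wf G θ := by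
      intro θ
      unfold CC
      rw [List.map_nil, wf_nil, mul_one]
    have h2 : ∀ θ, ((e.u θ : ℂ) * top d (wf G θ * CC [] θ)).im = 0 := by
      intro θ
      rw [h3, Complex.im_ofReal_mul, top_wf_real G hG, mul_zero]
    have hc : Continuous fun θ => (e.u θ : ℂ) * top d (wf G θ * CC [] θ) := by
      simp only [h3]
      exact (Complex.continuous_ofReal.comp e.cont).mul (top_wf_continuous _)
    rw [im_integral_eq _ hc]
    simp only [h1, h2, integral_zero, Complex.zero_re, mul_zero]
  | cons f L ih =>
    intro G hG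
    have hG' : ∀ ω ∈ G ++ [f.c.re], ω.IsReal := by
      intro ω hω
      rcases List.mem_append.1 hω with h | h
      · exact hG ω h
      · rw [List.mem_singleton.1 h]
        exact f.c.isReal_re
    have hih := ih (G ++ [f.c.re]) hG'
    set M : List (CForm d) := G ++ L.map Entry.c with hM
    have hue : Continuous fun θ => (e.u θ : ℂ) := Complex.continuous_ofReal.comp e.cont
    have huf : Continuous fun θ => (f.u θ : ℂ) := Complex.continuous_ofReal.comp f.cont
    -- the integrand on the left
    have e1 : ∀ θ, top d (ι ℂ (e.c.im.toFun θ) * (wf G θ * WW (f :: L) θ)) =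
        (f.u θ : ℂ) * top d (wf (e.c.im :: M) θ) -
          top d (wf (e.c.im :: (G ++ [f.c.re])) θ * WW L θ) := by
      intro θ
      rw [WW_cons, mul_sub, mul_sub, mul_smul_comm, mul_smul_comm, map_sub, map_smul, smul_eq_mul,
        hM, wf_cons, wf_cons, wf_append, wf_append, wf_cons, wf_nil, mul_one, mul_assoc, mul_assoc]
      rfl
    -- the integrand on the right
    have e2 : ∀ θ, (e.u θ : ℂ) * top d (wf G θ * CC (f :: L) θ) =
        (e.u θ : ℂ) * top d (wf (G ++ [f.c.re]) θ * CC L θ) +
          Complex.I * ((e.u θ : ℂ) * top d (wf (G ++ f.c.im :: L.map Entry.c) θ)) := by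
      intro θ
      rw [CC_cons, f.c.re_add_im, map_add, map_smul, add_mul, mul_add, map_add, smul_mul_assoc,
        mul_smul_comm, map_smul, smul_eq_mul, wf_append, wf_append, wf_cons, wf_cons, wf_nil,
        mul_one, mul_assoc]
      unfold CC
      ring
    have e3 : ∀ θ, (e.u θ : ℂ) * top d (wf (f.c.im :: M) θ) =
        (-1) ^ G.length * ((e.u θ : ℂ) * top d (wf (G ++ f.c.im :: L.map Entry.c) θ)) := by
      intro θ
      rw [hM, wf_cons, wf_append, ← mul_assoc, ι_mul_wf, smul_mul_assoc, map_smul, smul_eq_mul,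
        wf_append, wf_cons, mul_assoc]
      ring
    have hS := integral_entry_mul e f M
    have c1 : Continuous fun θ => (f.u θ : ℂ) * top d (wf (e.c.im :: M) θ) :=
      huf.mul (top_wf_continuous _)
    have c2 : Continuous fun θ => (e.u θ : ℂ) * top d (wf (f.c.im :: M) θ) :=
      hue.mul (top_wf_continuous _)
    have c3 : Continuous fun θ => top d (wf (e.c.im :: (G ++ [f.c.re])) θ * WW L θ) :=
      top_WW_continuous _ _
    have c4 : Continuous fun θ => (e.u θ : ℂ) * top d (wf (G ++ [f.c.re]) θ * CC L θ) := by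
      have : (fun θ => (e.u θ : ℂ) * top d (wf (G ++ [f.c.re]) θ * CC L θ)) =
          fun θ => (e.u θ : ℂ) * top d (wf ((G ++ [f.c.re]) ++ L.map Entry.c) θ) := by
        funext θ
        rw [wf_append (G ++ [f.c.re])]
        rfl
      rw [this]
      exact hue.mul (top_wf_continuous _)
    have c5 : Continuous fun θ =>
        (e.u θ : ℂ) * top d (wf (G ++ f.c.im :: L.map Entry.c) θ) :=
      hue.mul (top_wf_continuous _)
    have hS' : (∫ θ in box d, (f.u θ : ℂ) * top d (wf (e.c.im :: M) θ)) +
        ∫ θ in box d, (e.u θ : ℂ) * top d (wf (f.c.im :: M) θ) = 0 := by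
      rw [← integral_add (integrableOn_box _ c1) (integrableOn_box _ c2), ← hS]
      congr 1
    simp only [e1, e2]
    rw [integral_sub (integrableOn_box _ c1) (integrableOn_box _ c3),
      integral_add (integrableOn_box _ c4) ((integrableOn_box _ c5).const_mul _),
      integral_const_mul, Complex.sub_re, Complex.add_im, Complex.I_mul_im]
    have hih' : (∫ θ in box d, top d (wf (e.c.im :: (G ++ [f.c.re])) θ * WW L θ)).re =
        (-1) ^ ((G ++ [f.c.re]).length + 1) *
          (∫ θ in box d, (e.u θ : ℂ) * top d (wf (G ++ [f.c.re]) θ * CC L θ)).im := by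
      rw [← hih]
      congr 2
      funext θ
      rw [wf_cons, mul_assoc]
    have hB : (∫ θ in box d, (e.u θ : ℂ) * top d (wf (f.c.im :: M) θ)) =
        (-1) ^ G.length * ∫ θ in box d,
          (e.u θ : ℂ) * top d (wf (G ++ f.c.im :: L.map Entry.c) θ) := by
      rw [← integral_const_mul]
      congr 1
      funext θ
      exact e3 θ
    have hA := eq_neg_of_add_eq_zero_left hS'
    rw [hB] at hA
    rw [hA, hih', List.length_append, List.length_singleton]
    have hre : ∀ z : ℂ, (-((-1 : ℂ) ^ G.length * z)).re = -((-1) ^ G.length * z.re) := by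
      intro z
      rw [Complex.neg_re]
      have : ((-1 : ℂ) ^ G.length) = (((-1 : ℝ) ^ G.length : ℝ) : ℂ) := by push_cast; ring
      rw [this, Complex.re_ofReal_mul]
    rw [hre]
    ring

end

end P4a177h
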