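import Pool.Agent.Lib.P4a177h.TorPts
import Pool.Agent.Lib.P4a177h.RegMul

/-!
# MODULE Est: the tori and the estimate of the regulator integrals

The torus is the product of the circles of radius `1/2` around `a_{s,q_s + 1}` in the first `d + 1`
coordinates and the last coordinate is given by `Fam.exists_last`. All the terms of the regulator
form but the last one are bounded; the last one is, up to a bounded term, `log N` times the product
of the forms `d arg` in the single variables, and its integral is computed with Fubini and winding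
numbers.
-/

set_option autoImplicit false

namespace P4a177h

open Function MeasureTheory
open scoped Real

/-- The function `(e^{it}/2) / (b + e^{it}/2)`. -/
noncomputable def Est_phi (b : ℂ) (t : ℝ) : ℂ :=
  (1 / 2 * Complex.exp (t * Complex.I)) / (b + 1 / 2 * Complex.exp (t * Complex.I))

theorem Est_integral_circle (b : ℂ) : ∫ t in (0 : ℝ)..2 * π, Est_phi b t =
    -Complex.I * (∮ z in C(0, 1 / 2), (z - (-b))⁻¹) := by
  unfold circleIntegral
  rw [← intervalIntegral.integral_const_mul]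
  refine intervalIntegral.integral_congr fun t _ => ?_
  simp only [deriv_circleMap, circleMap, smul_eq_mul, Est_phi, zero_add]
  push_cast
  rw [sub_neg_eq_add, add_comm b]
  rw [div_eq_mul_inv]
  linear_combination ((1 / 2 * Complex.exp (↑t * Complex.I)) *
    (1 / 2 * Complex.exp (↑t * Complex.I) + b)⁻¹) * Complex.I_sq

theorem Est_integral_zero : ∫ t in (0 : ℝ)..2 * π, Est_phi 0 t = 2 * π := by
  rw [Est_integral_circle, neg_zero]
  rw [circleIntegral.integral_sub_center_inv 0 (by norm_num : (1 / 2 : ℝ) ≠ 0)]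
  linear_combination (-2 * (π : ℂ)) * Complex.I_sq

theorem Est_integral_ne (b : ℂ) (hb : 1 ≤ ‖b‖) : ∫ t in (0 : ℝ)..2 * π, Est_phi b t = 0 := by
  rw [Est_integral_circle]
  have h0 : ∀ z ∈ Metric.closedBall (0 : ℂ) (1 / 2), z - (-b) ≠ 0 := by
    intro z hz h
    have h1 : z = -b := sub_eq_zero.1 h
    rw [mem_closedBall_zero_iff, h1, norm_neg] at hz
    linarith
  have h1 : DifferentiableOn ℂ (fun z : ℂ => (z - (-b))⁻¹) (Metric.closedBall 0 (1 / 2)) :=
    fun z hz => by
      have h3 : DifferentiableAt ℂ (fun z : ℂ => z - (-b)) z :=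
        differentiableAt_id.sub (differentiableAt_const _)
      exact (h3.fun_inv (h0 z hz)).differentiableWithinAt
  have h2 : DiffContOnCl ℂ (fun z : ℂ => (z - (-b))⁻¹) (Metric.ball 0 (1 / 2)) := by
    refine DifferentiableOn.diffContOnCl ?_
    rw [closure_ball _ (by norm_num)]
    exact h1
  rw [h2.circleIntegral_eq_zero (by norm_num), mul_zero]

theorem Est_den_ne (b : ℂ) (hb : b = 0 ∨ 1 ≤ ‖b‖) (t : ℝ) :
    b + 1 / 2 * Complex.exp (t * Complex.I) ≠ 0 := by
  intro h
  have h1 := TorPts_norm_exp t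
  rcases hb with rfl | hb
  · rw [zero_add] at h
    rw [h, norm_zero] at h1
    norm_num at h1
  · have h2 : 1 / 2 * Complex.exp (t * Complex.I) = -b := by linear_combination h
    rw [h2, norm_neg] at h1
    linarith

theorem Est_phi_continuous (b : ℂ) (hb : b = 0 ∨ 1 ≤ ‖b‖) : Continuous (Est_phi b) := by
  unfold Est_phi
  refine Continuous.div (by fun_prop) (by fun_prop) (Est_den_ne b hb)

theorem Est_phi_norm (b : ℂ) (hb : b = 0 ∨ 1 ≤ ‖b‖) (t : ℝ) : ‖Est_phi b t‖ ≤ 1 := by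
  have h1 := TorPts_norm_exp t
  have h2 := Est_den_ne b hb t
  rw [Est_phi, norm_div, h1, div_le_one (norm_pos_iff.2 h2)]
  rcases hb with rfl | hb
  · rw [zero_add, h1]
  · have h3 := norm_sub_le (b + 1 / 2 * Complex.exp (t * Complex.I))
      (1 / 2 * Complex.exp (t * Complex.I))
    rw [add_sub_cancel_right, h1] at h3
    linarith

/-- The integral of the real part. -/
theorem Est_integral_re (b : ℂ) (hb : b = 0 ∨ 1 ≤ ‖b‖) :
    ∫ t in Set.Icc (0 : ℝ) (2 * π), (Est_phi b t).re = if b = 0 then 2 * π else 0 := by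
  rw [MeasureTheory.integral_Icc_eq_integral_Ioc,
    ← intervalIntegral.integral_of_le (by positivity)]
  have h1 : ∫ t in (0 : ℝ)..2 * π, (Est_phi b t).re =
      (∫ t in (0 : ℝ)..2 * π, Est_phi b t).re :=
    Complex.reCLM.intervalIntegral_comp_comm
      ((Est_phi_continuous b hb).intervalIntegrable _ _)
  rw [h1]
  split_ifs with h
  · rw [h, Est_integral_zero]
    simp
  · rcases hb with hb | hb
    · exact absurd hb h
    · rw [Est_integral_ne b hb]
      simp

/-- Fubini on the box. -/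
theorem Est_fubini {n : ℕ} (f : Fin n → ℝ → ℝ) :
    ∫ θ in box n, ∏ s, f s (θ s) = ∏ s, ∫ t in Set.Icc (0 : ℝ) (2 * π), f s t := by
  have h1 : box n = Set.univ.pi fun _ : Fin n => Set.Icc (0 : ℝ) (2 * π) := by
    rw [box, ← Set.pi_univ_Icc]
    rfl
  rw [h1, volume_pi, Measure.restrict_pi_pi]
  exact integral_fintype_prod_eq_prod (fun s => f s)

theorem Est_box_volume (n : ℕ) : volume.real (box n) = (2 * π) ^ n := by
  rw [box, Measure.real, Real.volume_Icc_pi_toReal (by
    intro i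
    simp only [Pi.zero_apply]
    positivity)]
  simp

/-- A bound of a determinant. -/
theorem Est_det_le {n : ℕ} (M : Matrix (Fin n) (Fin n) ℂ) (B : ℝ) (h : ∀ i j, ‖M i j‖ ≤ B) :
    ‖M.det‖ ≤ n.factorial * B ^ n := by
  rw [Matrix.det_apply]
  refine (norm_sum_le _ _).trans ?_
  have h1 : ∀ σ ∈ (Finset.univ : Finset (Equiv.Perm (Fin n))),
      ‖Equiv.Perm.sign σ • ∏ i, M (σ i) i‖ ≤ B ^ n := by
    intro σ _
    have h2 : ‖Equiv.Perm.sign σ • ∏ i, M (σ i) i‖ = ∏ i, ‖M (σ i) i‖ := by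
      rcases Int.units_eq_one_or (Equiv.Perm.sign σ) with hs | hs <;> rw [hs] <;>
        simp [norm_prod]
    rw [h2]
    calc ∏ i, ‖M (σ i) i‖ ≤ ∏ _i : Fin n, B :=
          Finset.prod_le_prod (fun i _ => norm_nonneg _) (fun i _ => h _ _)
      _ = B ^ n := by simp
  refine (Finset.sum_le_sum h1).trans ?_
  rw [Finset.sum_const, Finset.card_univ, Fintype.card_perm, Fintype.card_fin, nsmul_eq_mul]

variable {d : ℕ} (A : Fam d)

/-- The point of the torus. -/
noncomputable def Est_pt (q : ∀ s, Fin (A.m s + 1)) (y : (Fin (d + 1) → ℝ) → ℂ)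
    (θ : Fin (d + 1) → ℝ) : Fin (d + 2) → ℂ :=
  Fin.snoc (α := fun _ => ℂ) (fun s : Fin (d + 1) => (A.a s.castSucc (q s.castSucc) : ℂ) +
    1 / 2 * Complex.exp (θ s * Complex.I)) (y θ)

theorem Est_pt_castSucc (q : ∀ s, Fin (A.m s + 1)) (y : (Fin (d + 1) → ℝ) → ℂ)
    (θ : Fin (d + 1) → ℝ) (s : Fin (d + 1)) : Est_pt A q y θ s.castSucc =
      (A.a s.castSucc (q s.castSucc) : ℂ) + 1 / 2 * Complex.exp (θ s * Complex.I) := by
  unfold Est_pt
  rw [Fin.snoc_castSucc]

theorem Est_pt_last (q : ∀ s, Fin (A.m s + 1)) (y : (Fin (d + 1) → ℝ) → ℂ)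
    (θ : Fin (d + 1) → ℝ) : Est_pt A q y θ (Fin.last (d + 1)) = y θ := by
  unfold Est_pt
  rw [Fin.snoc_last]

theorem Est_pt_contDiff (q : ∀ s, Fin (A.m s + 1)) (y : (Fin (d + 1) → ℝ) → ℂ)
    (hy : ContDiff ℝ 2 y) (s : Fin (d + 2)) : ContDiff ℝ 2 fun θ => Est_pt A q y θ s := by
  refine Fin.lastCases ?_ (fun s => ?_) s
  · simp only [Est_pt_last]
    exact hy
  · simp only [Est_pt_castSucc]
    have h1 : ContDiff ℝ 2 fun θ : Fin (d + 1) → ℝ => ((θ s : ℝ) : ℂ) :=
      Complex.ofRealCLM.contDiff.comp (contDiff_apply ℝ ℝ s)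
    exact contDiff_const.add (contDiff_const.mul (h1.mul contDiff_const).cexp)

theorem Est_pt_periodic (q : ∀ s, Fin (A.m s + 1)) (y : (Fin (d + 1) → ℝ) → ℂ)
    (hy : ∀ θ l, y (update θ l (θ l + 2 * π)) = y θ) (θ : Fin (d + 1) → ℝ) (l : Fin (d + 1)) :
    Est_pt A q y (update θ l (θ l + 2 * π)) = Est_pt A q y θ := by
  funext s
  refine Fin.lastCases ?_ (fun s => ?_) s
  · rw [Est_pt_last, Est_pt_last, hy]
  · rw [Est_pt_castSucc, Est_pt_castSucc]
    by_cases h : s = l
    · subst h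
      rw [update_self]
      have : (((θ s + 2 * π : ℝ)) : ℂ) * Complex.I = θ s * Complex.I + 2 * π * Complex.I := by
        push_cast; ring
      rw [this, Complex.exp_add, Complex.exp_two_pi_mul_I, mul_one]
    · rw [update_of_ne h]

theorem Est_eqn (N : ℕ) (x : Fin (d + 2) → ℂ) : MvPolynomial.aeval x (A.eqn N) =
    (N : ℂ) * ((∏ s : Fin (d + 1), ∏ i, (x s.castSucc - (A.a s.castSucc i : ℂ))) *
      ∏ i, (x (Fin.last (d + 1)) - (A.a (Fin.last (d + 1)) i : ℂ))) - 1 := by
  have h : ∀ r : ℤ, MvPolynomial.aeval x (MvPolynomial.C (r : ℚ) : MvPolynomial (Fin (d + 2)) ℚ) =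
      (r : ℂ) := by
    intro r
    rw [MvPolynomial.aeval_C]
    simp
  unfold Fam.eqn
  rw [map_sub, map_mul, map_one, map_natCast, map_prod, Fin.prod_univ_castSucc]
  congr 3
  · refine Finset.prod_congr rfl fun s _ => ?_
    rw [map_prod]
    refine Finset.prod_congr rfl fun i _ => ?_
    rw [map_sub, MvPolynomial.aeval_X, h]
  · rw [map_prod]
    refine Finset.prod_congr rfl fun i _ => ?_
    rw [map_sub, MvPolynomial.aeval_X, h]

/-- The ring homomorphism of a point of the hypersurface. -/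
noncomputable def Est_hom (N : ℕ) (x : Fin (d + 2) → ℂ)
    (hx : MvPolynomial.aeval x (A.eqn N) = 0) : A.CoordRing N →+* ℂ :=
  Ideal.Quotient.lift _ (MvPolynomial.aeval (R := ℚ) x).toRingHom (by
    intro f hf
    rw [Ideal.mem_span_singleton] at hf
    obtain ⟨g, rfl⟩ := hf
    show MvPolynomial.aeval x (A.eqn N * g) = 0
    rw [map_mul, hx, zero_mul])

theorem Est_hom_mk (N : ℕ) (x : Fin (d + 2) → ℂ)
    (hx : MvPolynomial.aeval x (A.eqn N) = 0) (P : MvPolynomial (Fin (d + 2)) ℚ) :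
    Est_hom A N x hx (Ideal.Quotient.mk _ P) = MvPolynomial.aeval x P := rfl

theorem Est_hom_lin (N : ℕ) (x : Fin (d + 2) → ℂ)
    (hx : MvPolynomial.aeval x (A.eqn N) = 0) (s : Fin (d + 2)) (i : Fin (A.m s + 1)) :
    Est_hom A N x hx (A.lin N s i) = x s - (A.a s i : ℂ) := by
  unfold Fam.lin
  rw [Est_hom_mk, map_sub, MvPolynomial.aeval_X, MvPolynomial.aeval_C]
  simp

/-- The torus. -/
noncomputable def Est_torus (N : ℕ) (q : ∀ s, Fin (A.m s + 1)) (y : (Fin (d + 1) → ℝ) → ℂ)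
    (hy : ContDiff ℝ 2 y) (hp : ∀ θ l, y (update θ l (θ l + 2 * π)) = y θ)
    (hx : ∀ θ, MvPolynomial.aeval (Est_pt A q y θ) (A.eqn N) = 0) :
    Torus (d + 1) (A.CoordRing N) where
  emb θ := Est_hom A N (Est_pt A q y θ) (hx θ)
  contDiff f := by
    obtain ⟨P, rfl⟩ := Ideal.Quotient.mk_surjective f
    simp only [Est_hom_mk]
    induction P using MvPolynomial.induction_on with
    | C a => simp only [MvPolynomial.aeval_C]; exact contDiff_const
    | add P Q hP hQ => simp only [map_add]; exact hP.add hQ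
    | mul_X P s hP =>
      simp only [map_mul, MvPolynomial.aeval_X]
      exact hP.mul (Est_pt_contDiff A q y hy s)
  periodic f θ l := by
    obtain ⟨P, rfl⟩ := Ideal.Quotient.mk_surjective f
    rw [Est_hom_mk, Est_hom_mk, Est_pt_periodic A q y hp]

section Rows

variable (N : ℕ) (q : ∀ s, Fin (A.m s + 1)) (y : (Fin (d + 1) → ℝ) → ℂ)
    (hy : ContDiff ℝ 2 y) (hp : ∀ θ l, y (update θ l (θ l + 2 * π)) = y θ)
    (hx : ∀ θ, MvPolynomial.aeval (Est_pt A q y θ) (A.eqn N) = 0)

theorem Est_emb_castSucc (s : Fin (d + 1)) (i : Fin (A.m s.castSucc + 1))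
    (w : (A.CoordRing N)ˣ) (hw : (w : A.CoordRing N) = A.lin N s.castSucc i)
    (θ : Fin (d + 1) → ℝ) : (Est_torus A N q y hy hp hx).emb θ (w : A.CoordRing N) =
      TorPts_L A q s i θ := by
  rw [hw]
  show Est_hom A N (Est_pt A q y θ) (hx θ) (A.lin N s.castSucc i) = _
  rw [Est_hom_lin, Est_pt_castSucc, TorPts_L]

theorem Est_emb_last (i : Fin (A.m (Fin.last (d + 1)) + 1))
    (w : (A.CoordRing N)ˣ) (hw : (w : A.CoordRing N) = A.lin N (Fin.last (d + 1)) i)
    (θ : Fin (d + 1) → ℝ) : (Est_torus A N q y hy hp hx).emb θ (w : A.CoordRing N) =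
      y θ - (A.a (Fin.last (d + 1)) i : ℂ) := by
  rw [hw]
  show Est_hom A N (Est_pt A q y θ) (hx θ) (A.lin N (Fin.last (d + 1)) i) = _
  rw [Est_hom_lin, Est_pt_last]

theorem Est_row_castSucc (s : Fin (d + 1)) (i : Fin (A.m s.castSucc + 1))
    (w : (A.CoordRing N)ˣ) (hw : (w : A.CoordRing N) = A.lin N s.castSucc i)
    (θ : Fin (d + 1) → ℝ) (l : Fin (d + 1)) :
    dlogRow (Est_torus A N q y hy hp hx) w θ l =
      if l = s then Est_phi ((A.a s.castSucc (q s.castSucc) : ℂ) - (A.a s.castSucc i : ℂ)) (θ s)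
      else 0 := by
  unfold dlogRow
  have hfun : (fun θ => (Est_torus A N q y hy hp hx).emb θ (w : A.CoordRing N)) =
      TorPts_L A q s i := by
    funext θ
    exact Est_emb_castSucc A N q y hy hp hx s i w hw θ
  rw [hfun, Est_emb_castSucc A N q y hy hp hx s i w hw θ]
  have h1 : HasFDerivAt (fun θ : Fin (d + 1) → ℝ => ((θ s : ℝ) : ℂ))
      (Complex.ofRealCLM.comp
        (ContinuousLinearMap.proj (R := ℝ) (φ := fun _ : Fin (d + 1) => ℝ) s)) θ :=
    (Complex.ofRealCLM.comp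
      (ContinuousLinearMap.proj (R := ℝ) (φ := fun _ : Fin (d + 1) => ℝ) s)).hasFDerivAt
  have h2 := (h1.mul_const Complex.I).cexp
  have h3 := ((h2.const_mul (1 / 2 : ℂ)).const_add
    (A.a s.castSucc (q s.castSucc) : ℂ)).sub_const (A.a s.castSucc i : ℂ)
  have h4 : fderiv ℝ (TorPts_L A q s i) θ = _ := h3.fderiv
  rw [h4]
  simp only [smul_apply, ContinuousLinearMap.comp_apply,
    ContinuousLinearMap.proj_apply, smul_eq_mul, Complex.ofRealCLM_apply]
  by_cases h : l = s
  · subst h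
    rw [if_pos rfl]
    simp only [Pi.single_eq_same, Complex.ofReal_one, mul_one, TorPts_L, Est_phi]
    have h5 : (A.a l.castSucc (q l.castSucc) : ℂ) - (A.a l.castSucc i : ℂ) +
        1 / 2 * Complex.exp (↑(θ l) * Complex.I) =
        (A.a l.castSucc (q l.castSucc) : ℂ) + 1 / 2 * Complex.exp (↑(θ l) * Complex.I) -
        (A.a l.castSucc i : ℂ) := by ring
    rw [h5, div_eq_mul_inv, div_eq_mul_inv]
    linear_combination (-(1 / 2 * Complex.exp (↑(θ l) * Complex.I) *
      ((A.a l.castSucc (q l.castSucc) : ℂ) + 1 / 2 * Complex.exp (↑(θ l) * Complex.I) -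
        (A.a l.castSucc i : ℂ))⁻¹)) * Complex.I_sq
  · rw [if_neg h, Pi.single_eq_of_ne (fun e => h e.symm)]
    simp

theorem Est_row_last (i : Fin (A.m (Fin.last (d + 1)) + 1))
    (w : (A.CoordRing N)ˣ) (hw : (w : A.CoordRing N) = A.lin N (Fin.last (d + 1)) i)
    (θ : Fin (d + 1) → ℝ) (l : Fin (d + 1)) :
    ‖dlogRow (Est_torus A N q y hy hp hx) w θ l‖ =
      ‖fderiv ℝ y θ (Pi.single l 1) / (y θ - (A.a (Fin.last (d + 1)) i : ℂ))‖ := by
  unfold dlogRow
  have hfun : (fun θ => (Est_torus A N q y hy hp hx).emb θ (w : A.CoordRing N)) =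
      fun θ => y θ - (A.a (Fin.last (d + 1)) i : ℂ) := by
    funext θ
    exact Est_emb_last A N q y hy hp hx i w hw θ
  rw [hfun, Est_emb_last A N q y hy hp hx i w hw θ, fderiv_sub_const]
  rw [norm_mul, norm_neg, Complex.norm_I, one_mul]

end Rows

theorem Est_row_div {n : ℕ} {R : Type*} [CommRing R] (γ : Torus n R) (b c : Rˣ)
    (θ : Fin n → ℝ) (l : Fin n) :
    dlogRow γ (b / c) θ l = dlogRow γ b θ l - dlogRow γ c θ l := by
  have h := congrFun (dlogRow_mul γ (b / c) c θ) l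
  rw [div_mul_cancel, Pi.add_apply] at h
  rw [h]
  ring

theorem Est_log_div {n : ℕ} {R : Type*} [CommRing R] (γ : Torus n R) (b c : Rˣ)
    (θ : Fin n → ℝ) : Real.log ‖γ.emb θ ((b / c : Rˣ) : R)‖ =
      Real.log ‖γ.emb θ (b : R)‖ - Real.log ‖γ.emb θ (c : R)‖ := by
  have h1 : γ.emb θ (b : R) = γ.emb θ ((b / c : Rˣ) : R) * γ.emb θ (c : R) := by
    rw [← map_mul, ← Units.val_mul, div_mul_cancel]
  rw [h1, norm_mul, Real.log_mul (norm_ne_zero_iff.2 (emb_ne_zero γ _ θ))
    (norm_ne_zero_iff.2 (emb_ne_zero γ _ θ))]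
  ring

/-- The difference of two real parts. -/
noncomputable def Est_f (q : ∀ s, Fin (A.m s + 1)) (r : ∀ s, Fin (A.m s + 1)) (s : Fin (d + 1))
    (t : ℝ) : ℝ :=
  (Est_phi ((A.a s.castSucc (q s.castSucc) : ℂ) - (A.a s.castSucc (r s.castSucc) : ℂ)) t).re -
  (Est_phi ((A.a s.castSucc (q s.castSucc) : ℂ) - (A.a s.castSucc 0 : ℂ)) t).re

theorem Est_b (s : Fin (d + 2)) (i j : Fin (A.m s + 1)) :
    ((A.a s i : ℂ) - (A.a s j : ℂ) = 0) ∨ 1 ≤ ‖(A.a s i : ℂ) - (A.a s j : ℂ)‖ := by
  by_cases h : i = j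
  · left; rw [h, sub_self]
  · right; exact TorPts_norm_sub A h

theorem Est_b_zero (s : Fin (d + 2)) (i j : Fin (A.m s + 1)) :
    ((A.a s i : ℂ) - (A.a s j : ℂ) = 0) ↔ i = j := by
  constructor
  · intro h
    by_contra hne
    have := TorPts_norm_sub A hne
    rw [h, norm_zero] at this
    linarith
  · intro h
    rw [h, sub_self]

theorem Est_f_integral (q r : ∀ s, Fin (A.m s + 1)) (s : Fin (d + 1))
    (hq : q s.castSucc ≠ 0) :
    ∫ t in Set.Icc (0 : ℝ) (2 * π), Est_f A q r s t =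
      if q s.castSucc = r s.castSucc then 2 * π else 0 := by
  have hi : ∀ i, IntegrableOn (fun t => (Est_phi ((A.a s.castSucc (q s.castSucc) : ℂ) -
      (A.a s.castSucc i : ℂ)) t).re) (Set.Icc (0 : ℝ) (2 * π)) := fun i =>
    (Complex.continuous_re.comp (Est_phi_continuous _ (Est_b A _ _ _))).continuousOn.integrableOn_Icc
  unfold Est_f
  rw [integral_sub (hi _) (hi _), Est_integral_re _ (Est_b A _ _ _),
    Est_integral_re _ (Est_b A _ _ _), if_neg (fun h => hq ((Est_b_zero A _ _ _).1 h)), sub_zero]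
  simp only [Est_b_zero]

theorem Est_f_continuous (q r : ∀ s, Fin (A.m s + 1)) (s : Fin (d + 1)) :
    Continuous (Est_f A q r s) :=
  (Complex.continuous_re.comp (Est_phi_continuous _ (Est_b A _ _ _))).sub
    (Complex.continuous_re.comp (Est_phi_continuous _ (Est_b A _ _ _)))

theorem Est_prod_ite {n : ℕ} (P : Fin n → Prop) [DecidablePred P] (c : ℝ) :
    ∏ s, (if P s then c else 0) = if ∀ s, P s then c ^ n else 0 := by
  classical
  by_cases h : ∀ s, P s
  · rw [if_pos h]
    simp [h]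
  · rw [if_neg h]
    push Not at h
    obtain ⟨s, hs⟩ := h
    exact Finset.prod_eq_zero (Finset.mem_univ s) (if_neg hs)

theorem Fam.reg_estimate (q : ∀ s, Fin (A.m s)) :
    ∃ (C : ℝ) (N₀ : ℕ), ∀ N : ℕ, N₀ ≤ N → ∃ γ : Torus (d + 1) (A.CoordRing N),
      ∀ u : ∀ s : Fin (d + 2), Fin (A.m s + 1) → (A.CoordRing N)ˣ,
        (∀ s i, (u s i : A.CoordRing N) = A.lin N s i) →
        ∀ p : ∀ s, Fin (A.m s),
          |regFun γ (fun s => u s (p s).succ / u s 0) -
            (if p = q then (-1) ^ d * (2 * π) ^ (d + 1) * Real.log N else 0)| ≤ C := by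
  classical
  set q' : ∀ s, Fin (A.m s + 1) := fun s => (q s).succ with hq'
  obtain ⟨C, N₀, hC⟩ := A.exists_last q'
  -- the bound of the logarithms
  set B1 : ℝ := ∑ s : Fin (d + 1), ∑ i, (‖(A.a s.castSucc (q' s.castSucc) : ℂ) -
    (A.a s.castSucc i : ℂ)‖ + 3 / 2) with hB1
  have hB1le : ∀ (s : Fin (d + 1)) (i : Fin (A.m s.castSucc + 1)),
      ‖(A.a s.castSucc (q' s.castSucc) : ℂ) - (A.a s.castSucc i : ℂ)‖ + 3 / 2 ≤ B1 := by
    intro s i
    refine (Finset.single_le_sum (f := fun i => ‖(A.a s.castSucc (q' s.castSucc) : ℂ) -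
      (A.a s.castSucc i : ℂ)‖ + 3 / 2) (fun j _ => by positivity) (Finset.mem_univ i)).trans ?_
    exact Finset.single_le_sum (f := fun s : Fin (d + 1) => ∑ i,
      (‖(A.a s.castSucc (q' s.castSucc) : ℂ) - (A.a s.castSucc i : ℂ)‖ + 3 / 2))
      (fun j _ => Finset.sum_nonneg fun i _ => by positivity) (Finset.mem_univ s)
  have hB1n : 0 ≤ B1 := Finset.sum_nonneg fun s _ => Finset.sum_nonneg fun i _ => by positivity
  set C' : ℝ := |C| with hC'
  have hC'n : 0 ≤ C' := abs_nonneg _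
  have hCC : C ≤ C' := le_abs_self _
  set B2 : ℝ := 2 + 2 * C' with hB2
  set Dt : ℝ := (d + 1).factorial * B2 ^ (d + 1) with hDt
  have h2B : 0 ≤ 2 * B1 := mul_nonneg zero_le_two hB1n
  have h2C : 0 ≤ 2 * C' := mul_nonneg zero_le_two hC'n
  have hB2n : 0 ≤ B2 := add_nonneg zero_le_two h2C
  set K : ℝ := ((d + 1 : ℕ) : ℝ) * (2 * B1 * Dt) + 2 * C' * Dt with hK
  refine ⟨K * (2 * π) ^ (d + 1), N₀, fun N hN => ?_⟩
  obtain ⟨y, hy, hp, heq, hl1, hl2, hl3⟩ := hC N hN
  have hx : ∀ θ, MvPolynomial.aeval (Est_pt A q' y θ) (A.eqn N) = 0 := by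
    intro θ
    rw [Est_eqn, Est_pt_last]
    simp only [Est_pt_castSucc]
    rw [heq θ, sub_self]
  refine ⟨Est_torus A N q' y hy hp hx, fun u hu p => ?_⟩
  set γ := Est_torus A N q' y hy hp hx with hγ
  set g : Fin (d + 1 + 1) → (A.CoordRing N)ˣ := fun s => u s (p s).succ / u s 0 with hg
  -- rows
  have hrow : ∀ (s : Fin (d + 1)) (θ : Fin (d + 1) → ℝ) (l : Fin (d + 1)),
      dlogRow γ (g s.castSucc) θ l = if l = s then
        Est_phi ((A.a s.castSucc (q' s.castSucc) : ℂ) - (A.a s.castSucc (p s.castSucc).succ : ℂ))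
          (θ s) - Est_phi ((A.a s.castSucc (q' s.castSucc) : ℂ) - (A.a s.castSucc 0 : ℂ)) (θ s)
        else 0 := by
    intro s θ l
    rw [hg]
    simp only []
    rw [Est_row_div, Est_row_castSucc A N q' y hy hp hx s _ _ (hu _ _),
      Est_row_castSucc A N q' y hy hp hx s _ _ (hu _ _)]
    split_ifs
    · rfl
    · rw [sub_zero]
  have hrow1 : ∀ (s : Fin (d + 1)) (θ : Fin (d + 1) → ℝ) (l : Fin (d + 1)),
      ‖dlogRow γ (g s.castSucc) θ l‖ ≤ B2 := by
    intro s θ l
    rw [hrow]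
    split_ifs
    · have e1 := Est_phi_norm _ (Est_b A s.castSucc (q' s.castSucc) (p s.castSucc).succ) (θ s)
      have e2 := Est_phi_norm _ (Est_b A s.castSucc (q' s.castSucc) 0) (θ s)
      have e3 := norm_sub_le (Est_phi ((A.a s.castSucc (q' s.castSucc) : ℂ) -
        (A.a s.castSucc (p s.castSucc).succ : ℂ)) (θ s))
        (Est_phi ((A.a s.castSucc (q' s.castSucc) : ℂ) - (A.a s.castSucc 0 : ℂ)) (θ s))
      rw [hB2]
      linarith
    · rw [norm_zero]
      exact hB2n
  have hrow2 : ∀ (θ : Fin (d + 1) → ℝ) (l : Fin (d + 1)),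
      ‖dlogRow γ (g (Fin.last (d + 1))) θ l‖ ≤ B2 := by
    intro θ l
    rw [hg]
    simp only []
    rw [Est_row_div]
    have e1 := Est_row_last A N q' y hy hp hx _ (u (Fin.last (d + 1)) (p (Fin.last (d + 1))).succ)
      (hu _ _) θ l
    have e2 := Est_row_last A N q' y hy hp hx _ (u (Fin.last (d + 1)) 0) (hu _ _) θ l
    have e3 := norm_sub_le
      (dlogRow γ (u (Fin.last (d + 1)) (p (Fin.last (d + 1))).succ) θ l)
      (dlogRow γ (u (Fin.last (d + 1)) 0) θ l)
    have e4 := hl3 (p (Fin.last (d + 1))).succ θ l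
    have e5 := hl3 0 θ l
    rw [← hγ] at e1 e2
    rw [hB2]
    linarith
  have hrows : ∀ (s : Fin (d + 1 + 1)) (θ : Fin (d + 1) → ℝ) (l : Fin (d + 1)),
      ‖dlogRow γ (g s) θ l‖ ≤ B2 := by
    intro s
    refine Fin.lastCases ?_ (fun s => ?_) s
    · exact hrow2
    · exact hrow1 s
  have hdet : ∀ (k : Fin (d + 1 + 1)) (θ : Fin (d + 1) → ℝ),
      |(regMatrix γ g k θ).det.re| ≤ Dt := by
    intro k θ
    refine (Complex.abs_re_le_norm _).trans (Est_det_le _ B2 fun i l => ?_)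
    simp only [regMatrix, Matrix.of_apply]
    split_ifs
    · rw [Complex.norm_real, Real.norm_eq_abs]
      exact (Complex.abs_re_le_norm _).trans (hrows _ θ l)
    · exact hrows _ θ l
  -- logarithms
  have hlog1 : ∀ (s : Fin (d + 1)) (θ : Fin (d + 1) → ℝ),
      |Real.log ‖γ.emb θ (g s.castSucc : A.CoordRing N)‖| ≤ 2 * B1 := by
    intro s θ
    have hone : ∀ i, |Real.log ‖γ.emb θ (u s.castSucc i : A.CoordRing N)‖| ≤ B1 := by
      intro i
      rw [hγ, Est_emb_castSucc A N q' y hy hp hx s i _ (hu _ _)]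
      have e1 := TorPts_abs_log (TorPts_L_ge A q' s i θ)
      have e2 := TorPts_L_le A q' s i θ
      have e3 := hB1le s i
      linarith
    rw [hg]
    simp only []
    rw [Est_log_div]
    have e1 := hone (p s.castSucc).succ
    have e2 := hone 0
    have e3 := abs_sub (Real.log ‖γ.emb θ (u s.castSucc (p s.castSucc).succ : A.CoordRing N)‖)
      (Real.log ‖γ.emb θ (u s.castSucc 0 : A.CoordRing N)‖)
    linarith
  set δ : ℝ := if p (Fin.last (d + 1)) = q (Fin.last (d + 1)) then Real.log N else 0 with hδ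
  have hlog2 : ∀ (θ : Fin (d + 1) → ℝ),
      |Real.log ‖γ.emb θ (g (Fin.last (d + 1)) : A.CoordRing N)‖ + δ| ≤ 2 * C' := by
    intro θ
    rw [hg]
    simp only []
    rw [Est_log_div]
    have e1 := Est_emb_last A N q' y hy hp hx _
      (u (Fin.last (d + 1)) (p (Fin.last (d + 1))).succ) (hu _ _) θ
    have e2 := Est_emb_last A N q' y hy hp hx _ (u (Fin.last (d + 1)) 0) (hu _ _) θ
    rw [← hγ] at e1 e2
    rw [e1, e2]
    have e3 := hl2 0 (by
      rw [hq']
      exact (Fin.succ_ne_zero _).symm) θ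
    rw [hδ]
    split_ifs with h
    · have e4 := hl1 θ
      rw [hq'] at e4
      simp only [] at e4
      rw [← h] at e4
      have e5 := abs_sub (Real.log ‖y θ - (A.a (Fin.last (d + 1))
        (p (Fin.last (d + 1))).succ : ℂ)‖ + Real.log N)
        (Real.log ‖y θ - (A.a (Fin.last (d + 1)) 0 : ℂ)‖)
      have e6 : Real.log ‖y θ - (A.a (Fin.last (d + 1)) (p (Fin.last (d + 1))).succ : ℂ)‖ -
          Real.log ‖y θ - (A.a (Fin.last (d + 1)) 0 : ℂ)‖ + Real.log N =
          Real.log ‖y θ - (A.a (Fin.last (d + 1)) (p (Fin.last (d + 1))).succ : ℂ)‖ +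
          Real.log N - Real.log ‖y θ - (A.a (Fin.last (d + 1)) 0 : ℂ)‖ := by ring
      rw [e6]
      linarith
    · have e4 := hl2 (p (Fin.last (d + 1))).succ (by
        rw [hq']
        intro e
        exact h (Fin.succ_injective _ e)) θ
      have e5 := abs_sub (Real.log ‖y θ - (A.a (Fin.last (d + 1))
        (p (Fin.last (d + 1))).succ : ℂ)‖)
        (Real.log ‖y θ - (A.a (Fin.last (d + 1)) 0 : ℂ)‖)
      rw [add_zero]
      linarith
  -- the last determinant
  set r' : ∀ s, Fin (A.m s + 1) := fun s => (p s).succ with hr'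
  have hlastdet : ∀ θ : Fin (d + 1) → ℝ, (regMatrix γ g (Fin.last (d + 1)) θ).det.re =
      ∏ s, Est_f A q' r' s (θ s) := by
    intro θ
    have h1 : regMatrix γ g (Fin.last (d + 1)) θ =
        Matrix.diagonal fun s => ((Est_f A q' r' s (θ s) : ℝ) : ℂ) := by
      ext i l
      simp only [regMatrix, Matrix.of_apply, Fin.val_last, Fin.is_lt, if_true,
        Fin.succAbove_last]
      rw [hrow i θ l]
      by_cases h : l = i
      · subst h
        rw [if_pos rfl, Matrix.diagonal_apply_eq, Complex.sub_re]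
        rfl
      · rw [if_neg h, Matrix.diagonal_apply_ne _ (fun e => h e.symm)]
        simp
    rw [h1, Matrix.det_diagonal, ← Complex.ofReal_prod, Complex.ofReal_re]
  -- the main term
  set main : (Fin (d + 1) → ℝ) → ℝ := fun θ =>
    (-1) ^ d * δ * ∏ s, Est_f A q' r' s (θ s) with hmain
  have hmainc : Continuous main := by
    rw [hmain]
    refine continuous_const.mul (continuous_finsetProd _ fun s _ => ?_)
    exact (Est_f_continuous A q' r' s).comp (continuous_apply s)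
  have hpt : ∀ θ, ‖regForm γ g θ - main θ‖ ≤ K := by
    intro θ
    unfold regForm
    rw [Fin.sum_univ_castSucc]
    have e1 : ‖∑ k : Fin (d + 1), (-1) ^ ((k.castSucc : Fin (d + 1 + 1)) : ℕ) *
        Real.log ‖γ.emb θ (g k.castSucc : A.CoordRing N)‖ *
        (regMatrix γ g k.castSucc θ).det.re‖ ≤ ((d + 1 : ℕ) : ℝ) * (2 * B1 * Dt) := by
      refine (norm_sum_le _ _).trans ?_
      have e2 : ∀ k ∈ (Finset.univ : Finset (Fin (d + 1))),
          ‖(-1) ^ ((k.castSucc : Fin (d + 1 + 1)) : ℕ) *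
          Real.log ‖γ.emb θ (g k.castSucc : A.CoordRing N)‖ *
          (regMatrix γ g k.castSucc θ).det.re‖ ≤ 2 * B1 * Dt := by
        intro k _
        rw [norm_mul, norm_mul, norm_pow, norm_neg, norm_one, one_pow, one_mul,
          Real.norm_eq_abs, Real.norm_eq_abs]
        exact mul_le_mul (hlog1 k θ) (hdet _ θ) (abs_nonneg _) h2B
      refine (Finset.sum_le_sum e2).trans ?_
      rw [Finset.sum_const, Finset.card_univ, Fintype.card_fin, nsmul_eq_mul]
    have e3 : (-1) ^ ((Fin.last (d + 1) : Fin (d + 1 + 1)) : ℕ) *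
        Real.log ‖γ.emb θ (g (Fin.last (d + 1)) : A.CoordRing N)‖ *
        (regMatrix γ g (Fin.last (d + 1)) θ).det.re - main θ =
        (-1) ^ (d + 1) * (Real.log ‖γ.emb θ (g (Fin.last (d + 1)) : A.CoordRing N)‖ + δ) *
        (regMatrix γ g (Fin.last (d + 1)) θ).det.re := by
      rw [hmain, Fin.val_last]
      simp only []
      rw [← hlastdet θ]
      ring
    have e4 : ‖(-1) ^ (d + 1) *
        (Real.log ‖γ.emb θ (g (Fin.last (d + 1)) : A.CoordRing N)‖ + δ) *
        (regMatrix γ g (Fin.last (d + 1)) θ).det.re‖ ≤ 2 * C' * Dt := by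
      rw [norm_mul, norm_mul, norm_pow, norm_neg, norm_one, one_pow, one_mul,
        Real.norm_eq_abs, Real.norm_eq_abs]
      exact mul_le_mul (hlog2 θ) (hdet _ θ) (abs_nonneg _) h2C
    rw [add_sub_assoc, e3, hK]
    exact (norm_add_le _ _).trans (add_le_add e1 e4)
  have hcompact : IsCompact (box (d + 1)) := isCompact_Icc
  have hI1 : IntegrableOn (fun θ => regForm γ g θ) (box (d + 1)) :=
    (regForm_continuous γ g).continuousOn.integrableOn_compact hcompact
  have hI2 : IntegrableOn main (box (d + 1)) :=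
    hmainc.continuousOn.integrableOn_compact hcompact
  have hmainint : ∫ θ in box (d + 1), main θ =
      if p = q then (-1) ^ d * (2 * π) ^ (d + 1) * Real.log N else 0 := by
    rw [hmain]
    simp only []
    rw [integral_const_mul, Est_fubini (fun s t => Est_f A q' r' s t)]
    have e1 : ∀ s ∈ (Finset.univ : Finset (Fin (d + 1))),
        ∫ t in Set.Icc (0 : ℝ) (2 * π), Est_f A q' r' s t =
        if p s.castSucc = q s.castSucc then 2 * π else 0 := by
      intro s _
      rw [Est_f_integral A q' r' s (Fin.succ_ne_zero _)]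
      simp only [hq', hr', Fin.succ_inj, eq_comm]
    rw [Finset.prod_congr rfl e1, Est_prod_ite]
    have e2 : (p = q) ↔ (p (Fin.last (d + 1)) = q (Fin.last (d + 1)) ∧
        ∀ s : Fin (d + 1), p s.castSucc = q s.castSucc) := by
      constructor
      · rintro rfl
        exact ⟨rfl, fun s => rfl⟩
      · rintro ⟨h1, h2⟩
        funext s
        exact Fin.lastCases h1 h2 s
    rw [hδ]
    by_cases h1 : p (Fin.last (d + 1)) = q (Fin.last (d + 1))
    · by_cases h2 : ∀ s : Fin (d + 1), p s.castSucc = q s.castSucc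
      · rw [if_pos h1, if_pos h2, if_pos (e2.2 ⟨h1, h2⟩)]
        ring
      · rw [if_neg h2, if_neg (fun h => h2 (e2.1 h).2), mul_zero]
    · rw [if_neg h1, if_neg (fun h => h1 (e2.1 h).1), mul_zero, zero_mul]
  rw [← hmainint]
  unfold regFun
  rw [← integral_sub hI1 hI2, ← Real.norm_eq_abs, ← Est_box_volume (d + 1)]
  refine norm_setIntegral_le_of_norm_le_const hcompact.measure_lt_top fun θ _ => hpt θ

end P4a177h
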