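import Pool.Agent.Lib.P4a177h.BLcore

/-!
# Integrals of products of closed forms
-/

set_option autoImplicit false

namespace P4a177h

open Function MeasureTheory ExteriorAlgebra
open scoped Real

noncomputable section

variable {d : ℕ}

theorem CForm.continuous (ω : CForm d) (l : Fin d) : Continuous fun θ => ω.toFun θ l :=
  (ω.smooth l).continuous

theorem isCompact_box (d : ℕ) : IsCompact (box d) := isCompact_Icc

theorem measurableSet_box (d : ℕ) : MeasurableSet (box d) := measurableSet_Icc

/-- the zero form -/
def zeroForm (d : ℕ) : CForm d where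
  toFun := fun _ _ => 0
  smooth := fun _ => contDiff_const
  periodic := fun _ _ _ => rfl
  closed := fun _ _ _ => by simp

theorem wf_nil (θ : Fin d → ℝ) : wf ([] : List (CForm d)) θ = 1 := rfl

theorem wf_cons (ω : CForm d) (L : List (CForm d)) (θ : Fin d → ℝ) :
    wf (ω :: L) θ = ι ℂ (ω.toFun θ) * wf L θ := by
  unfold wf
  rw [List.map_cons, wdg_cons]

theorem wf_append (L L' : List (CForm d)) (θ : Fin d → ℝ) :
    wf (L ++ L') θ = wf L θ * wf L' θ := by
  unfold wf
  rw [List.map_append, wdg_append]

theorem top_wf_continuous (L : List (CForm d)) : Continuous fun θ => top d (wf L θ) := by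
  by_cases h : L.length = d
  · have h2 : ∀ θ, (L.map fun ω => ω.toFun θ).length = d := by
      intro θ; simpa using h
    have h3 : (fun θ => top d (wf L θ)) = fun θ =>
        (Matrix.of fun (a b : Fin d) => (L.get (Fin.cast h.symm a)).toFun θ b).det := by
      funext θ
      unfold wf
      rw [top_of_length_eq _ (h2 θ)]
      congr 1
      ext a b
      simp
    rw [h3]
    refine Continuous.matrix_det ?_
    refine continuous_matrix fun a b => ?_
    exact (L.get (Fin.cast h.symm a)).continuous b
  · have h3 : (fun θ => top d (wf L θ)) = fun θ => 0 := by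
      funext θ
      unfold wf
      rw [top_of_length_ne _ (by simpa using h)]
    rw [h3]
    exact continuous_const

/-- the product with one arbitrary vector field in front is continuous -/
theorem top_ι_wf_continuous (ξ' : (Fin d → ℝ) → Fin d → ℝ) (hξ' : ∀ l, Continuous fun θ => ξ' θ l)
    (L : List (CForm d)) : Continuous fun θ => top d (ι ℂ (rv (ξ' θ)) * wf L θ) := by
  by_cases h : L.length + 1 = d
  · have h2 : ∀ θ, (rv (ξ' θ) :: L.map fun ω => ω.toFun θ).length = d := by
      intro θ; simpa using h
    have h3 : (fun θ => top d (ι ℂ (rv (ξ' θ)) * wf L θ)) = fun θ =>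
        (Matrix.of fun (a b : Fin d) =>
          (rv (ξ' θ) :: L.map fun ω => ω.toFun θ).get (Fin.cast (h2 θ).symm a) b).det := by
      funext θ
      unfold wf
      rw [← wdg_cons, top_of_length_eq _ (h2 θ)]
    rw [h3]
    refine Continuous.matrix_det ?_
    refine continuous_matrix fun a b => ?_
    simp only [Matrix.of_apply, List.get_eq_getElem]
    rcases a with ⟨a, ha⟩
    cases a with
    | zero =>
      simp only [Fin.val_cast, List.getElem_cons_zero, rv]
      exact Complex.continuous_ofReal.comp (hξ' b)
    | succ a =>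
      simp only [Fin.val_cast, List.getElem_cons_succ, List.getElem_map]
      exact (L[a]'(by omega)).continuous b
  · have h3 : (fun θ => top d (ι ℂ (rv (ξ' θ)) * wf L θ)) = fun θ => 0 := by
      funext θ
      unfold wf
      rw [← wdg_cons, top_of_length_ne _ (by simpa using h)]
    rw [h3]
    exact continuous_const

/-- **Stokes**: the integral of `dξ ∧ (closed forms)` is zero -/
theorem integral_top_exact (ξ : (Fin d → ℝ) → ℝ)
    (ξ' : (Fin d → ℝ) → Fin d → ℝ) (hξ : Continuous ξ) (hξ' : ∀ l, Continuous fun θ => ξ' θ l)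
    (hder : ∀ θ l, HasDerivAt (fun s => ξ (update θ l s)) (ξ' θ l) (θ l))
    (hper : ∀ θ l, ξ (update θ l (θ l + 2 * π)) = ξ θ) (L : List (CForm d)) :
    ∫ θ in box d, top d (ι ℂ (rv (ξ' θ)) * wf L θ) = 0 := by
  by_cases h : L.length + 1 = d
  · have h0 : 0 < d := by omega
    have h2 : ∀ θ, (rv (ξ' θ) :: L.map fun ω => ω.toFun θ).length = d := by
      intro θ; simpa using h
    have h3 : (fun θ => top d (ι ℂ (rv (ξ' θ)) * wf L θ)) = fun θ =>
        (Matrix.of fun (i l : Fin d) => if i = ⟨0, h0⟩ then (ξ' θ l : ℂ) else
          ((if hi : 0 < (i : ℕ) then L.get ⟨i - 1, by have := i.2; omega⟩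
            else zeroForm d).toFun θ l : ℂ)).det := by
      funext θ
      unfold wf
      rw [← wdg_cons, top_of_length_eq _ (h2 θ)]
      congr 1
      ext ⟨a, ha⟩ b
      simp only [Matrix.of_apply, List.get_eq_getElem, Fin.mk.injEq]
      cases a with
      | zero => simp [rv]
      | succ a => simp
    rw [h3]
    exact det_exact ⟨0, h0⟩ (fun i => if hi : 0 < (i : ℕ) then
      L.get ⟨i - 1, by have := i.2; omega⟩ else zeroForm d) ξ ξ' hξ hξ' hder hper
  · have h3 : (fun θ => top d (ι ℂ (rv (ξ' θ)) * wf L θ)) = fun θ => 0 := by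
      funext θ
      unfold wf
      rw [← wdg_cons, top_of_length_ne _ (by simpa using h)]
    rw [h3]
    simp

end

end P4a177h
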