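import Mathlib

/-!
# Determinants through the exterior algebra
-/

set_option autoImplicit false

namespace P4a177h

noncomputable section

open ExteriorAlgebra

variable {d : ℕ}

/-- the exterior algebra of `ℂ^d` -/
abbrev Lam (d : ℕ) : Type := ExteriorAlgebra ℂ (Fin d → ℂ)

/-- the top degree part, as a number -/
def top (d : ℕ) : Lam d →ₗ[ℂ] ℂ :=
  ExteriorAlgebra.liftAlternating (R := ℂ) (M := Fin d → ℂ) (N := ℂ)
    (fun i => if h : i = d then h ▸ (Matrix.detRowAlternating : (Fin d → ℂ) [⋀^Fin d]→ₗ[ℂ] ℂ)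
      else 0)

/-- the product of a list of vectors in the exterior algebra -/
def wdg (L : List (Fin d → ℂ)) : Lam d := (L.map fun v => ι ℂ v).prod

@[simp] theorem wdg_nil : wdg ([] : List (Fin d → ℂ)) = 1 := rfl

theorem wdg_cons (v : Fin d → ℂ) (L : List (Fin d → ℂ)) : wdg (v :: L) = ι ℂ v * wdg L := by
  simp [wdg]

theorem wdg_append (L L' : List (Fin d → ℂ)) : wdg (L ++ L') = wdg L * wdg L' := by
  simp [wdg]

theorem top_ιMulti (i : ℕ) (v : Fin i → Fin d → ℂ) :
    top d (ιMulti ℂ i v) = if h : i = d then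
      (Matrix.of fun a b => v (Fin.cast h.symm a) b).det else 0 := by
  unfold top
  rw [liftAlternating_apply_ιMulti]
  by_cases h : i = d
  · subst h
    simp
    rfl
  · simp [h]

theorem top_ofFn (v : Fin d → Fin d → ℂ) : top d (wdg (List.ofFn v)) = (Matrix.of v).det := by
  have h : wdg (List.ofFn v) = ιMulti ℂ d v := by
    rw [ιMulti_apply, wdg, List.map_ofFn]
    rfl
  rw [h, top_ιMulti]
  simp

theorem wdg_eq_ιMulti (L : List (Fin d → ℂ)) : wdg L = ιMulti ℂ L.length L.get := by
  rw [ιMulti_apply, wdg]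
  congr 1
  apply List.ext_getElem
  · simp
  · intro i h1 h2
    simp

theorem top_of_length_ne (L : List (Fin d → ℂ)) (h : L.length ≠ d) : top d (wdg L) = 0 := by
  rw [wdg_eq_ιMulti, top_ιMulti, dif_neg h]

theorem top_of_length_eq (L : List (Fin d → ℂ)) (h : L.length = d) :
    top d (wdg L) = (Matrix.of fun a b => L.get (Fin.cast h.symm a) b).det := by
  rw [wdg_eq_ιMulti, top_ιMulti, dif_pos h]

theorem ι_mul_self (v : Fin d → ℂ) : (ι ℂ v : Lam d) * ι ℂ v = 0 := ι_sq_zero v

theorem ι_mul_swap (v w : Fin d → ℂ) : (ι ℂ v : Lam d) * ι ℂ w = -(ι ℂ w * ι ℂ v) := by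
  have h := ExteriorAlgebra.ι_add_mul_swap (R := ℂ) v w
  exact eq_neg_of_add_eq_zero_left h

/-- moving a vector through a product -/
theorem ι_mul_wdg (v : Fin d → ℂ) (L : List (Fin d → ℂ)) :
    ι ℂ v * wdg L = (-1 : ℂ) ^ L.length • (wdg L * ι ℂ v) := by
  induction L with
  | nil => simp
  | cons w L ih =>
    rw [wdg_cons, ← mul_assoc, ι_mul_swap, neg_mul, mul_assoc, ih, List.length_cons, pow_succ,
      mul_smul_comm, mul_neg_one, neg_smul, mul_assoc]

/-- a real vector -/
def rv (x : Fin d → ℝ) : Fin d → ℂ := fun l => (x l : ℂ)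

/-- the top part of a product of real vectors is real -/
theorem top_real (L : List (Fin d → ℝ)) : (top d (wdg (L.map rv))).im = 0 := by
  by_cases h : (L.map rv).length = d
  · rw [top_of_length_eq _ h]
    have hL : L.length = d := by simpa using h
    have h2 : (Matrix.of fun a b => (L.map (rv (d := d))).get (Fin.cast h.symm a) b) =
        (Matrix.of fun a b => L.get (Fin.cast hL.symm a) b :
          Matrix (Fin d) (Fin d) ℝ).map (fun x : ℝ => (x : ℂ)) := by
      ext a b
      simp [rv]
    rw [h2]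
    have h3 := Complex.ofRealHom.map_det (Matrix.of fun a b => L.get (Fin.cast hL.symm a) b :
          Matrix (Fin d) (Fin d) ℝ)
    have h4 : ((Matrix.of fun a b => L.get (Fin.cast hL.symm a) b :
          Matrix (Fin d) (Fin d) ℝ).map (fun x : ℝ => (x : ℂ))).det =
        (((Matrix.of fun a b => L.get (Fin.cast hL.symm a) b :
          Matrix (Fin d) (Fin d) ℝ).det : ℝ) : ℂ) := h3.symm
    rw [h4, Complex.ofReal_im]
  · rw [top_of_length_ne _ h]
    rfl

end

end P4a177h
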