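import Pool.Agent.Lib.P4a177h.Defs
import Pool.Agent.Lib.P4a177h.Ext

/-!
# Closed periodic differential forms of degree one
-/

set_option autoImplicit false

namespace P4a177h

open Function MeasureTheory
open scoped Real

noncomputable section

/-- A closed periodic complex `1`-form of class `C¹` on `ℝ^d`, given by its components. -/
structure CForm (d : ℕ) where
  /-- the components -/
  toFun : (Fin d → ℝ) → Fin d → ℂ
  smooth : ∀ i, ContDiff ℝ 1 fun θ => toFun θ i
  periodic : ∀ (θ : Fin d → ℝ) (l i : Fin d), toFun (update θ l (θ l + 2 * π)) i = toFun θ i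
  closed : ∀ (θ : Fin d → ℝ) (i j : Fin d),
    fderiv ℝ (fun θ => toFun θ j) θ (Pi.single i 1) =
      fderiv ℝ (fun θ => toFun θ i) θ (Pi.single j 1)

variable {d : ℕ}

/-- exterior product of a list of closed forms, at the point `θ` -/
def wf (L : List (CForm d)) (θ : Fin d → ℝ) : Lam d := wdg (L.map fun ω => ω.toFun θ)

end

end P4a177h
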