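import Pool.Agent.Lib.P4a177h.Defs

/-!
# MODULE Smooth: the affine hypersurface is smooth for large `N`

Put `f_s(t) = ∏_i (t - a_{s,i})` (a nonconstant polynomial). At a point `x` with
`N ∏ f_s(x_s) = 1` all `f_s(x_s) ≠ 0` and the derivative of the equation in `x_s` is
`f_s'(x_s) / f_s(x_s)`. So if all the partial derivatives vanish then every `x_s` is a root of `f_s'`
(nonzero polynomial, finitely many roots), and `N = 1 / ∏ f_s(x_s)` takes finitely many values.
-/

set_option autoImplicit false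

namespace P4a177h

variable {d : ℕ} (A : Fam d)

/-- The polynomial `∏_i (t - a_{s,i})`. -/
noncomputable def Fam.pol (s : Fin (d + 2)) : Polynomial ℚ :=
  ∏ i, (Polynomial.X - Polynomial.C (A.a s i : ℚ))

theorem Fam.pol_natDegree (s : Fin (d + 2)) : (A.pol s).natDegree = A.m s + 1 := by
  unfold Fam.pol
  rw [Polynomial.natDegree_prod_of_monic _ _ (fun i _ => Polynomial.monic_X_sub_C _)]
  simp only [Polynomial.natDegree_X_sub_C, Finset.sum_const, Finset.card_univ, Fintype.card_fin,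
    smul_eq_mul, mul_one]

theorem Fam.pol_derivative_ne (s : Fin (d + 2)) : Polynomial.derivative (A.pol s) ≠ 0 := by
  intro h
  have h1 := Polynomial.derivative_eq_zero.1 h
  rw [A.pol_natDegree s] at h1
  omega

theorem Fam.eqn_eq (N : ℕ) : A.eqn N = (N : MvPolynomial (Fin (d + 2)) ℚ) *
    ∏ s, Polynomial.aeval (MvPolynomial.X s : MvPolynomial (Fin (d + 2)) ℚ) (A.pol s) - 1 := by
  unfold Fam.eqn Fam.pol
  congr 2
  refine Finset.prod_congr rfl (fun s _ => ?_)
  rw [map_prod]
  refine Finset.prod_congr rfl (fun i _ => ?_)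
  simp

theorem Fam.aeval_factor (x : Fin (d + 2) → ℂ) (s : Fin (d + 2)) (p : Polynomial ℚ) :
    MvPolynomial.aeval x (Polynomial.aeval (MvPolynomial.X s : MvPolynomial (Fin (d + 2)) ℚ) p) =
      Polynomial.aeval (x s) p := by
  rw [← Polynomial.aeval_algHom_apply]
  simp

theorem Fam.aeval_eqn (N : ℕ) (x : Fin (d + 2) → ℂ) :
    MvPolynomial.aeval x (A.eqn N) = (N : ℂ) * ∏ s, Polynomial.aeval (x s) (A.pol s) - 1 := by
  rw [A.eqn_eq N, map_sub, map_mul, map_prod, map_one, map_natCast]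
  congr 2
  exact Finset.prod_congr rfl (fun s _ => Fam.aeval_factor x s (A.pol s))

theorem Fam.pderiv_factor (s t : Fin (d + 2)) (p : Polynomial ℚ) :
    MvPolynomial.pderiv s
      (Polynomial.aeval (MvPolynomial.X t : MvPolynomial (Fin (d + 2)) ℚ) p) =
    if t = s then Polynomial.aeval (MvPolynomial.X t : MvPolynomial (Fin (d + 2)) ℚ)
      (Polynomial.derivative p) else 0 := by
  rw [Derivation.map_aeval]
  split_ifs with h
  · subst h
    rw [MvPolynomial.pderiv_X_self]
    simp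
  · rw [MvPolynomial.pderiv_X_of_ne h]
    simp

theorem Fam.aeval_pderiv (N : ℕ) (x : Fin (d + 2) → ℂ) (s : Fin (d + 2)) :
    MvPolynomial.aeval x (MvPolynomial.pderiv s (A.eqn N)) =
      (N : ℂ) * ((∏ t ∈ Finset.univ.erase s, Polynomial.aeval (x t) (A.pol t)) *
        Polynomial.aeval (x s) (Polynomial.derivative (A.pol s))) := by
  rw [A.eqn_eq N, ← Finset.prod_erase_mul Finset.univ _ (Finset.mem_univ s)]
  have h0 : MvPolynomial.pderiv s (∏ t ∈ Finset.univ.erase s,
      Polynomial.aeval (MvPolynomial.X t : MvPolynomial (Fin (d + 2)) ℚ) (A.pol t)) = 0 := by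
    have key : ∀ T : Finset (Fin (d + 2)), s ∉ T → MvPolynomial.pderiv s (∏ t ∈ T,
        Polynomial.aeval (MvPolynomial.X t : MvPolynomial (Fin (d + 2)) ℚ) (A.pol t)) = 0 := by
      intro T
      induction T using Finset.induction_on with
      | empty => intro _; rw [Finset.prod_empty, Derivation.map_one_eq_zero]
      | insert a T ha ih =>
        intro hs
        rw [Finset.mem_insert, not_or] at hs
        rw [Finset.prod_insert ha, Derivation.leibniz, ih hs.2, Fam.pderiv_factor,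
          if_neg (Ne.symm hs.1), smul_zero, smul_zero, add_zero]
    exact key _ (Finset.notMem_erase s _)
  have hN : MvPolynomial.pderiv s (N : MvPolynomial (Fin (d + 2)) ℚ) = 0 :=
    Derivation.map_natCast _ _
  rw [map_sub, Derivation.leibniz, Derivation.leibniz, h0, hN, smul_zero, smul_zero, add_zero,
    add_zero, Derivation.map_one_eq_zero, sub_zero, Fam.pderiv_factor, if_pos rfl]
  rw [smul_eq_mul, smul_eq_mul, map_mul, map_mul, map_natCast, Fam.aeval_factor, map_prod]
  congr 2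
  exact Finset.prod_congr rfl (fun t _ => Fam.aeval_factor x t (A.pol t))

theorem Fam.smooth : ∃ N₀ : ℕ, ∀ N : ℕ, N₀ ≤ N → ∀ x : Fin (d + 2) → ℂ,
    MvPolynomial.aeval x (A.eqn N) = 0 →
      ∃ s, MvPolynomial.aeval x (MvPolynomial.pderiv s (A.eqn N)) ≠ 0 := by
  classical
  let S : Finset (Fin (d + 2) → ℂ) := Fintype.piFinset (fun s =>
    (Polynomial.map (algebraMap ℚ ℂ) (Polynomial.derivative (A.pol s))).roots.toFinset)
  let P : (Fin (d + 2) → ℂ) → ℂ := fun x => ∏ s, Polynomial.aeval (x s) (A.pol s)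
  refine ⟨1 + ∑ x ∈ S, ⌈‖P x‖⁻¹⌉₊, fun N hN x hx => ?_⟩
  by_contra hcon
  push Not at hcon
  rw [A.aeval_eqn N x, sub_eq_zero] at hx
  have hP : (N : ℂ) * P x = 1 := hx
  have hP0 : P x ≠ 0 := fun h => by rw [h, mul_zero] at hP; exact zero_ne_one hP
  have hN0 : (N : ℂ) ≠ 0 := fun h => by rw [h, zero_mul] at hP; exact zero_ne_one hP
  have hfac : ∀ t, Polynomial.aeval (x t) (A.pol t) ≠ 0 := fun t =>
    (Finset.prod_ne_zero_iff.1 hP0) t (Finset.mem_univ t)
  have hroot : ∀ s, Polynomial.aeval (x s) (Polynomial.derivative (A.pol s)) = 0 := by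
    intro s
    have h1 := hcon s
    rw [A.aeval_pderiv N x s] at h1
    rcases mul_eq_zero.1 h1 with h2 | h2
    · exact absurd h2 hN0
    · rcases mul_eq_zero.1 h2 with h3 | h3
      · exact absurd h3 (Finset.prod_ne_zero_iff.2 (fun t _ => hfac t))
      · exact h3
  have hxS : x ∈ S := by
    rw [Fintype.mem_piFinset]
    intro s
    rw [Multiset.mem_toFinset, Polynomial.mem_roots']
    constructor
    · rw [Ne, Polynomial.map_eq_zero]
      exact A.pol_derivative_ne s
    · rw [Polynomial.IsRoot.def, Polynomial.eval_map_algebraMap]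
      exact hroot s
  have h4 : ‖P x‖⁻¹ = (N : ℝ) := by
    have h5 : ‖(N : ℂ)‖ * ‖P x‖ = 1 := by rw [← norm_mul, hP, norm_one]
    rw [Complex.norm_natCast] at h5
    have h6 : ‖P x‖ ≠ 0 := norm_ne_zero_iff.2 hP0
    field_simp
    linarith
  have h7 : ⌈‖P x‖⁻¹⌉₊ ≤ ∑ x ∈ S, ⌈‖P x‖⁻¹⌉₊ :=
    Finset.single_le_sum (f := fun x => ⌈‖P x‖⁻¹⌉₊) (fun _ _ => Nat.zero_le _) hxS
  rw [h4, Nat.ceil_natCast] at h7
  omega

end P4a177h
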