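import Pool.Agent.Lib.P4a177h.Milnor

/-!
# MODULE Unram: a symbol with an entry congruent to 1 is unramified
-/

set_option autoImplicit false

namespace P4a177h

open Function

section Calculus

variable {n : ℕ} {K : Type*} [Field K]

/-- The symbol as a homomorphism in the entry with index `i`. -/
noncomputable def symbHom (a : Fin n → Kˣ) (i : Fin n) : Additive Kˣ →+ MilnorK n K :=
  AddMonoidHom.mk' (fun x => symb (update a i x.toMul)) fun x y => by
    rw [toMul_add, symb_mul]

theorem symbHom_apply (a : Fin n → Kˣ) (i : Fin n) (x : Kˣ) :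
    symbHom a i (Additive.ofMul x) = symb (update a i x) := rfl

theorem symb_one (a : Fin n → Kˣ) (i : Fin n) : symb (update a i 1) = 0 := by
  rw [← symbHom_apply, ofMul_one, map_zero]

theorem symb_inv (a : Fin n → Kˣ) (i : Fin n) (b : Kˣ) :
    symb (update a i b⁻¹) = -symb (update a i b) := by
  rw [← symbHom_apply, ofMul_inv, map_neg, symbHom_apply]

theorem symb_pow (a : Fin n → Kˣ) (i : Fin n) (b : Kˣ) (k : ℕ) :
    symb (update a i (b ^ k)) = k • symb (update a i b) := by
  rw [← symbHom_apply, ofMul_pow, map_nsmul, symbHom_apply]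

theorem symb_zpow (a : Fin n → Kˣ) (i : Fin n) (b : Kˣ) (k : ℤ) :
    symb (update a i (b ^ k)) = k • symb (update a i b) := by
  rw [← symbHom_apply, ofMul_zpow, map_zsmul, symbHom_apply]

/-- `{…, x, y, …}` at the positions `i`, `j`. -/
noncomputable def two (a : Fin n → Kˣ) (i j : Fin n) (x y : Kˣ) : MilnorK n K :=
  symb (update (update a i x) j y)

theorem two_mul_right (a : Fin n → Kˣ) (i j : Fin n) (x y z : Kˣ) :
    two a i j x (y * z) = two a i j x y + two a i j x z := symb_mul _ _ _ _

theorem two_inv_right (a : Fin n → Kˣ) (i j : Fin n) (x y : Kˣ) :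
    two a i j x y⁻¹ = -two a i j x y := symb_inv _ _ _

theorem two_comm (a : Fin n → Kˣ) {i j : Fin n} (hij : i ≠ j) (x y : Kˣ) :
    two a i j x y = symb (update (update a j y) i x) := by
  unfold two
  rw [update_comm hij]

theorem two_mul_left (a : Fin n → Kˣ) {i j : Fin n} (hij : i ≠ j) (x y z : Kˣ) :
    two a i j (x * y) z = two a i j x z + two a i j y z := by
  simp only [two_comm a hij, symb_mul]

theorem two_inv_left (a : Fin n → Kˣ) {i j : Fin n} (hij : i ≠ j) (x z : Kˣ) :
    two a i j x⁻¹ z = -two a i j x z := by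
  simp only [two_comm a hij, symb_inv]

theorem two_one_left (a : Fin n → Kˣ) {i j : Fin n} (hij : i ≠ j) (z : Kˣ) :
    two a i j 1 z = 0 := by
  simp only [two_comm a hij, symb_one]

theorem two_steinberg (a : Fin n → Kˣ) {i j : Fin n} (h1 : (i : ℕ) + 1 = j) (x y : Kˣ)
    (h : (x : K) + y = 1) : two a i j x y = 0 := by
  have hij : i ≠ j := by
    rintro rfl
    omega
  apply symb_steinberg _ i j h1
  rw [update_of_ne hij, update_self, update_self]
  exact h

theorem two_neg (a : Fin n → Kˣ) {i j : Fin n} (h1 : (i : ℕ) + 1 = j) (x : Kˣ) :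
    two a i j x (-x) = 0 := by
  have hij : i ≠ j := by
    rintro rfl
    omega
  by_cases hx : x = 1
  · rw [hx, two_one_left a hij]
  · have hx1 : (x : K) ≠ 1 := fun h => hx (Units.ext h)
    have hx0 : (x : K) ≠ 0 := x.ne_zero
    have h2 : (1 : K) - x ≠ 0 := sub_ne_zero.2 hx1.symm
    have h3 : (1 : K) - (x : K)⁻¹ ≠ 0 := by
      intro h
      apply hx1
      have h4 : (x : K)⁻¹ = 1 := (sub_eq_zero.1 h).symm
      exact inv_eq_one.1 h4
    have h5 : -x = Units.mk0 (1 - (x : K)) h2 * (Units.mk0 (1 - (x : K)⁻¹) h3)⁻¹ := by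
      apply Units.ext
      rw [Units.val_neg, Units.val_mul, Units.val_inv_eq_inv_val, Units.val_mk0, Units.val_mk0,
        eq_mul_inv_iff_mul_eq₀ h3]
      field_simp
      ring
    rw [h5, two_mul_right, two_inv_right, two_steinberg a h1 x _ (by rw [Units.val_mk0]; ring)]
    have h6 : two a i j x (Units.mk0 (1 - (x : K)⁻¹) h3) = 0 := by
      have h7 : two a i j x⁻¹ (Units.mk0 (1 - (x : K)⁻¹) h3) = 0 :=
        two_steinberg a h1 x⁻¹ _ (by
          rw [Units.val_mk0, Units.val_inv_eq_inv_val]; ring)
      rw [two_inv_left a hij, neg_eq_zero] at h7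
      exact h7
    rw [h6, neg_zero, add_zero]

theorem two_anti (a : Fin n → Kˣ) {i j : Fin n} (h1 : (i : ℕ) + 1 = j) (x y : Kˣ) :
    two a i j x y = -two a i j y x := by
  have hij : i ≠ j := by
    rintro rfl
    omega
  have h := two_neg a h1 (x * y)
  rw [two_mul_left a hij] at h
  have e1 : two a i j x (-(x * y)) = two a i j x y := by
    rw [← neg_mul, two_mul_right, two_neg a h1, zero_add]
  have e2 : two a i j y (-(x * y)) = two a i j y x := by
    rw [← mul_neg, mul_comm, neg_mul, ← neg_mul, two_mul_right, two_neg a h1, zero_add]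
  rw [e1, e2] at h
  exact eq_neg_of_add_eq_zero_left h

theorem symb_swap (a : Fin n → Kˣ) {i j : Fin n} (h1 : (i : ℕ) + 1 = j) :
    symb a = -symb (a ∘ Equiv.swap i j) := by
  have hij : i ≠ j := by
    rintro rfl
    omega
  have e1 : a = update (update a i (a i)) j (a j) := by
    rw [update_eq_self, update_eq_self]
  have e2 : a ∘ Equiv.swap i j = update (update a i (a j)) j (a i) := by
    funext l
    by_cases hj : l = j
    · subst hj
      rw [update_self, comp_apply, Equiv.swap_apply_right]
    · by_cases hi : l = i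
      · subst hi
        rw [update_of_ne hj, update_self, comp_apply, Equiv.swap_apply_left]
      · rw [update_of_ne hj, update_of_ne hi, comp_apply, Equiv.swap_apply_of_ne_of_ne hi hj]
  rw [e2]
  conv_lhs => rw [e1]
  exact two_anti a h1 _ _

theorem symb_add_one_lt (m : ℕ) : ∀ (a : Fin n → Kˣ) (i j : Fin n), (i : ℕ) + m + 1 = j →
    (a i : K) + (a j : K) = 1 → symb a = 0 := by
  induction m with
  | zero => intro a i j hij h; exact symb_steinberg a i j (by omega) h
  | succ m ih =>
    intro a i j hij h
    have hj : (j : ℕ) - 1 < n := by omega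
    have h1 : ((⟨(j : ℕ) - 1, hj⟩ : Fin n) : ℕ) + 1 = j := by
      show (j : ℕ) - 1 + 1 = j
      omega
    rw [symb_swap a h1, neg_eq_zero]
    apply ih _ i ⟨(j : ℕ) - 1, hj⟩ (by show (i : ℕ) + m + 1 = (j : ℕ) - 1; omega)
    have n1 : i ≠ ⟨(j : ℕ) - 1, hj⟩ := by
      intro he
      have := congrArg Fin.val he
      simp only at this
      omega
    have n2 : i ≠ j := by
      rintro rfl
      omega
    rw [comp_apply, comp_apply, Equiv.swap_apply_of_ne_of_ne n1 n2, Equiv.swap_apply_left]
    exact h

/-- The Steinberg relation holds for any two different positions. -/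
theorem symb_add_one (a : Fin n → Kˣ) {i j : Fin n} (hij : i ≠ j)
    (h : (a i : K) + (a j : K) = 1) : symb a = 0 := by
  rcases lt_or_gt_of_ne hij with h1 | h1
  · exact symb_add_one_lt ((j : ℕ) - i - 1) a i j (by have := Fin.lt_def.1 h1; omega) h
  · exact symb_add_one_lt ((i : ℕ) - j - 1) a j i (by have := Fin.lt_def.1 h1; omega)
      (by rw [add_comm]; exact h)

end Calculus

theorem unramified_symb {n : ℕ} {K : Type*} [Field K]
    (v : Valuation K (WithZero (Multiplicative ℤ))) (a : Fin n → Kˣ)
    (h : (∀ i, v (a i : K) = 1) ∨ ∃ s, v ((a s : K) - 1) < 1) : Unramified v (symb a) := by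
  rcases h with h | ⟨s, hs⟩
  · refine ⟨1, one_pos, ?_⟩
    rw [one_smul]
    exact AddSubgroup.subset_closure ⟨a, h, rfl⟩
  · by_cases ht : (a s : K) - 1 = 0
    · refine ⟨1, one_pos, ?_⟩
      have h1 : a s = 1 := Units.ext (sub_eq_zero.1 ht)
      have h2 : symb a = 0 := by
        conv_lhs => rw [← update_eq_self s a, h1]
        exact symb_one a s
      rw [h2, smul_zero]
      exact zero_mem _
    · have hu0 : -((a s : K) - 1) ≠ 0 := neg_ne_zero.2 ht
      set u : Kˣ := Units.mk0 (-((a s : K) - 1)) hu0 with hu
      have hvu : v (u : K) = v ((a s : K) - 1) := by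
        rw [hu, Units.val_mk0, Valuation.map_neg]
      have hvas : v (a s : K) = 1 := by
        have h1 : (a s : K) = 1 + ((a s : K) - 1) := by ring
        rw [h1]
        exact Valuation.map_one_add_of_lt v hs
      have hvu0 : v (u : K) ≠ 0 := (Valuation.ne_zero_iff v).2 u.ne_zero
      have hvu1 : v (u : K) < 1 := by rw [hvu]; exact hs
      set β : ℤ := WithZero.log (v (u : K)) with hβ
      have hβe : WithZero.exp β = v (u : K) := WithZero.exp_log hvu0
      have hβneg : β < 0 := by
        rw [← hβe, ← WithZero.exp_zero, WithZero.exp_lt_exp] at hvu1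
        exact hvu1
      obtain ⟨k, hk⟩ : ∃ k : ℕ, (k : ℤ) = -β := ⟨(-β).toNat, Int.toNat_of_nonneg (by omega)⟩
      have hkpos : 0 < k := by omega
      -- the new entries
      set α : Fin n → ℤ := fun i => WithZero.log (v (a i : K)) with hα
      have hαe : ∀ i, WithZero.exp (α i) = v (a i : K) := fun i =>
        WithZero.exp_log ((Valuation.ne_zero_iff v).2 (a i).ne_zero)
      set w : Fin n → Kˣ := fun i => (a i) ^ k * u ^ (α i) with hw
      have hvw : ∀ i, v (w i : K) = 1 := by
        intro i
        rw [hw]
        simp only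
        rw [Units.val_mul, Units.val_pow_eq_pow_val, Units.val_zpow_eq_zpow_val, map_mul, map_pow,
          map_zpow₀, ← hαe i, ← hβe, ← WithZero.exp_nsmul, ← WithZero.exp_zsmul,
          ← WithZero.exp_add, ← WithZero.exp_zero]
        congr 1
        rw [nsmul_eq_mul, smul_eq_mul, hk]
        ring
      have hak : ∀ i, (a i) ^ k = w i * u ^ (-(α i)) := by
        intro i
        rw [hw]
        simp only
        rw [mul_assoc, ← zpow_add, add_neg_cancel, zpow_zero, mul_one]
      have hzero : ∀ (b : Fin n → Kˣ) (i : Fin n), i ≠ s → b s = a s →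
          symb (update b i u) = 0 := by
        intro b i hi hb
        apply symb_add_one _ hi
        rw [update_self, update_of_ne hi.symm, hb, hu, Units.val_mk0]
        ring
      have hstep : ∀ (b : Fin n → Kˣ) (i : Fin n), i ≠ s → b s = a s → b i = a i →
          k • symb b = symb (update b i (w i)) := by
        intro b i hi hb hbi
        conv_lhs => rw [← update_eq_self i b]
        rw [← symb_pow, hbi, hak i, symb_mul, symb_zpow, hzero b i hi hb, smul_zero, add_zero]
      have hind : ∀ T : Finset (Fin n), s ∉ T →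
          (k ^ T.card) • symb a = symb (fun i => if i ∈ T then w i else a i) := by
        classical
        intro T
        induction T using Finset.induction_on with
        | empty =>
          intro _
          rw [Finset.card_empty, pow_zero, one_smul]
          congr 1
        | insert i T hiT ih =>
          intro hsT
          rw [Finset.mem_insert, not_or] at hsT
          rw [Finset.card_insert_of_notMem hiT, pow_succ', mul_smul, ih hsT.2,
            hstep _ i (Ne.symm hsT.1) (by simp [hsT.2]) (by simp [hiT])]
          congr 1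
          funext l
          by_cases hl : l = i
          · subst hl; simp
          · rw [update_of_ne hl]
            simp [Finset.mem_insert, hl]
      refine ⟨k ^ (Finset.univ.erase s).card, pow_pos hkpos _, ?_⟩
      rw [hind _ (Finset.notMem_erase s _)]
      refine AddSubgroup.subset_closure ⟨_, fun i => ?_, rfl⟩
      by_cases hi : i = s
      · subst hi
        simp [hvas]
      · simp [hi, hvw]

end P4a177h
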