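import Pool.Agent.Lib.P4a177h.RegHom
import Pool.Agent.Lib.P4a177h.Est
import Pool.Agent.Lib.P4a177h.Prime
import Pool.Agent.Lib.P4a177h.Smooth
import Pool.Agent.Lib.P4a177h.Unram

/-!
# Assembly
-/

set_option autoImplicit false

namespace P4a177h

open Function MeasureTheory
open scoped Real

noncomputable section

variable {d : ℕ} (A : Fam d)

theorem Fam.eqn_lin (N : ℕ) :
    (N : A.CoordRing N) * ∏ s, ∏ i, A.lin N s i = 1 := by
  have h : (Ideal.Quotient.mk (Ideal.span {A.eqn N}) (A.eqn N)) = 0 :=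
    Ideal.Quotient.eq_zero_iff_mem.2 (Ideal.subset_span (Set.mem_singleton _))
  unfold Fam.eqn at h
  rw [map_sub, map_one, map_mul, map_natCast, map_prod, sub_eq_zero] at h
  simp only [map_prod] at h
  exact h

theorem Fam.isUnit_lin (N : ℕ) (s : Fin (d + 2)) (i : Fin (A.m s + 1)) :
    IsUnit (A.lin N s i) := by
  have h := A.eqn_lin N
  have h1 : A.lin N s i ∣ ∏ i, A.lin N s i := Finset.dvd_prod_of_mem _ (Finset.mem_univ i)
  have h2 : (∏ i, A.lin N s i) ∣ ∏ s, ∏ i, A.lin N s i :=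
    Finset.dvd_prod_of_mem (fun s => ∏ i, A.lin N s i) (Finset.mem_univ s)
  exact isUnit_of_dvd_one ((h1.trans h2).trans (h ▸ dvd_mul_left _ _))

/-- the unit `x_s - a_{s,i}` -/
def Fam.linU (N : ℕ) (s : Fin (d + 2)) (i : Fin (A.m s + 1)) : (A.CoordRing N)ˣ :=
  (A.isUnit_lin N s i).unit

theorem Fam.linU_val (N : ℕ) (s : Fin (d + 2)) (i : Fin (A.m s + 1)) :
    (A.linU N s i : A.CoordRing N) = A.lin N s i := rfl

/-- the unit `(x_s - a_{s,i+1}) / (x_s - a_{s,0})` -/
def Fam.gU (N : ℕ) (s : Fin (d + 2)) (i : Fin (A.m s)) : (A.CoordRing N)ˣ :=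
  A.linU N s i.succ / A.linU N s 0

theorem val_int_le_one {K Γ₀ : Type*} [Field K] [LinearOrderedCommGroupWithZero Γ₀]
    (v : Valuation K Γ₀) (n : ℤ) : v (n : K) ≤ 1 := by
  have hnat : ∀ k : ℕ, v (k : K) ≤ 1 := by
    intro k
    induction k with
    | zero => simp
    | succ k ih =>
      push_cast
      exact (v.map_add _ _).trans (max_le ih (by rw [map_one]))
  obtain ⟨k, rfl | rfl⟩ := n.eq_nat_or_neg
  · exact_mod_cast hnat k
  · push_cast
    rw [Valuation.map_neg]
    exact hnat k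

/-- At every valuation all the entries of `ξ_p` are units or one of them is congruent to `1`. -/
theorem Fam.val_g (N : ℕ) (p : ∀ s, Fin (A.m s)) {K Γ₀ : Type*} [Field K]
    [LinearOrderedCommGroupWithZero Γ₀] (φ : A.CoordRing N →+* K) (v : Valuation K Γ₀) :
    (∀ s, v (φ (A.gU N s (p s) : A.CoordRing N)) = 1) ∨
      ∃ s, v (φ (A.gU N s (p s) : A.CoordRing N) - 1) < 1 := by
  set x : Fin (d + 2) → K := fun s => φ (Ideal.Quotient.mk _ (MvPolynomial.X s)) with hx
  have hlin : ∀ s i, φ (A.lin N s i) = x s - (A.a s i : K) := by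
    intro s i
    unfold Fam.lin
    rw [map_sub, map_sub]
    congr 1
    have h : ((φ.comp (Ideal.Quotient.mk (Ideal.span {A.eqn N}))).comp
      (MvPolynomial.C : ℚ →+* MvPolynomial (Fin (d + 2)) ℚ)) (A.a s i : ℚ) = (A.a s i : K) :=
      map_intCast _ _
    exact h
  have hne : ∀ s i, x s - (A.a s i : K) ≠ 0 := by
    intro s i
    rw [← hlin]
    exact ((A.isUnit_lin N s i).map φ).ne_zero
  have hg : ∀ s, φ (A.gU N s (p s) : A.CoordRing N) =
      (x s - (A.a s (p s).succ : K)) / (x s - (A.a s 0 : K)) := by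
    intro s
    have h : ((Units.map (φ : A.CoordRing N →* K) (A.gU N s (p s)) : Kˣ) : K) =
      (x s - (A.a s (p s).succ : K)) / (x s - (A.a s 0 : K)) := by
      unfold Fam.gU
      rw [map_div, Units.val_div_eq_div_val]
      congr 1
      · show φ (A.lin N s (p s).succ) = _
        rw [hlin]
      · show φ (A.lin N s 0) = _
        rw [hlin]
    exact h
  by_cases hbig : ∃ s, 1 < v (x s)
  · obtain ⟨s, hs⟩ := hbig
    right
    refine ⟨s, ?_⟩
    rw [hg]
    have h1 : (x s - (A.a s (p s).succ : K)) / (x s - (A.a s 0 : K)) - 1 =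
        ((A.a s 0 - A.a s (p s).succ : ℤ) : K) / (x s - (A.a s 0 : K)) := by
      rw [div_sub_one (hne s 0)]
      push_cast
      congr 1
      ring
    have h2 : v (x s - (A.a s 0 : K)) = v (x s) :=
      Valuation.map_sub_eq_of_lt_left v ((val_int_le_one v _).trans_lt hs)
    rw [h1, map_div₀, h2]
    exact (div_lt_one₀ (zero_lt_one.trans hs)).2 ((val_int_le_one v _).trans_lt hs)
  · push Not at hbig
    left
    have hle : ∀ s i, v (x s - (A.a s i : K)) ≤ 1 := by
      intro s i
      exact (v.map_sub _ _).trans (max_le (hbig s) (val_int_le_one v _))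
    have hprod : v (N : K) * ∏ s, ∏ i, v (x s - (A.a s i : K)) = 1 := by
      have h := congrArg φ (A.eqn_lin N)
      rw [map_mul, map_natCast, map_prod, map_one] at h
      simp only [map_prod, hlin] at h
      have h' := congrArg v h
      rw [map_mul, map_prod, map_one] at h'
      simp only [map_prod] at h'
      exact h'
    have hN : v (N : K) ≤ 1 := by
      have := val_int_le_one v (N : ℤ)
      exact_mod_cast this
    have hone : ∀ s i, v (x s - (A.a s i : K)) = 1 := by
      intro s i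
      refine le_antisymm (hle s i) ?_
      have h1 : ∏ i, v (x s - (A.a s i : K)) ≤ v (x s - (A.a s i : K)) := by
        rw [← Finset.mul_prod_erase _ _ (Finset.mem_univ i)]
        exact mul_le_of_le_one_right' (Finset.prod_le_one' fun j _ => hle s j)
      have h2 : ∏ s, ∏ i, v (x s - (A.a s i : K)) ≤ ∏ i, v (x s - (A.a s i : K)) := by
        rw [← Finset.mul_prod_erase _ _ (Finset.mem_univ s)]
        exact mul_le_of_le_one_right' (Finset.prod_le_one' fun j _ =>
          Finset.prod_le_one' fun i _ => hle j i)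
      calc (1 : Γ₀) = v (N : K) * ∏ s, ∏ i, v (x s - (A.a s i : K)) := hprod.symm
        _ ≤ ∏ s, ∏ i, v (x s - (A.a s i : K)) := mul_le_of_le_one_left' hN
        _ ≤ _ := h2.trans h1
    intro s
    rw [hg, map_div₀, hone, hone, div_one]

theorem Fam.admissible (N : ℕ) (p : ∀ s, Fin (A.m s)) :
    Admissible fun s => A.gU N s (p s) := fun _ _ φ O => A.val_g N p φ O.valuation

theorem Fam.unramified_xi (N : ℕ) (p : ∀ s, Fin (A.m s)) {K : Type*} [Field K]
    (φ : A.CoordRing N →+* K) (v : Valuation K (WithZero (Multiplicative ℤ))) :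
    Unramified v (map φ (symb fun s => A.gU N s (p s))) := by
  rw [map_symb]
  exact unramified_symb v _ (A.val_g N p φ v)

theorem det_ne_zero_of_est {ι : Type*} [Fintype ι] [DecidableEq ι] (B : Matrix ι ι ℝ)
    (c C : ℝ) (hB : ∀ p q, |B p q - (if p = q then c else 0)| ≤ C)
    (hc : (Fintype.card ι + 1 : ℝ) * C < |c|) : B.det ≠ 0 := by
  by_cases hι : IsEmpty ι
  · simp
  have hC : 0 ≤ C := by
    rw [not_isEmpty_iff] at hι
    obtain ⟨i⟩ := hι
    exact (abs_nonneg _).trans (hB i i)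
  refine det_ne_zero_of_sum_row_lt_diag fun k => ?_
  have hoff : ∀ j ∈ Finset.univ.erase k, ‖B k j‖ ≤ C := by
    intro j hj
    have h := hB k j
    rw [if_neg (Finset.ne_of_mem_erase hj).symm, sub_zero] at h
    exact h
  have hsum : ∑ j ∈ Finset.univ.erase k, ‖B k j‖ ≤ (Fintype.card ι : ℝ) * C := by
    refine (Finset.sum_le_sum hoff).trans ?_
    rw [Finset.sum_const, nsmul_eq_mul]
    refine mul_le_mul_of_nonneg_right ?_ hC
    have h1 : (Finset.univ.erase k).card ≤ Fintype.card ι :=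
      (Finset.card_erase_le).trans (by simp)
    exact_mod_cast h1
  have hdiag := hB k k
  rw [if_pos rfl] at hdiag
  have h2 : |c| - C ≤ ‖B k k‖ := by
    have h3 := abs_sub_abs_le_abs_sub c (B k k)
    rw [abs_sub_comm] at hdiag
    rw [Real.norm_eq_abs]
    linarith
  nlinarith

/-- **Main theorem.** -/
theorem main : ∃ (C : ℝ) (N₀ : ℕ), ∀ N : ℕ, N₀ ≤ N →
    (Ideal.span {A.eqn N}).IsPrime ∧
    (∀ x : Fin (d + 2) → ℂ, MvPolynomial.aeval x (A.eqn N) = 0 →
      ∃ s, MvPolynomial.aeval x (MvPolynomial.pderiv s (A.eqn N)) ≠ 0) ∧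
    ∃ g : (∀ s, Fin (A.m s)) → Fin (d + 2) → (A.CoordRing N)ˣ,
      (∀ p, Admissible (g p)) ∧
      (∀ p (K : Type) [Field K] (φ : A.CoordRing N →+* K)
        (v : Valuation K (WithZero (Multiplicative ℤ))), Unramified v (map φ (symb (g p)))) ∧
      ∃ γ : (∀ s, Fin (A.m s)) → Torus (d + 1) (A.CoordRing N),
        (∀ p q, |reg (γ q) (symb (g p)) -
          (if p = q then (-1) ^ d * (2 * π) ^ (d + 1) * Real.log N else 0)| ≤ C) ∧
        (Matrix.of fun p q => reg (γ q) (symb (g p))).det ≠ 0 := by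
  classical
  choose C N₁ h using fun q : ∀ s, Fin (A.m s) => A.reg_estimate q
  obtain ⟨N₂, hN₂⟩ := A.smooth
  obtain ⟨C', hC'⟩ : ∃ C' : ℝ, ∀ q, C q ≤ C' :=
    ⟨∑ q, |C q|, fun q => (le_abs_self _).trans
      (Finset.single_le_sum (f := fun q => |C q|) (fun _ _ => abs_nonneg _) (Finset.mem_univ q))⟩
  have ht : Filter.Tendsto (fun N : ℕ => (2 * π) ^ (d + 1) * Real.log N)
      Filter.atTop Filter.atTop :=
    (Real.tendsto_log_atTop.comp tendsto_natCast_atTop_atTop).const_mul_atTop (by positivity)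
  obtain ⟨N₃, hN₃⟩ := Filter.eventually_atTop.1 (ht.eventually_gt_atTop
    ((Fintype.card (∀ s, Fin (A.m s)) + 1 : ℝ) * C'))
  refine ⟨C', max (max (∑ q, N₁ q) N₂) (max N₃ 1), fun N hN => ?_⟩
  have hN1 : ∀ q, N₁ q ≤ N := fun q =>
    (Finset.single_le_sum (f := N₁) (fun _ _ => Nat.zero_le _) (Finset.mem_univ q)).trans
      ((le_max_left _ _).trans ((le_max_left _ _).trans hN))
  have hN2 : N₂ ≤ N := (le_max_right _ _).trans ((le_max_left _ _).trans hN)
  have hN3 : N₃ ≤ N := (le_max_left _ _).trans ((le_max_right _ _).trans hN)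
  have hN4 : 0 < N := (le_max_right N₃ 1).trans ((le_max_right _ _).trans hN)
  refine ⟨A.isPrime N hN4, hN₂ N hN2, fun p s => A.gU N s (p s), A.admissible N, ?_, ?_⟩
  · intro p K _ φ v
    exact A.unramified_xi N p φ v
  · choose γ hγ using fun q => h q N (hN1 q)
    have hest : ∀ p q, |reg (γ q) (symb fun s => A.gU N s (p s)) -
        (if p = q then (-1) ^ d * (2 * π) ^ (d + 1) * Real.log N else 0)| ≤ C' := by
      intro p q
      have h1 := (hγ q (fun s i => A.linU N s i) (fun s i => A.linU_val N s i) p).trans (hC' q)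
      rw [reg_symb]
      exact h1
    refine ⟨γ, hest, ?_⟩
    refine det_ne_zero_of_est _ ((-1) ^ d * (2 * π) ^ (d + 1) * Real.log N) C' hest ?_
    have h2 := hN₃ N hN3
    rw [abs_mul, abs_mul, abs_pow, abs_neg, abs_one, one_pow, one_mul, ← abs_mul]
    exact h2.trans_le (le_abs_self _)

end

end P4a177h
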