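import Mathlib

/-!
# Milnor K-groups of commutative rings (written additively)
-/

set_option autoImplicit false

namespace P4a177h

open Function

noncomputable section

/-- The defining relations of the Milnor `K`-group: multilinearity, and `{…, a, b, …} = 0` if
`a + b = 1` (neighbouring entries). -/
def milnorRel (n : ℕ) (R : Type*) [CommRing R] : Set (FreeAbelianGroup (Fin n → Rˣ)) :=
  {x | ∃ (a : Fin n → Rˣ) (i : Fin n) (b c : Rˣ),
      x = FreeAbelianGroup.of (update a i (b * c)) - FreeAbelianGroup.of (update a i b) -
        FreeAbelianGroup.of (update a i c)} ∪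
  {x | ∃ (a : Fin n → Rˣ) (i j : Fin n), (i : ℕ) + 1 = j ∧ (a i : R) + (a j : R) = 1 ∧
      x = FreeAbelianGroup.of a}

/-- The Milnor `K`-group `K_n(R)`: the `n`-fold tensor power of the group of units modulo the
Steinberg relations. -/
abbrev MilnorK (n : ℕ) (R : Type*) [CommRing R] : Type _ :=
  FreeAbelianGroup (Fin n → Rˣ) ⧸ AddSubgroup.closure (milnorRel n R)

variable {n : ℕ} {R S : Type*} [CommRing R] [CommRing S]

/-- The symbol `{a_1, …, a_n}`. -/
def symb (a : Fin n → Rˣ) : MilnorK n R := QuotientAddGroup.mk (FreeAbelianGroup.of a)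

theorem symb_mul (a : Fin n → Rˣ) (i : Fin n) (b c : Rˣ) :
    symb (update a i (b * c)) = symb (update a i b) + symb (update a i c) := by
  unfold symb
  rw [← QuotientAddGroup.mk_add, QuotientAddGroup.eq]
  rw [show -FreeAbelianGroup.of (update a i (b * c)) +
    (FreeAbelianGroup.of (update a i b) + FreeAbelianGroup.of (update a i c)) =
    -(FreeAbelianGroup.of (update a i (b * c)) - FreeAbelianGroup.of (update a i b) -
        FreeAbelianGroup.of (update a i c)) by abel]
  exact neg_mem (AddSubgroup.subset_closure (Or.inl ⟨a, i, b, c, rfl⟩))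

theorem symb_steinberg (a : Fin n → Rˣ) (i j : Fin n) (hij : (i : ℕ) + 1 = j)
    (h : (a i : R) + (a j : R) = 1) : symb a = 0 := by
  unfold symb
  rw [QuotientAddGroup.eq_zero_iff]
  exact AddSubgroup.subset_closure (Or.inr ⟨a, i, j, hij, h, rfl⟩)

/-- The universal property. -/
def lift {G : Type*} [AddCommGroup G] (F : (Fin n → Rˣ) → G)
    (hmul : ∀ (a : Fin n → Rˣ) (i : Fin n) (b c : Rˣ),
      F (update a i (b * c)) = F (update a i b) + F (update a i c))
    (hst : ∀ (a : Fin n → Rˣ) (i j : Fin n), (i : ℕ) + 1 = j → (a i : R) + (a j : R) = 1 →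
      F a = 0) : MilnorK n R →+ G :=
  QuotientAddGroup.lift _ (FreeAbelianGroup.lift F) (by
    rw [AddSubgroup.closure_le]
    rintro x (⟨a, i, b, c, rfl⟩ | ⟨a, i, j, hij, h, rfl⟩)
    · show FreeAbelianGroup.lift F _ = 0
      rw [map_sub, map_sub, FreeAbelianGroup.lift_apply_of, FreeAbelianGroup.lift_apply_of,
        FreeAbelianGroup.lift_apply_of, hmul]
      abel
    · show FreeAbelianGroup.lift F _ = 0
      rw [FreeAbelianGroup.lift_apply_of]
      exact hst a i j hij h)

theorem lift_symb {G : Type*} [AddCommGroup G] (F : (Fin n → Rˣ) → G)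
    (hmul : ∀ (a : Fin n → Rˣ) (i : Fin n) (b c : Rˣ),
      F (update a i (b * c)) = F (update a i b) + F (update a i c))
    (hst : ∀ (a : Fin n → Rˣ) (i j : Fin n), (i : ℕ) + 1 = j → (a i : R) + (a j : R) = 1 →
      F a = 0) (a : Fin n → Rˣ) : lift F hmul hst (symb a) = F a :=
  FreeAbelianGroup.lift_apply_of F a

/-- Functoriality. -/
def map (φ : R →+* S) : MilnorK n R →+ MilnorK n S :=
  lift (fun a => symb fun i => Units.map (φ : R →* S) (a i))
    (fun a i b c => by
      have h : ∀ x : Rˣ, (fun j => Units.map (φ : R →* S) (update a i x j)) =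
          update (fun j => Units.map (φ : R →* S) (a j)) i (Units.map (φ : R →* S) x) := by
        intro x
        funext j
        by_cases hj : j = i
        · subst hj; simp
        · simp [update_of_ne hj]
      rw [h, h, h, map_mul, symb_mul])
    (fun a i j hij h => symb_steinberg _ i j hij (by
      simp only [Units.coe_map, MonoidHom.coe_coe]
      rw [← map_add, h, map_one]))

theorem map_symb (φ : R →+* S) (a : Fin n → Rˣ) :
    map φ (symb a) = symb fun i => Units.map (φ : R →* S) (a i) := lift_symb _ _ _ a

/-- `ξ` is unramified at the discrete valuation `v`: a nonzero multiple of `ξ` is a sum of symbols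
whose entries are units at `v`. (The symbols of units generate the kernel of the tame symbol of `v`;
so this says that the tame symbol of `ξ` at `v` is torsion.) -/
def Unramified {K : Type*} [Field K] (v : Valuation K (WithZero (Multiplicative ℤ)))
    (ξ : MilnorK n K) : Prop :=
  ∃ m : ℕ, 0 < m ∧ m • ξ ∈ AddSubgroup.closure
    {x : MilnorK n K | ∃ a : Fin n → Kˣ, (∀ i, v (a i : K) = 1) ∧ x = symb a}

/-- An `n`-tuple of units is admissible if, for every valuation ring `O` of every field to which
`R` is mapped, all the entries are units of `O` or some entry is congruent to `1` modulo the maximal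
ideal of `O`. (So the closure of the graph of `a` in `X × (P¹ ∖ 1)ⁿ` does not meet the faces, for
every proper model `X` of `R` over `ℤ`.) -/
def Admissible (a : Fin n → Rˣ) : Prop :=
  ∀ (K : Type) [Field K] (φ : R →+* K) (O : ValuationSubring K),
    (∀ i, O.valuation (φ (a i : R)) = 1) ∨ ∃ i, O.valuation (φ (a i : R) - 1) < 1

end

end P4a177h
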