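import Pool.Agent.Lib.P4a177h.Entry

/-!
# The Steinberg relation for lists of entries
-/

set_option autoImplicit false

namespace P4a177h

open Function MeasureTheory ExteriorAlgebra
open scoped Real

noncomputable section

variable {d : ℕ}

/-- Two entries `f, f'` like `f' = 1 - f`: the forms are proportional and `u b' - u' b` is exact -/
structure StPair (f f' : Entry d) : Prop where
  prop : ∀ θ, ∃ lam : ℂ, f'.c.toFun θ = lam • f.c.toFun θ
  exact_ : ∃ ξ : (Fin d → ℝ) → ℝ, Continuous ξ ∧
    (∀ θ l, HasDerivAt (fun s => ξ (update θ l s))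
      (f.u θ * (f'.c.toFun θ l).re - f'.u θ * (f.c.toFun θ l).re) (θ l)) ∧
    ∀ θ l, ξ (update θ l (θ l + 2 * π)) = ξ θ

theorem StPair.mul_eq_zero {f f' : Entry d} (h : StPair f f') (θ : Fin d → ℝ) :
    (ι ℂ (f.c.toFun θ) : Lam d) * ι ℂ (f'.c.toFun θ) = 0 := by
  obtain ⟨lam, hl⟩ := h.prop θ
  rw [hl, map_smul, mul_smul_comm, ι_mul_self, smul_zero]

/-- products containing the pair vanish -/
theorem StPair.CC_eq_zero {f f' : Entry d} (h : StPair f f') (Post : List (Entry d))
    (Pre : List (Entry d)) (θ : Fin d → ℝ) : CC (Pre ++ f :: f' :: Post) θ = 0 := by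
  induction Pre with
  | nil =>
    rw [List.nil_append, CC_cons, CC_cons, ← mul_assoc, h.mul_eq_zero, zero_mul]
  | cons e Pre ih =>
    rw [List.cons_append, CC_cons, ih, mul_zero]

/-- for proportional complex vectors the product of the real parts is the product of the
imaginary parts -/
theorem StPair.re_mul_re {f f' : Entry d} (h : StPair f f') (θ : Fin d → ℝ) :
    (ι ℂ (f.c.re.toFun θ) : Lam d) * ι ℂ (f'.c.re.toFun θ) =
      ι ℂ (f.c.im.toFun θ) * ι ℂ (f'.c.im.toFun θ) := by
  obtain ⟨lam, hl⟩ := h.prop θ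
  set b := f.c.re.toFun θ with hb
  set a := f.c.im.toFun θ with ha
  have hre : f'.c.re.toFun θ = (lam.re : ℂ) • b - (lam.im : ℂ) • a := by
    funext l
    have := congrFun hl l
    simp only [CForm.re, CForm.im, hb, ha, Pi.sub_apply, Pi.smul_apply, smul_eq_mul] at this ⊢
    rw [this, Complex.mul_re]
    push_cast
    ring
  have him : f'.c.im.toFun θ = (lam.re : ℂ) • a + (lam.im : ℂ) • b := by
    funext l
    have := congrFun hl l
    simp only [CForm.re, CForm.im, hb, ha, Pi.add_apply, Pi.smul_apply, smul_eq_mul] at this ⊢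
    rw [this, Complex.mul_im]
    push_cast
    ring
  rw [hre, him, map_sub, map_add, map_smul, map_smul, map_smul, map_smul, mul_sub, mul_add,
    mul_smul_comm, mul_smul_comm, mul_smul_comm, mul_smul_comm, ι_mul_self, ι_mul_self,
    smul_zero, zero_sub, zero_add, ι_mul_swap b a, smul_neg, neg_neg]

theorem top_wf_ι_mul (v : Fin d → ℂ) (G : List (CForm d)) (X : Lam d) (θ : Fin d → ℝ) :
    top d (wf G θ * (ι ℂ v * X)) = (-1) ^ G.length * top d (ι ℂ v * (wf G θ * X)) := by
  rw [← mul_assoc (ι ℂ v), ι_mul_wf, smul_mul_assoc, map_smul, smul_eq_mul, ← mul_assoc (_ ^ _),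
    ← mul_pow, neg_one_mul, neg_neg, one_pow, one_mul, mul_assoc]

theorem integral_steinberg_nil {f f' : Entry d} (h : StPair f f') (Post : List (Entry d))
    (G : List (CForm d)) (hG : ∀ ω ∈ G, ω.IsReal) :
    (∫ θ in box d, top d (wf G θ * WW (f :: f' :: Post) θ)).re = 0 := by
  obtain ⟨ξ, hξ, hξd, hξp⟩ := h.exact_
  set P : List (CForm d) := Post.map Entry.c with hP
  have hw : ∀ θ, wf (G ++ P) θ = wf G θ * CC Post θ := by
    intro θ
    rw [wf_append]
    rfl
  have hw2 : ∀ θ, wf (G ++ [f'.c.im]) θ * CC Post θ =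
      wf G θ * (ι ℂ (f'.c.im.toFun θ) * CC Post θ) := by
    intro θ
    rw [wf_append, wf_cons, wf_nil, mul_one, mul_assoc]
  -- pointwise computation
  have e1 : ∀ θ, top d (wf G θ * WW (f :: f' :: Post) θ) =
      ((-1) ^ G.length * top d (ι ℂ (rv fun l =>
        (f.u θ * (f'.c.toFun θ l).re - f'.u θ * (f.c.toFun θ l).re)) * wf (G ++ P) θ) +
      Complex.I * ((f.u θ : ℂ) * top d (wf (G ++ [f'.c.im]) θ * CC Post θ))) +
      (-1) ^ G.length * top d (ι ℂ (f.c.im.toFun θ) * (wf (G ++ [f'.c.im]) θ * WW Post θ)) := by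
    intro θ
    have h1 : (rv fun l => (f.u θ * (f'.c.toFun θ l).re - f'.u θ * (f.c.toFun θ l).re)) =
        (f.u θ : ℂ) • f'.c.re.toFun θ - (f'.u θ : ℂ) • f.c.re.toFun θ := by
      funext l
      simp [rv, CForm.re]
    have h2 : (-1) ^ G.length * top d (ι ℂ (f.c.im.toFun θ) *
        (wf (G ++ [f'.c.im]) θ * WW Post θ)) =
        top d (wf G θ * (ι ℂ (f.c.im.toFun θ) * (ι ℂ (f'.c.im.toFun θ) * WW Post θ))) := by
      rw [top_wf_ι_mul, wf_append, wf_cons, wf_nil, mul_one, mul_assoc]
    rw [hw, hw2, h2, ← top_wf_ι_mul, h1, WW_cons, WW_cons, CC_cons, f'.c.re_add_im, map_add,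
      map_smul, map_sub, map_smul, map_smul, ← mul_assoc (ι ℂ (f.c.im.toFun θ)), ← h.re_mul_re]
    simp only [mul_add, mul_sub, add_mul, sub_mul, map_add, map_sub, map_smul, smul_add,
      mul_smul_comm, smul_mul_assoc, smul_eq_mul, mul_assoc]
    ring
  have hu : Continuous fun θ => (f.u θ : ℂ) := Complex.continuous_ofReal.comp f.cont
  have hδ : ∀ l, Continuous fun θ =>
      (f.u θ * (f'.c.toFun θ l).re - f'.u θ * (f.c.toFun θ l).re) := fun l =>
    (f.cont.mul (Complex.continuous_re.comp (f'.c.continuous l))).sub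
      (f'.cont.mul (Complex.continuous_re.comp (f.c.continuous l)))
  have c1 : Continuous fun θ => top d (ι ℂ (rv fun l =>
      (f.u θ * (f'.c.toFun θ l).re - f'.u θ * (f.c.toFun θ l).re)) * wf (G ++ P) θ) :=
    top_ι_wf_continuous _ hδ _
  have c2 : Continuous fun θ => (f.u θ : ℂ) * top d (wf (G ++ [f'.c.im]) θ * CC Post θ) := by
    have : (fun θ => (f.u θ : ℂ) * top d (wf (G ++ [f'.c.im]) θ * CC Post θ)) =
        fun θ => (f.u θ : ℂ) * top d (wf ((G ++ [f'.c.im]) ++ P) θ) := by
      funext θ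
      rw [wf_append (G ++ [f'.c.im])]
      rfl
    rw [this]
    exact hu.mul (top_wf_continuous _)
  have c3 : Continuous fun θ =>
      top d (ι ℂ (f.c.im.toFun θ) * (wf (G ++ [f'.c.im]) θ * WW Post θ)) := by
    have : (fun θ => top d (ι ℂ (f.c.im.toFun θ) * (wf (G ++ [f'.c.im]) θ * WW Post θ))) =
        fun θ => top d (wf (f.c.im :: (G ++ [f'.c.im])) θ * WW Post θ) := by
      funext θ
      rw [wf_cons, mul_assoc]
    rw [this]
    exact top_WW_continuous _ _
  have hG' : ∀ ω ∈ G ++ [f'.c.im], ω.IsReal := by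
    intro ω hω
    rcases List.mem_append.1 hω with h | h
    · exact hG ω h
    · rw [List.mem_singleton.1 h]
      exact f'.c.isReal_im
  have hS := integral_top_exact ξ _ hξ hδ hξd hξp (G ++ P)
  have hK := integral_im_WW f Post (G ++ [f'.c.im]) hG'
  have i1 := (integrableOn_box _ c1).const_mul ((-1 : ℂ) ^ G.length)
  have i2 := (integrableOn_box _ c2).const_mul Complex.I
  have i3 := (integrableOn_box _ c3).const_mul ((-1 : ℂ) ^ G.length)
  have i12 : Integrable (fun θ => (-1 : ℂ) ^ G.length * top d (ι ℂ (rv fun l =>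
        (f.u θ * (f'.c.toFun θ l).re - f'.u θ * (f.c.toFun θ l).re)) * wf (G ++ P) θ) +
      Complex.I * ((f.u θ : ℂ) * top d (wf (G ++ [f'.c.im]) θ * CC Post θ)))
      (volume.restrict (box d)) := i1.add i2
  simp only [e1]
  rw [integral_add i12 i3, integral_add i1 i2, integral_const_mul, integral_const_mul,
    integral_const_mul, hS, mul_zero, zero_add, Complex.add_re, Complex.I_mul_re]
  have : ((-1 : ℂ) ^ G.length) = (((-1 : ℝ) ^ G.length : ℝ) : ℂ) := by push_cast; ring
  rw [this, Complex.re_ofReal_mul, hK, List.length_append, List.length_singleton, ← mul_assoc,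
    ← pow_add]
  have h3 : (-1 : ℝ) ^ (G.length + (G.length + 1 + 1)) = 1 := by
    rw [show G.length + (G.length + 1 + 1) = 2 * (G.length + 1) by ring, pow_mul]
    norm_num
  rw [h3, one_mul, neg_add_cancel]

/-- **The Steinberg relation.** -/
theorem integral_steinberg {f f' : Entry d} (h : StPair f f') (Post : List (Entry d))
    (Pre : List (Entry d)) : ∀ G : List (CForm d), (∀ ω ∈ G, ω.IsReal) →
    (∫ θ in box d, top d (wf G θ * WW (Pre ++ f :: f' :: Post) θ)).re = 0 := by
  induction Pre with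
  | nil => exact integral_steinberg_nil h Post
  | cons e Pre ih =>
    intro G hG
    have hG' : ∀ ω ∈ G ++ [e.c.re], ω.IsReal := by
      intro ω hω
      rcases List.mem_append.1 hω with h | h
      · exact hG ω h
      · rw [List.mem_singleton.1 h]
        exact e.c.isReal_re
    have hih := ih (G ++ [e.c.re]) hG'
    have e1 : ∀ θ, top d (wf G θ * WW ((e :: Pre) ++ f :: f' :: Post) θ) =
        -top d (wf (G ++ [e.c.re]) θ * WW (Pre ++ f :: f' :: Post) θ) := by
      intro θ
      rw [List.cons_append, WW_cons, h.CC_eq_zero, smul_zero, zero_sub, mul_neg, map_neg,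
        wf_append, wf_cons, wf_nil, mul_one, mul_assoc]
    simp only [e1]
    rw [integral_neg, Complex.neg_re, hih, neg_zero]

end

end P4a177h
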