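import Pool.Agent.Lib.P4a177h.Main

/-!
# The notions used in the statement
-/

set_option autoImplicit false

namespace P4a177h

open scoped Real

noncomputable section

/-- `ξ` is integral: its image in `K_n` of every field is unramified at every discrete valuation -/
def Integral {n : ℕ} {R : Type} [CommRing R] (ξ : MilnorK n R) : Prop :=
  ∀ (K : Type) [Field K] (φ : R →+* K) (v : Valuation K (WithZero (Multiplicative ℤ))),
    Unramified v (map φ ξ)

/-- the affine hypersurface `E = 0` is smooth over `ℂ` -/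
def IsSmooth {n : ℕ} (E : MvPolynomial (Fin n) ℚ) : Prop :=
  ∀ x : Fin n → ℂ, MvPolynomial.aeval x E = 0 →
    ∃ s, MvPolynomial.aeval x (MvPolynomial.pderiv s E) ≠ 0

/-- the matrix of the regulators of the symbols `{g_p}` on the tori `γ_q` -/
def regMat {ι : Type} {d : ℕ} {R : Type} [CommRing R] (g : ι → Fin (d + 1) → Rˣ)
    (γ : ι → Torus d R) : Matrix ι ι ℝ :=
  Matrix.of fun p q => reg (γ q) (symb (g p))

theorem main_stmt {d : ℕ} (A : Fam d) : ∃ (C : ℝ) (N₀ : ℕ), ∀ N : ℕ, N₀ ≤ N →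
    (Ideal.span {A.eqn N}).IsPrime ∧ IsSmooth (A.eqn N) ∧
    ∃ (g : (∀ s, Fin (A.m s)) → Fin (d + 2) → (A.CoordRing N)ˣ)
      (γ : (∀ s, Fin (A.m s)) → Torus (d + 1) (A.CoordRing N)),
      (∀ p, Admissible (g p) ∧ Integral (symb (g p))) ∧
      (∀ p q, |regMat g γ p q -
        (if p = q then (-1) ^ d * (2 * π) ^ (d + 1) * Real.log N else 0)| ≤ C) ∧
      (regMat g γ).det ≠ 0 := by
  obtain ⟨C, N₀, h⟩ := main A
  refine ⟨C, N₀, fun N hN => ?_⟩
  obtain ⟨h1, h2, g, h3, h4, γ, h5, h6⟩ := h N hN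
  exact ⟨h1, h2, g, γ, fun p => ⟨h3 p, fun K _ φ v => h4 p K φ v⟩, h5, h6⟩

end

end P4a177h
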