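import Pool.Agent.Lib.P4a177h.Defs

/-!
# The last coordinate on the tori

Let `F(v) = ∏_i (v + a_q - a_i)` (the last list). `F` has a `C²` local inverse `ψ` at `0`, small near
`0`. Let `G(θ) = ∏_{s < d+1} ∏_i (a_{s,q_s} + e^{i θ_s} / 2 - a_{s,i})`; every factor has absolute
value at least `1/2`. For large `N` put `y(θ) = a_q + ψ(1 / (N G(θ)))`, so that
`N G(θ) ∏_i (y(θ) - a_i) = 1` and `|y - a_q| ≤ δ`. The logarithm of this equation gives the size of
`log |y - a_q|`, its logarithmic derivative gives the bounds of `∂_l y / (y - a_i)`.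
-/

set_option autoImplicit false

namespace P4a177h

open Function Filter
open scoped Real Topology

/-- Logarithmic derivative of a finite product in a direction. -/
theorem TorPts_logDeriv_prod {ι E : Type*} [NormedAddCommGroup E] [NormedSpace ℝ E]
    (S : Finset ι) (g : ι → E → ℂ) (x v : E) (hd : ∀ i ∈ S, DifferentiableAt ℝ (g i) x)
    (h0 : ∀ i ∈ S, g i x ≠ 0) :
    fderiv ℝ (fun t => ∏ i ∈ S, g i t) x v / (∏ i ∈ S, g i x) =
      ∑ i ∈ S, fderiv ℝ (g i) x v / g i x := by
  classical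
  induction S using Finset.induction_on with
  | empty => simp
  | insert i S hi ih =>
    have h1 : DifferentiableAt ℝ (g i) x := hd i (Finset.mem_insert_self _ _)
    have h2 : DifferentiableAt ℝ (fun t => ∏ j ∈ S, g j t) x :=
      (HasFDerivAt.finsetProd fun j hj =>
        (hd j (Finset.mem_insert_of_mem hj)).hasFDerivAt).differentiableAt
    have h3 : (∏ j ∈ S, g j x) ≠ 0 :=
      Finset.prod_ne_zero_iff.2 fun j hj => h0 j (Finset.mem_insert_of_mem hj)
    have h4 : g i x ≠ 0 := h0 i (Finset.mem_insert_self _ _)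
    have h5 : (fun t => ∏ j ∈ insert i S, g j t) = fun t => g i t * ∏ j ∈ S, g j t := by
      funext t; rw [Finset.prod_insert hi]
    rw [h5, Finset.prod_insert hi, Finset.sum_insert hi,
      ← ih (fun j hj => hd j (Finset.mem_insert_of_mem hj))
        (fun j hj => h0 j (Finset.mem_insert_of_mem hj)), fderiv_fun_mul h1 h2]
    simp only [add_apply, smul_apply, smul_eq_mul]
    field_simp
    ring

theorem TorPts_abs_log {x : ℝ} (hx : 1 / 2 ≤ x) : |Real.log x| ≤ x + 1 := by
  have hx0 : 0 < x := by linarith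
  rw [abs_le]
  constructor
  · have h1 : Real.log (1 / 2) ≤ Real.log x := Real.log_le_log (by norm_num) hx
    have h2 : Real.log (1 / 2) = - Real.log 2 := by
      rw [one_div, Real.log_inv]
    have h3 : Real.log 2 ≤ 1 := by
      have := Real.log_two_lt_d9; linarith
    linarith
  · have := Real.log_le_sub_one_of_pos hx0
    linarith

/-- A local inverse of `v ↦ ∏ i, (v + b i)` at `0`, when exactly one `b i` is `0`. -/
theorem TorPts_exists_psi {n : ℕ} (b : Fin n → ℂ) (q : Fin n) (hq : b q = 0)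
    (hb : ∀ i, i ≠ q → b i ≠ 0) (δ : ℝ) (hδ : 0 < δ) :
    ∃ (ψ : ℂ → ℂ) (ε : ℝ), 0 < ε ∧ ∀ w, ‖w‖ < ε →
      ContDiffAt ℝ 2 ψ w ∧ ‖ψ w‖ ≤ δ ∧ ∏ i, (ψ w + b i) = w := by
  classical
  set F : ℂ → ℂ := fun v => ∏ i, (v + b i) with hF
  have hFsm : ContDiff ℂ 2 F := by
    rw [hF]
    exact contDiff_prod fun i _ => contDiff_id.add contDiff_const
  have hF' : F = fun v => v * ∏ i ∈ Finset.univ.erase q, (v + b i) := by
    funext v
    simp only [hF]
    rw [← Finset.mul_prod_erase _ _ (Finset.mem_univ q), hq, add_zero]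
  have hF0 : F 0 = 0 := by rw [hF']; simp
  set c : ℂ := ∏ i ∈ Finset.univ.erase q, (b i) with hc
  have hc0 : c ≠ 0 := by
    rw [hc]
    exact Finset.prod_ne_zero_iff.2 fun i hi => hb i (Finset.ne_of_mem_erase hi)
  have hder : HasDerivAt F c 0 := by
    rw [hF']
    have hd : DifferentiableAt ℂ (fun v : ℂ => ∏ i ∈ Finset.univ.erase q, (v + b i)) 0 :=
      (contDiff_prod (n := 1) fun i _ => contDiff_id.add contDiff_const).differentiable
        (by norm_num) |>.differentiableAt
    have h := (hasDerivAt_id (0 : ℂ)).mul hd.hasDerivAt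
    simp only [id, one_mul, zero_mul, add_zero, zero_add] at h
    exact h
  have hder' : HasFDerivAt F
      ((ContinuousLinearEquiv.unitsEquivAut ℂ (Units.mk0 c hc0) : ℂ ≃L[ℂ] ℂ) : ℂ →L[ℂ] ℂ) 0 :=
    hder.hasFDerivAt_equiv hc0
  have hcd : ContDiffAt ℂ 2 F 0 := hFsm.contDiffAt
  set ψ := hcd.localInverse hder' (by norm_num) with hψ
  have h1 : ContDiffAt ℂ 2 ψ 0 := by
    have := hcd.to_localInverse hder' (by norm_num)
    rwa [hF0] at this
  have h2 : ∀ᶠ w in 𝓝 (0 : ℂ), ContDiffAt ℂ 2 ψ w := h1.eventually (by simp)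
  have h3 : ψ 0 = 0 := by
    have := hcd.localInverse_apply_image hder' (by norm_num)
    rwa [hF0] at this
  have h4 : ∀ᶠ w in 𝓝 (0 : ℂ), F (ψ w) = w := by
    have := HasStrictFDerivAt.eventually_right_inverse
      (hcd.hasStrictFDerivAt' hder' (by norm_num))
    rwa [hF0] at this
  have h5 : ∀ᶠ w in 𝓝 (0 : ℂ), ‖ψ w‖ < δ := by
    have hcont : ContinuousAt ψ 0 := h1.continuousAt
    have : Tendsto (fun w => ‖ψ w‖) (𝓝 0) (𝓝 ‖ψ 0‖) := hcont.norm
    rw [h3, norm_zero] at this
    exact this.eventually (gt_mem_nhds hδ)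
  obtain ⟨ε, hε, hball⟩ := Metric.eventually_nhds_iff.1 (h2.and (h4.and h5))
  refine ⟨ψ, ε, hε, fun w hw => ?_⟩
  obtain ⟨g1, g2, g3⟩ := hball (y := w) (by simpa using hw)
  exact ⟨g1.restrict_scalars ℝ, g3.le, g2⟩

variable {d : ℕ} (A : Fam d)

/-- An integer difference is `0` or has absolute value at least `1`. -/
theorem TorPts_norm_sub {s : Fin (d + 2)} {i j : Fin (A.m s + 1)} (h : i ≠ j) :
    1 ≤ ‖(A.a s i : ℂ) - (A.a s j : ℂ)‖ := by
  have h1 : A.a s i - A.a s j ≠ 0 := sub_ne_zero.2 fun e => h (A.inj s e)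
  have h2 : (1 : ℤ) ≤ |A.a s i - A.a s j| := Int.one_le_abs h1
  have h3 : ((A.a s i : ℂ) - (A.a s j : ℂ)) = ((A.a s i - A.a s j : ℤ) : ℂ) := by push_cast; ring
  rw [h3, Complex.norm_intCast]
  exact_mod_cast h2

theorem TorPts_norm_exp (t : ℝ) : ‖(1 / 2 : ℂ) * Complex.exp (t * Complex.I)‖ = 1 / 2 := by
  rw [norm_mul, Complex.norm_exp_ofReal_mul_I]; norm_num

/-- The factors of the first `d + 1` lists. -/
noncomputable def TorPts_L (q : ∀ s, Fin (A.m s + 1)) (s : Fin (d + 1))
    (i : Fin (A.m s.castSucc + 1)) (θ : Fin (d + 1) → ℝ) : ℂ :=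
  (A.a s.castSucc (q s.castSucc) : ℂ) + 1 / 2 * Complex.exp (θ s * Complex.I) -
    (A.a s.castSucc i : ℂ)

theorem TorPts_L_ge (q : ∀ s, Fin (A.m s + 1)) (s : Fin (d + 1))
    (i : Fin (A.m s.castSucc + 1)) (θ : Fin (d + 1) → ℝ) : 1 / 2 ≤ ‖TorPts_L A q s i θ‖ := by
  unfold TorPts_L
  by_cases h : q s.castSucc = i
  · rw [h, add_sub_cancel_left, TorPts_norm_exp]
  · have h1 := TorPts_norm_sub A h
    have h2 : (A.a s.castSucc (q s.castSucc) : ℂ) - (A.a s.castSucc i : ℂ) =
      ((A.a s.castSucc (q s.castSucc) : ℂ) + 1 / 2 * Complex.exp (θ s * Complex.I) -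
        (A.a s.castSucc i : ℂ)) - 1 / 2 * Complex.exp (θ s * Complex.I) := by ring
    have h3 := norm_sub_le ((A.a s.castSucc (q s.castSucc) : ℂ) +
      1 / 2 * Complex.exp (θ s * Complex.I) - (A.a s.castSucc i : ℂ))
      (1 / 2 * Complex.exp (θ s * Complex.I))
    rw [← h2, TorPts_norm_exp] at h3
    linarith

theorem TorPts_L_le (q : ∀ s, Fin (A.m s + 1)) (s : Fin (d + 1))
    (i : Fin (A.m s.castSucc + 1)) (θ : Fin (d + 1) → ℝ) : ‖TorPts_L A q s i θ‖ ≤
      ‖(A.a s.castSucc (q s.castSucc) : ℂ) - (A.a s.castSucc i : ℂ)‖ + 1 / 2 := by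
  unfold TorPts_L
  have h2 : ((A.a s.castSucc (q s.castSucc) : ℂ) + 1 / 2 * Complex.exp (θ s * Complex.I) -
        (A.a s.castSucc i : ℂ)) = ((A.a s.castSucc (q s.castSucc) : ℂ) -
        (A.a s.castSucc i : ℂ)) + 1 / 2 * Complex.exp (θ s * Complex.I) := by ring
  rw [h2]
  refine (norm_add_le _ _).trans ?_
  rw [TorPts_norm_exp]

theorem TorPts_L_contDiff (q : ∀ s, Fin (A.m s + 1)) (s : Fin (d + 1))
    (i : Fin (A.m s.castSucc + 1)) : ContDiff ℝ 2 (TorPts_L A q s i) := by
  unfold TorPts_L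
  have h1 : ContDiff ℝ 2 fun θ : Fin (d + 1) → ℝ => ((θ s : ℝ) : ℂ) :=
    Complex.ofRealCLM.contDiff.comp (contDiff_apply ℝ ℝ s)
  exact (contDiff_const.add (contDiff_const.mul (h1.mul contDiff_const).cexp)).sub contDiff_const

theorem TorPts_L_periodic (q : ∀ s, Fin (A.m s + 1)) (s : Fin (d + 1))
    (i : Fin (A.m s.castSucc + 1)) (θ : Fin (d + 1) → ℝ) (l : Fin (d + 1)) :
    TorPts_L A q s i (update θ l (θ l + 2 * π)) = TorPts_L A q s i θ := by
  unfold TorPts_L
  by_cases h : s = l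
  · subst h
    rw [update_self]
    have : (((θ s + 2 * π : ℝ)) : ℂ) * Complex.I = θ s * Complex.I + 2 * π * Complex.I := by
      push_cast; ring
    rw [this, Complex.exp_add, Complex.exp_two_pi_mul_I, mul_one]
  · rw [update_of_ne h]

theorem TorPts_L_fderiv (q : ∀ s, Fin (A.m s + 1)) (s : Fin (d + 1))
    (i : Fin (A.m s.castSucc + 1)) (θ : Fin (d + 1) → ℝ) (l : Fin (d + 1)) :
    ‖fderiv ℝ (TorPts_L A q s i) θ (Pi.single l 1)‖ ≤ 1 / 2 := by
  have h1 : HasFDerivAt (fun θ : Fin (d + 1) → ℝ => ((θ s : ℝ) : ℂ))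
      (Complex.ofRealCLM.comp
        (ContinuousLinearMap.proj (R := ℝ) (φ := fun _ : Fin (d + 1) => ℝ) s)) θ :=
    (Complex.ofRealCLM.comp
      (ContinuousLinearMap.proj (R := ℝ) (φ := fun _ : Fin (d + 1) => ℝ) s)).hasFDerivAt
  have h2 := (h1.mul_const Complex.I).cexp
  have h3 := ((h2.const_mul (1 / 2 : ℂ)).const_add
    (A.a s.castSucc (q s.castSucc) : ℂ)).sub_const (A.a s.castSucc i : ℂ)
  have h4 : fderiv ℝ (TorPts_L A q s i) θ = _ := h3.fderiv
  rw [h4]
  simp only [smul_apply, ContinuousLinearMap.comp_apply,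
    ContinuousLinearMap.proj_apply, smul_eq_mul, Complex.ofRealCLM_apply]
  by_cases h : s = l
  · subst h
    simp only [Pi.single_eq_same, Complex.ofReal_one, mul_one, norm_mul,
      Complex.norm_exp_ofReal_mul_I, Complex.norm_I]
    norm_num
  · rw [Pi.single_eq_of_ne h]
    simp

theorem Fam.exists_last (q : ∀ s, Fin (A.m s + 1)) :
    ∃ (C : ℝ) (N₀ : ℕ), ∀ N : ℕ, N₀ ≤ N → ∃ y : (Fin (d + 1) → ℝ) → ℂ,
      ContDiff ℝ 2 y ∧ (∀ θ l, y (update θ l (θ l + 2 * π)) = y θ) ∧
      (∀ θ : Fin (d + 1) → ℝ,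
        (N : ℂ) * ((∏ s : Fin (d + 1), ∏ i, ((A.a s.castSucc (q s.castSucc) : ℂ) +
            1 / 2 * Complex.exp (θ s * Complex.I) - (A.a s.castSucc i : ℂ))) *
          ∏ i, (y θ - (A.a (Fin.last (d + 1)) i : ℂ))) = 1) ∧
      (∀ θ, |Real.log ‖y θ - (A.a (Fin.last (d + 1)) (q (Fin.last (d + 1))) : ℂ)‖ +
          Real.log N| ≤ C) ∧
      (∀ i, i ≠ q (Fin.last (d + 1)) → ∀ θ,
        |Real.log ‖y θ - (A.a (Fin.last (d + 1)) i : ℂ)‖| ≤ C) ∧
      (∀ i θ l, ‖fderiv ℝ y θ (Pi.single l 1) / (y θ - (A.a (Fin.last (d + 1)) i : ℂ))‖ ≤ C) := by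
  classical
  set last : Fin (d + 2) := Fin.last (d + 1) with hlast
  set k : ℕ := A.m last + 1 with hk
  set α : Fin k → ℂ := fun i => (A.a last i : ℂ) with hα
  set qq : Fin k := q last with hqq
  set b : Fin k → ℂ := fun i => α qq - α i with hb
  -- the small number
  set δ : ℝ := 1 / (4 * ((k : ℝ) + 1)) with hδ
  have hkp : (0 : ℝ) ≤ k := Nat.cast_nonneg _
  have hδ0 : 0 < δ := by rw [hδ]; positivity
  have hδ1 : δ ≤ 1 / 4 := by
    rw [hδ]
    apply one_div_le_one_div_of_le (by norm_num)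
    linarith
  have hkδ : (k : ℝ) * δ ≤ 1 / 4 := by
    rw [hδ, mul_one_div, div_le_div_iff₀ (by positivity) (by norm_num)]
    linarith
  have hbge : ∀ i, i ≠ qq → 1 ≤ ‖b i‖ := fun i hi => TorPts_norm_sub A (s := last) (Ne.symm hi)
  obtain ⟨ψ, ε, hε, hψ⟩ := TorPts_exists_psi b qq (by simp [hb])
    (fun i hi => by
      have := hbge i hi
      intro h0
      rw [h0, norm_zero] at this
      linarith) δ hδ0
  -- the product of the other factors
  set G : (Fin (d + 1) → ℝ) → ℂ := fun θ => ∏ s : Fin (d + 1), ∏ i, TorPts_L A q s i θ with hG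
  set g : ℝ := ∏ s : Fin (d + 1), ∏ _i : Fin (A.m s.castSucc + 1), (1 / 2 : ℝ) with hg
  have hg0 : 0 < g := Finset.prod_pos fun s _ => Finset.prod_pos fun i _ => by norm_num
  have hLne : ∀ s i θ, TorPts_L A q s i θ ≠ 0 := by
    intro s i θ h0
    have := TorPts_L_ge A q s i θ
    rw [h0, norm_zero] at this
    linarith
  have hGg : ∀ θ, g ≤ ‖G θ‖ := by
    intro θ
    simp only [hG, norm_prod, hg]
    exact Finset.prod_le_prod (fun s _ => Finset.prod_nonneg fun i _ => by norm_num)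
      fun s _ => Finset.prod_le_prod (fun i _ => by norm_num) fun i _ => TorPts_L_ge A q s i θ
  have hGne : ∀ θ, G θ ≠ 0 := by
    intro θ h0
    have := hGg θ
    rw [h0, norm_zero] at this
    linarith
  have hGsm : ContDiff ℝ 2 G := by
    rw [hG]
    exact contDiff_prod fun s _ => contDiff_prod fun i _ => TorPts_L_contDiff A q s i
  have hGper : ∀ θ l, G (update θ l (θ l + 2 * π)) = G θ := by
    intro θ l
    simp only [hG, TorPts_L_periodic]
  -- constants
  set M : ℝ := ∑ s : Fin (d + 1), ∑ _i : Fin (A.m s.castSucc + 1), (1 : ℝ) with hM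
  have hM0 : 0 ≤ M := Finset.sum_nonneg fun s _ => Finset.sum_nonneg fun i _ => by norm_num
  set C₁ : ℝ := 2 + ∑ i, ‖b i‖ with hC₁
  have hC₁0 : 0 ≤ C₁ := by
    rw [hC₁]; exact add_nonneg (by norm_num) (Finset.sum_nonneg fun i _ => norm_nonneg _)
  set C₂ : ℝ := ∑ s : Fin (d + 1), ∑ i : Fin (A.m s.castSucc + 1),
    (‖(A.a s.castSucc (q s.castSucc) : ℂ) - (A.a s.castSucc i : ℂ)‖ + 1 / 2 + 1) with hC₂
  have hC₂0 : 0 ≤ C₂ :=
    Finset.sum_nonneg fun s _ => Finset.sum_nonneg fun i _ => by positivity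
  obtain ⟨N₁, hN₁⟩ := exists_nat_gt (1 / (g * ε))
  refine ⟨C₂ + k * C₁ + C₁ + 2 * M, N₁ + 1, fun N hN => ?_⟩
  have hkC : (0 : ℝ) ≤ k * C₁ := mul_nonneg hkp hC₁0
  have hNpos : (0 : ℝ) < N := by
    have : 0 < N := by omega
    exact_mod_cast this
  have hNne : (N : ℂ) ≠ 0 := by
    have : N ≠ 0 := by omega
    exact_mod_cast this
  have hNgt : 1 / (g * ε) < N := by
    refine hN₁.trans ?_
    have : N₁ < N := by omega
    exact_mod_cast this
  set w : (Fin (d + 1) → ℝ) → ℂ := fun θ => ((N : ℂ) * G θ)⁻¹ with hw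
  have hwε : ∀ θ, ‖w θ‖ < ε := by
    intro θ
    have h1 : 1 < N * (g * ε) := by
      rwa [div_lt_iff₀ (by positivity)] at hNgt
    have h2 : 0 < (N : ℝ) * ‖G θ‖ := mul_pos hNpos (norm_pos_iff.2 (hGne θ))
    simp only [hw, norm_inv, norm_mul, Complex.norm_natCast]
    rw [inv_lt_iff_one_lt_mul₀ h2]
    calc (1 : ℝ) < N * (g * ε) := h1
      _ = (N * ε) * g := by ring
      _ ≤ (N * ε) * ‖G θ‖ := mul_le_mul_of_nonneg_left (hGg θ) (by positivity)
      _ = ε * (N * ‖G θ‖) := by ring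
  have hwsm : ContDiff ℝ 2 w := by
    rw [hw]
    exact (contDiff_const.mul hGsm).inv fun θ => mul_ne_zero hNne (hGne θ)
  have hwper : ∀ θ l, w (update θ l (θ l + 2 * π)) = w θ := by
    intro θ l
    simp only [hw, hGper]
  set y : (Fin (d + 1) → ℝ) → ℂ := fun θ => α qq + ψ (w θ) with hy
  have hysm : ContDiff ℝ 2 y := by
    rw [hy]
    refine contDiff_const.add (contDiff_iff_contDiffAt.2 fun θ => ?_)
    exact (hψ (w θ) (hwε θ)).1.comp θ hwsm.contDiffAt
  have hyα : ∀ θ i, y θ - α i = ψ (w θ) + b i := by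
    intro θ i
    simp only [hy, hb]; ring
  have hyq : ∀ θ, y θ - α qq = ψ (w θ) := by
    intro θ
    simp only [hy]; ring
  have hyδ : ∀ θ, ‖y θ - α qq‖ ≤ δ := by
    intro θ
    rw [hyq]
    exact (hψ (w θ) (hwε θ)).2.1
  have hprod : ∀ θ, ∏ i, (y θ - α i) = w θ := by
    intro θ
    simp only [hyα]
    exact (hψ (w θ) (hwε θ)).2.2
  have hwne : ∀ θ, w θ ≠ 0 := fun θ => inv_ne_zero (mul_ne_zero hNne (hGne θ))
  have hyne : ∀ θ i, y θ - α i ≠ 0 := by
    intro θ i
    have h1 : ∏ i, (y θ - α i) ≠ 0 := by rw [hprod]; exact hwne θ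
    exact Finset.prod_ne_zero_iff.1 h1 i (Finset.mem_univ _)
  have hyge : ∀ θ i, i ≠ qq → 1 / 2 ≤ ‖y θ - α i‖ := by
    intro θ i hi
    have h1 : b i = (y θ - α i) - (y θ - α qq) := by simp only [hb]; ring
    have h2 := norm_sub_le (y θ - α i) (y θ - α qq)
    rw [← h1] at h2
    have h3 := hbge i hi
    have h4 := hyδ θ
    linarith
  have hyle : ∀ θ i, ‖y θ - α i‖ ≤ ‖b i‖ + 1 / 2 := by
    intro θ i
    have h1 : y θ - α i = (y θ - α qq) + b i := by simp only [hb]; ring
    rw [h1]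
    have h2 := norm_add_le (y θ - α qq) (b i)
    have h4 := hyδ θ
    linarith
  have hbC : ∀ i, ‖b i‖ + 2 ≤ C₁ := by
    intro i
    rw [hC₁]
    have := Finset.single_le_sum (f := fun i => ‖b i‖) (fun i _ => norm_nonneg _)
      (Finset.mem_univ i)
    linarith
  have hlogi : ∀ θ i, i ≠ qq → |Real.log ‖y θ - α i‖| ≤ C₁ := by
    intro θ i hi
    have h1 := TorPts_abs_log (hyge θ i hi)
    have h2 := hyle θ i
    have h3 := hbC i
    linarith
  have heqn : ∀ θ, (N : ℂ) * (G θ * ∏ i, (y θ - α i)) = 1 := by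
    intro θ
    rw [hprod]
    simp only [hw]
    have := hGne θ
    field_simp
  refine ⟨y, hysm, fun θ l => by simp only [hy, hwper], heqn, ?_, ?_, ?_⟩
  · -- the logarithm of the small factor
    intro θ
    have h1 : Real.log N + ((∑ s : Fin (d + 1), ∑ i, Real.log ‖TorPts_L A q s i θ‖) +
        ∑ i, Real.log ‖y θ - α i‖) = 0 := by
      have h2 := congrArg (fun x : ℂ => Real.log ‖x‖) (heqn θ)
      simp only [norm_mul, norm_one, Real.log_one, Complex.norm_natCast] at h2
      rw [Real.log_mul hNpos.ne' (mul_ne_zero (norm_ne_zero_iff.2 (hGne θ))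
          (norm_ne_zero_iff.2 (by rw [hprod]; exact hwne θ))),
        Real.log_mul (norm_ne_zero_iff.2 (hGne θ))
          (norm_ne_zero_iff.2 (by rw [hprod]; exact hwne θ))] at h2
      simp only [hG, norm_prod] at h2
      rw [Real.log_prod (fun s _ => Finset.prod_ne_zero_iff.2 fun i _ =>
          norm_ne_zero_iff.2 (hLne s i θ)),
        Real.log_prod (fun i _ => norm_ne_zero_iff.2 (hyne θ i))] at h2
      rw [← h2]
      congr 2
      refine Finset.sum_congr rfl fun s _ => ?_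
      rw [Real.log_prod (fun i _ => norm_ne_zero_iff.2 (hLne s i θ))]
    rw [← Finset.add_sum_erase _ _ (Finset.mem_univ qq)] at h1
    have h3 : Real.log ‖y θ - α qq‖ + Real.log N =
        -((∑ s : Fin (d + 1), ∑ i, Real.log ‖TorPts_L A q s i θ‖) +
        ∑ i ∈ Finset.univ.erase qq, Real.log ‖y θ - α i‖) := by linarith
    have h4 : |∑ s : Fin (d + 1), ∑ i, Real.log ‖TorPts_L A q s i θ‖| ≤ C₂ := by
      refine (Finset.abs_sum_le_sum_abs _ _).trans (Finset.sum_le_sum fun s _ => ?_)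
      refine (Finset.abs_sum_le_sum_abs _ _).trans (Finset.sum_le_sum fun i _ => ?_)
      refine (TorPts_abs_log (TorPts_L_ge A q s i θ)).trans ?_
      have := TorPts_L_le A q s i θ
      linarith
    have h5 : |∑ i ∈ Finset.univ.erase qq, Real.log ‖y θ - α i‖| ≤ k * C₁ := by
      refine (Finset.abs_sum_le_sum_abs _ _).trans ?_
      refine (Finset.sum_le_card_nsmul _ _ C₁ fun i hi =>
        hlogi θ i (Finset.ne_of_mem_erase hi)).trans ?_
      rw [nsmul_eq_mul]
      refine mul_le_mul_of_nonneg_right ?_ hC₁0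
      have : (Finset.univ.erase qq).card ≤ k := by
        refine (Finset.card_erase_le).trans ?_
        simp
      exact_mod_cast this
    show |Real.log ‖y θ - α qq‖ + Real.log N| ≤ _
    rw [h3, abs_neg]
    refine (abs_add_le _ _).trans ?_
    linarith
  · intro i hi θ
    have := hlogi θ i hi
    show |Real.log ‖y θ - α i‖| ≤ _
    linarith
  · -- the logarithmic derivatives
    intro i θ l
    show ‖fderiv ℝ y θ (Pi.single l 1) / (y θ - α i)‖ ≤ _
    set v : Fin (d + 1) → ℝ := Pi.single l 1 with hv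
    have hyd : DifferentiableAt ℝ y θ := (hysm.differentiable (by norm_num)).differentiableAt
    have hyfd : ∀ i, fderiv ℝ (fun t => y t - α i) θ = fderiv ℝ y θ := by
      intro i
      exact fderiv_sub_const (α i)
    -- the log derivative of `G`
    have hLd : ∀ s i, DifferentiableAt ℝ (TorPts_L A q s i) θ := fun s i =>
      ((TorPts_L_contDiff A q s i).differentiable (by norm_num)).differentiableAt
    have hGd : DifferentiableAt ℝ G θ := (hGsm.differentiable (by norm_num)).differentiableAt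
    have e1 : fderiv ℝ G θ v / G θ =
        ∑ s : Fin (d + 1), ∑ i, fderiv ℝ (TorPts_L A q s i) θ v / TorPts_L A q s i θ := by
      simp only [hG]
      rw [TorPts_logDeriv_prod Finset.univ
        (fun s t => ∏ i, TorPts_L A q s i t) θ v
        (fun s _ => ((contDiff_prod (n := 2) fun i _ => TorPts_L_contDiff A q s i).differentiable
          (by norm_num)).differentiableAt)
        (fun s _ => Finset.prod_ne_zero_iff.2 fun i _ => hLne s i θ)]
      refine Finset.sum_congr rfl fun s _ => ?_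
      exact TorPts_logDeriv_prod Finset.univ (fun i t => TorPts_L A q s i t) θ v
        (fun i _ => hLd s i) (fun i _ => hLne s i θ)
    have e2 : ‖fderiv ℝ G θ v / G θ‖ ≤ M := by
      rw [e1]
      refine (norm_sum_le _ _).trans (Finset.sum_le_sum fun s _ => ?_)
      refine (norm_sum_le _ _).trans (Finset.sum_le_sum fun i _ => ?_)
      rw [norm_div]
      have h1 := TorPts_L_fderiv A q s i θ l
      have h2 := TorPts_L_ge A q s i θ
      rw [div_le_one (by linarith)]
      exact h1.trans h2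
    -- the log derivative of the last product
    have e3 : fderiv ℝ (fun t => ∏ i, (y t - α i)) θ v / (∏ i, (y θ - α i)) =
        ∑ i, fderiv ℝ y θ v / (y θ - α i) := by
      rw [TorPts_logDeriv_prod Finset.univ (fun i t => y t - α i) θ v
        (fun i _ => hyd.sub_const _) (fun i _ => hyne θ i)]
      simp only [hyfd]
    -- the equation
    have hPd : DifferentiableAt ℝ (fun t => ∏ i, (y t - α i)) θ := by
      have : (fun t => ∏ i, (y t - α i)) = w := funext hprod
      rw [this]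
      exact (hwsm.differentiable (by norm_num)).differentiableAt
    have e4 : fderiv ℝ G θ v / G θ +
        fderiv ℝ (fun t => ∏ i, (y t - α i)) θ v / (∏ i, (y θ - α i)) = 0 := by
      have h1 : (fun t => G t * ∏ i, (y t - α i)) = fun _ => (N : ℂ)⁻¹ := by
        funext t
        have := heqn t
        field_simp
        linear_combination this
      have h2 : fderiv ℝ (fun t => G t * ∏ i, (y t - α i)) θ v = 0 := by
        rw [h1]; simp
      rw [fderiv_fun_mul hGd hPd] at h2
      simp only [add_apply, smul_apply, smul_eq_mul] at h2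
      have h3 := hGne θ
      have h4 : ∏ i, (y θ - α i) ≠ 0 := by rw [hprod]; exact hwne θ
      field_simp
      linear_combination h2
    set D : ℂ := fderiv ℝ y θ v / (y θ - α qq) with hD
    have e5 : ∀ i, fderiv ℝ y θ v / (y θ - α i) = D * ((y θ - α qq) / (y θ - α i)) := by
      intro i
      have h1 := hyne θ i
      have h2 := hyne θ qq
      rw [hD]
      field_simp
    have e6 : ∀ i, i ≠ qq → ‖(y θ - α qq) / (y θ - α i)‖ ≤ 2 * δ := by
      intro i hi
      rw [norm_div, div_le_iff₀ (by have := hyge θ i hi; linarith)]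
      have h1 := hyge θ i hi
      have h2 := hyδ θ
      nlinarith
    have e7 : ‖D‖ ≤ 2 * M := by
      have h1 : D * (1 + ∑ i ∈ Finset.univ.erase qq, (y θ - α qq) / (y θ - α i)) =
          -(fderiv ℝ G θ v / G θ) := by
        have h2 : ∑ i, fderiv ℝ y θ v / (y θ - α i) = -(fderiv ℝ G θ v / G θ) := by
          rw [← e3]; linear_combination e4
        rw [← h2, mul_add, mul_one, Finset.mul_sum,
          ← Finset.add_sum_erase _ _ (Finset.mem_univ qq)]
        congr 1
        exact Finset.sum_congr rfl fun i _ => (e5 i).symm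
      have h3 : ‖∑ i ∈ Finset.univ.erase qq, (y θ - α qq) / (y θ - α i)‖ ≤ 1 / 2 := by
        refine (norm_sum_le _ _).trans ?_
        refine (Finset.sum_le_card_nsmul _ _ (2 * δ) fun i hi =>
          e6 i (Finset.ne_of_mem_erase hi)).trans ?_
        rw [nsmul_eq_mul]
        have h4 : ((Finset.univ.erase qq).card : ℝ) ≤ k := by
          have : (Finset.univ.erase qq).card ≤ k := by
            refine (Finset.card_erase_le).trans ?_
            simp
          exact_mod_cast this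
        calc ((Finset.univ.erase qq).card : ℝ) * (2 * δ) ≤ k * (2 * δ) :=
              mul_le_mul_of_nonneg_right h4 (by linarith)
          _ = 2 * (k * δ) := by ring
          _ ≤ 1 / 2 := by linarith
      have h5 : 1 / 2 ≤ ‖1 + ∑ i ∈ Finset.univ.erase qq, (y θ - α qq) / (y θ - α i)‖ := by
        have h6 := norm_sub_le (1 + ∑ i ∈ Finset.univ.erase qq, (y θ - α qq) / (y θ - α i))
          (∑ i ∈ Finset.univ.erase qq, (y θ - α qq) / (y θ - α i))
        rw [add_sub_cancel_right, norm_one] at h6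
        linarith
      have h7 := congrArg norm h1
      rw [norm_mul, norm_neg] at h7
      have h8 : ‖D‖ * (1 / 2) ≤ M := by
        calc ‖D‖ * (1 / 2) ≤ ‖D‖ * ‖1 + ∑ i ∈ Finset.univ.erase qq,
              (y θ - α qq) / (y θ - α i)‖ := mul_le_mul_of_nonneg_left h5 (norm_nonneg _)
          _ = ‖fderiv ℝ G θ v / G θ‖ := h7
          _ ≤ M := e2
      linarith
    by_cases hi : i = qq
    · subst hi
      rw [← hD]
      linarith
    · rw [e5, norm_mul]
      have h1 := e6 i hi
      have h2 : ‖D‖ * ‖(y θ - α qq) / (y θ - α i)‖ ≤ ‖D‖ * 1 :=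
        mul_le_mul_of_nonneg_left (by linarith) (norm_nonneg _)
      linarith

end P4a177h
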